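import Pool.Agent.Lib.MP_131fce_co.K.Deficit

/-! # IC-10: candidates that miss -/

set_option autoImplicit false

namespace Pool.Agent.ICycK

open Finset
open scoped Classical

variable {V : Type} [Fintype V] {G : SimpleGraph V} {k : ℕ} [NeZero k]

/-- probability that an independent copy of `x (s+1)` misses `y` -/
noncomputable def missP (G : SimpleGraph V) (k : ℕ) [NeZero k] (s : ℕ) (x : ZMod k → V) (y : V) :
    ℝ :=
  ∑ w : V, pr G k s x w * (if ¬ G.Adj y w then (1 : ℝ) else 0)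

theorem missP_nonneg (s : ℕ) (x : ZMod k → V) (y : V) : 0 ≤ missP G k s x y := by
  unfold missP
  refine sum_nonneg fun w _ => mul_nonneg (pr_nonneg s x w) ?_
  split_ifs <;> norm_num

theorem missP_le_one (s : ℕ) {x : ZMod k → V} (hx : x ∈ Cyc G k) (y : V) :
    missP G k s x y ≤ 1 := by
  unfold missP
  refine le_trans (sum_le_sum (g := fun w => pr G k s x w) fun w _ => ?_) (sum_pr hx s).le
  have h := pr_nonneg (G := G) s x w
  by_cases ha : G.Adj y w
  · simpa [ha] using h
  · simp [ha]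

theorem missP_congr (s : ℕ) {x x' : ZMod k → V} (h : x' ∈ cyl G k (s + 1) x) (y : V) :
    missP G k s x' y = missP G k s x y := by
  unfold missP
  refine sum_congr rfl fun w _ => ?_
  rw [pr_congr (cyl_mono (Nat.le_succ s) h) w]

theorem Bad_step1 (s : ℕ) :
    Bad G k s ≤ 13 / 4 * cc G k s +
      6 / 5 * ∑ x ∈ Cyc G k, missP G k s x (x ((s + 2 : ℕ) : ZMod k)) := by
  unfold Bad cc
  rw [mul_sum, mul_sum, ← sum_add_distrib]
  refine sum_le_sum fun x _ => ?_
  have hκ := kap_pos_of_fun (k := k) x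
  rw [mu_eq_sum]
  have h2 : ∑ w ∈ (F G k s x).filter (fun w => ¬ G.Adj (x ((s + 2 : ℕ) : ZMod k)) w), kap V k ≤
      ∑ w ∈ F G k s x, (13 / 4 * (kap V k * Phi (pr G k s x w / kap V k)) +
        6 / 5 * (pr G k s x w * (if ¬ G.Adj (x ((s + 2 : ℕ) : ZMod k)) w then (1 : ℝ) else 0))) := by
    rw [sum_filter]
    refine sum_le_sum fun w _ => ?_
    have h := pr_nonneg (G := G) s x w
    have h3 := kap_le (G := G) s x w
    have h4 := term_nonneg (G := G) s x w
    by_cases ha : G.Adj (x ((s + 2 : ℕ) : ZMod k)) w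
    · simp only [ha, not_true_eq_false, if_false, mul_zero, add_zero]
      linarith
    · simp only [ha, not_false_eq_true, if_true, mul_one]
      linarith
  refine le_trans h2 ?_
  have e1 : ∑ w ∈ F G k s x, 13 / 4 * (kap V k * Phi (pr G k s x w / kap V k)) =
      13 / 4 * ∑ w ∈ F G k s x, kap V k * Phi (pr G k s x w / kap V k) := (mul_sum _ _ _).symm
  have e2 : ∑ w ∈ F G k s x, 6 / 5 * (pr G k s x w *
      (if ¬ G.Adj (x ((s + 2 : ℕ) : ZMod k)) w then (1 : ℝ) else 0)) =
      6 / 5 * ∑ w ∈ F G k s x, pr G k s x w *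
      (if ¬ G.Adj (x ((s + 2 : ℕ) : ZMod k)) w then (1 : ℝ) else 0) := (mul_sum _ _ _).symm
  rw [sum_add_distrib, e1, e2]
  have h5 : ∑ w ∈ F G k s x, (pr G k s x w *
      (if ¬ G.Adj (x ((s + 2 : ℕ) : ZMod k)) w then (1 : ℝ) else 0)) ≤
      missP G k s x (x ((s + 2 : ℕ) : ZMod k)) := by
    unfold missP
    refine sum_le_sum_of_subset_of_nonneg (subset_univ _) fun w _ _ => ?_
    refine mul_nonneg (pr_nonneg s x w) ?_
    split_ifs <;> norm_num
  linarith

theorem Bad_step2 (hk : 20 ≤ k) {s : ℕ} (hs : s + 5 ≤ k) {x : ZMod k → V} (hx : x ∈ Cyc G k) :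
    ∑ y : V, pr G k (s + 1) x y * missP G k s x y ≤
      3 * ∑ y ∈ F G k (s + 1) x, kap V k * Phi (pr G k (s + 1) x y / kap V k) +
      6 / 5 * ∑ z : V, pr G k s x z *
        mu k ((W G k (s + 1) x).filter
          (fun y => G.Adj (x ((s + 1 : ℕ) : ZMod k)) y ∧ ¬ G.Adj z y)) := by
  have hκ := kap_pos_of_fun (k := k) x
  have h1 : ∑ y : V, pr G k (s + 1) x y * missP G k s x y =
      ∑ y ∈ F G k (s + 1) x, pr G k (s + 1) x y * missP G k s x y := by
    symm
    apply sum_subset (subset_univ _)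
    intro y _ hy
    rw [pr_eq_zero (by omega) (by omega) hy, zero_mul]
  have h2 : ∀ y ∈ F G k (s + 1) x, pr G k (s + 1) x y * missP G k s x y ≤
      3 * (kap V k * Phi (pr G k (s + 1) x y / kap V k)) +
        6 / 5 * (kap V k * missP G k s x y) := by
    intro y _
    have ha := pr_le (G := G) (s + 1) x y
    have ht := term_nonneg (G := G) (s + 1) x y
    have hb := missP_nonneg (G := G) (k := k) s x y
    have hc := missP_le_one s hx y
    have h5 := mul_le_mul_of_nonneg_right ha hb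
    have h6 := mul_le_mul_of_nonneg_left hc (mul_nonneg (by norm_num : (0 : ℝ) ≤ 3) ht)
    nlinarith
  have h3 : 6 / 5 * ∑ y ∈ F G k (s + 1) x, (kap V k * missP G k s x y) =
      6 / 5 * ∑ z : V, pr G k s x z *
        mu k ((W G k (s + 1) x).filter
          (fun y => G.Adj (x ((s + 1 : ℕ) : ZMod k)) y ∧ ¬ G.Adj z y)) := by
    congr 1
    unfold missP
    simp_rw [mul_sum]
    rw [sum_comm]
    refine sum_congr rfl fun z _ => ?_
    rw [mu_eq_sum, mul_sum, ← filter_filter, sum_filter]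
    refine sum_congr rfl fun y _ => ?_
    by_cases h : G.Adj z y
    · have h' : G.Adj y z := h.symm
      simp [h, h']
    · have h' : ¬ G.Adj y z := fun h' => h h'.symm
      simp only [h, h', not_false_eq_true, if_true]
      ring
  rw [h1, ← h3, mul_sum, mul_sum, ← sum_add_distrib]
  exact sum_le_sum h2

theorem Bad_le (hk : 20 ≤ k) {s : ℕ} (hs : s + 5 ≤ k) :
    Bad G k s ≤ 36 / 25 * Jl G k s + 18 / 5 * cc G k (s + 1) + 13 / 4 * cc G k s := by
  have h1 := Bad_step1 (G := G) (k := k) s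
  have h2 := tower (G := G) (k := k) (s + 1) (fun x y => missP G k s x y)
    (fun x _ x' hx' y => missP_congr s hx' y)
  have h4 : ∑ x ∈ Cyc G k, missP G k s x (x ((s + 2 : ℕ) : ZMod k)) ≤
      3 * cc G k (s + 1) + 6 / 5 * Jl G k s := by
    have h5 : ∑ x ∈ Cyc G k, missP G k s x (x ((s + 2 : ℕ) : ZMod k)) =
        ∑ x ∈ Cyc G k, ∑ y : V, pr G k (s + 1) x y * missP G k s x y := h2
    rw [h5]
    refine le_trans (sum_le_sum fun x hx => Bad_step2 hk hs hx) ?_
    rw [sum_add_distrib, ← mul_sum, ← mul_sum, ← Jl_eq]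
    exact le_rfl
  linarith

end Pool.Agent.ICycK
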