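import Pool.Agent.Lib.MP_131fce_co.K.Defs

/-!
# Induced k-cycles in triangle-free graphs (MP_131fce_co): basic facts
-/

set_option autoImplicit false

namespace Pool.Agent.ICycK

open Finset
open scoped Classical

noncomputable section

variable {V : Type} [Fintype V] {G : SimpleGraph V} {k : ℕ} [NeZero k]

theorem bas_mem_Cyc {x : ZMod k → V} : x ∈ Cyc G k ↔ IsCyc G k x := by
  simp [Cyc]

/-- equality of casts below `k` -/
theorem bas_cast_eq_iff {i j : ℕ} (hi : i < k) (hj : j < k) :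
    ((i : ZMod k) = (j : ZMod k)) ↔ i = j := by
  constructor
  · intro h
    have h1 := (ZMod.natCast_eq_natCast_iff' i j k).1 h
    rwa [Nat.mod_eq_of_lt hi, Nat.mod_eq_of_lt hj] at h1
  · intro h
    rw [h]

theorem isCyc_injective (hk : 5 ≤ k) {x : ZMod k → V} (hx : x ∈ Cyc G k) :
    Function.Injective x := by
  have hx' : IsCyc G k x := bas_mem_Cyc.1 hx
  intro i j hij
  by_contra hne
  have h1 : G.Adj (x i) (x (i + 1)) := (hx' i (i + 1)).2 (Or.inl rfl)
  have h2 : G.Adj (x i) (x (i - 1)) := (hx' i (i - 1)).2 (Or.inr (by ring))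
  rw [hij] at h1 h2
  have h3 : j = i + 2 := by
    rcases (hx' j (i + 1)).1 h1 with h | h
    · exact absurd (add_right_cancel h) hne
    · rw [h]; ring
  have h4 : i = j + 2 := by
    rcases (hx' j (i - 1)).1 h2 with h | h
    · have : i = j + 2 := by
        calc i = (i - 1) + 1 := by ring
          _ = (j + 1) + 1 := by rw [h]
          _ = j + 2 := by ring
      exact this
    · exact absurd (by rw [h]; ring) hne
  have h5 : ((4 : ℕ) : ZMod k) = ((0 : ℕ) : ZMod k) := by
    have : i + 4 = i + 0 := by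
      calc i + 4 = (i + 2) + 2 := by ring
        _ = j + 2 := by rw [← h3]
        _ = i := h4.symm
        _ = i + 0 := by ring
    have := add_left_cancel this
    push_cast
    exact this
  have := (bas_cast_eq_iff (k := k) (by omega) (by omega)).1 h5
  omega

theorem adj_nat (hk : 5 ≤ k) {x : ZMod k → V} (hx : x ∈ Cyc G k) {i j : ℕ} (hi : i < k)
    (hj : j < k) : G.Adj (x (i : ZMod k)) (x (j : ZMod k)) ↔
      (j = i + 1 ∨ i = j + 1 ∨ (i = 0 ∧ j = k - 1) ∨ (j = 0 ∧ i = k - 1)) := by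
  have hx' : IsCyc G k x := bas_mem_Cyc.1 hx
  have key : ∀ {i j : ℕ}, i < k → j < k → (((j : ZMod k) = (i : ZMod k) + 1) ↔
      (j = i + 1 ∨ (j = 0 ∧ i = k - 1))) := by
    intro i j hi hj
    have h0 : ((i : ZMod k) + 1) = ((i + 1 : ℕ) : ZMod k) := by push_cast; ring
    rw [h0]
    constructor
    · intro h
      have h1 := (ZMod.natCast_eq_natCast_iff' j (i + 1) k).1 h
      rw [Nat.mod_eq_of_lt hj] at h1
      by_cases hik : i + 1 < k
      · rw [Nat.mod_eq_of_lt hik] at h1
        exact Or.inl h1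
      · have : i + 1 = k := by omega
        rw [this, Nat.mod_self] at h1
        exact Or.inr ⟨h1, by omega⟩
    · rintro (h | ⟨h1, h2⟩)
      · rw [h]
      · have : i + 1 = k := by omega
        rw [this, h1]
        simp
  rw [hx', key hi hj, key hj hi]
  constructor
  · rintro ((h | h) | (h | h))
    · exact Or.inl h
    · exact Or.inr (Or.inr (Or.inr h))
    · exact Or.inr (Or.inl h)
    · exact Or.inr (Or.inr (Or.inl h))
  · rintro (h | h | h | h)
    · exact Or.inl (Or.inl h)
    · exact Or.inr (Or.inl h)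
    · exact Or.inr (Or.inr h)
    · exact Or.inl (Or.inr h)

theorem kap_pos [Nonempty V] : 0 < kap V k := by
  unfold kap
  have h1 : 0 < k := Nat.pos_of_ne_zero (NeZero.ne k)
  have h2 : 0 < Fintype.card V := Fintype.card_pos
  positivity

theorem kap_nonneg : 0 ≤ kap V k := by
  unfold kap
  positivity

theorem mu_nonneg (S : Finset V) : 0 ≤ mu k S := by
  unfold mu
  exact mul_nonneg kap_nonneg (Nat.cast_nonneg _)

theorem mu_mono {S S' : Finset V} (h : S ⊆ S') : mu k S ≤ mu k S' := by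
  unfold mu
  exact mul_le_mul_of_nonneg_left (by exact_mod_cast card_le_card h) kap_nonneg

theorem mu_eq_sum (S : Finset V) : mu k S = ∑ _w ∈ S, kap V k := by
  unfold mu
  rw [sum_const, nsmul_eq_mul]
  ring

theorem sum_kap [Nonempty V] : ∑ _w : V, kap V k = (k : ℝ) := by
  rw [sum_const, nsmul_eq_mul, card_univ]
  unfold kap
  have h2 : (0 : ℝ) < Fintype.card V := by exact_mod_cast (Fintype.card_pos (α := V))
  field_simp

theorem bas_mem_W {l : ℕ} {x : ZMod k → V} {w : V} :
    w ∈ W G k l x ↔ ∀ i : ℕ, i < l → ¬ G.Adj (x (i : ZMod k)) w := by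
  simp [W]

theorem bas_mem_F {l : ℕ} {x : ZMod k → V} {w : V} :
    w ∈ F G k l x ↔ (∀ i : ℕ, i < l → ¬ G.Adj (x (i : ZMod k)) w) ∧ G.Adj (x (l : ZMod k)) w := by
  rw [F, mem_filter, bas_mem_W]

theorem bas_mem_T {j : ZMod k} {x : ZMod k → V} {w : V} :
    w ∈ T G k j x ↔ Ty G k x w = {j - 1, j + 1} := by
  simp [T]

theorem bas_mem_Ty {x : ZMod k → V} {w : V} {i : ZMod k} :
    i ∈ Ty G k x w ↔ G.Adj (x i) w := by
  simp [Ty]

theorem bas_mem_nb {u w : V} : w ∈ nb G u ↔ G.Adj u w := by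
  simp [nb]

theorem bas_mem_cyl {l : ℕ} {x x' : ZMod k → V} :
    x' ∈ cyl G k l x ↔ x' ∈ Cyc G k ∧ ∀ i : ℕ, i ≤ l → x' (i : ZMod k) = x (i : ZMod k) := by
  rw [cyl, mem_filter]

theorem W_succ (l : ℕ) (x : ZMod k → V) :
    W G k (l + 1) x = (W G k l x).filter (fun w => ¬ G.Adj (x (l : ZMod k)) w) := by
  ext w
  rw [mem_filter, bas_mem_W, bas_mem_W]
  constructor
  · intro h
    exact ⟨fun i hi => h i (by omega), h l (by omega)⟩
  · rintro ⟨h1, h2⟩ i hi
    rcases Nat.lt_succ_iff_lt_or_eq.1 hi with h | h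
    · exact h1 i h
    · rw [h]; exact h2

theorem W_anti {l m : ℕ} (h : l ≤ m) (x : ZMod k → V) : W G k m x ⊆ W G k l x := by
  intro w hw
  rw [bas_mem_W] at hw ⊢
  exact fun i hi => hw i (by omega)

theorem F_subset_W (l : ℕ) (x : ZMod k → V) : F G k l x ⊆ W G k l x := filter_subset _ _

theorem F_disjoint {l m : ℕ} (h : l < m) (x : ZMod k → V) :
    Disjoint (F G k l x) (F G k m x) := by
  rw [Finset.disjoint_left]
  intro w h1 h2
  rw [bas_mem_F] at h1 h2
  exact h2.1 l h h1.2

theorem mem_F_succ (hk : 5 ≤ k) {x : ZMod k → V} (hx : x ∈ Cyc G k) {l : ℕ} (hl : l + 3 ≤ k) :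
    x ((l + 1 : ℕ) : ZMod k) ∈ F G k l x := by
  rw [bas_mem_F]
  constructor
  · intro i hi h
    have := (adj_nat hk hx (i := i) (j := l + 1) (by omega) (by omega)).1 h
    omega
  · exact (adj_nat hk hx (i := l) (j := l + 1) (by omega) (by omega)).2 (Or.inl rfl)

theorem T_subset_F (hk : 5 ≤ k) {x : ZMod k → V} {l : ℕ} (hl : l + 3 ≤ k) :
    T G k ((l + 1 : ℕ) : ZMod k) x ⊆ F G k l x := by
  intro w hw
  rw [bas_mem_T] at hw
  have e1 : ((l + 1 : ℕ) : ZMod k) - 1 = ((l : ℕ) : ZMod k) := by push_cast; ring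
  have e2 : ((l + 1 : ℕ) : ZMod k) + 1 = ((l + 2 : ℕ) : ZMod k) := by push_cast; ring
  rw [e1, e2] at hw
  rw [bas_mem_F]
  constructor
  · intro i hi h
    have h1 : (i : ZMod k) ∈ Ty G k x w := bas_mem_Ty.2 h
    rw [hw, mem_insert, mem_singleton] at h1
    rcases h1 with h1 | h1
    · have := (bas_cast_eq_iff (k := k) (by omega) (by omega)).1 h1
      omega
    · have := (bas_cast_eq_iff (k := k) (by omega) (by omega)).1 h1
      omega
  · have h1 : (l : ZMod k) ∈ Ty G k x w := by
      rw [hw]; exact mem_insert_self _ _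
    exact bas_mem_Ty.1 h1

theorem bas_mu_filter_add (S : Finset V) (p : V → Prop) :
    mu k (S.filter p) + mu k (S.filter (fun w => ¬ p w)) = mu k S := by
  unfold mu
  rw [← mul_add]
  congr 1
  exact_mod_cast Finset.card_filter_add_card_filter_not (s := S) p

theorem rho_sub (l : ℕ) (x : ZMod k → V) (y : V) :
    rho G k l x y - rho G k (l + 1) x y = mu k ((F G k l x).filter (fun z => G.Adj y z)) := by
  have h := bas_mu_filter_add (k := k) ((W G k l x).filter (fun z => G.Adj y z))
    (fun w => G.Adj (x (l : ZMod k)) w)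
  have e1 : ((W G k l x).filter (fun z => G.Adj y z)).filter (fun w => G.Adj (x (l : ZMod k)) w) =
      (F G k l x).filter (fun z => G.Adj y z) := by
    rw [F, filter_filter, filter_filter]
    exact filter_congr (fun w _ => and_comm)
  have e2 : ((W G k l x).filter (fun z => G.Adj y z)).filter
      (fun w => ¬ G.Adj (x (l : ZMod k)) w) = (W G k (l + 1) x).filter (fun z => G.Adj y z) := by
    rw [W_succ, filter_filter, filter_filter]
    exact filter_congr (fun w _ => and_comm)
  rw [e1, e2] at h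
  unfold rho
  linarith

theorem W_congr {l m : ℕ} (h : m ≤ l + 1) {x x' : ZMod k → V} (hx : x' ∈ cyl G k l x) :
    W G k m x' = W G k m x := by
  have h1 := (bas_mem_cyl.1 hx).2
  ext w
  rw [bas_mem_W, bas_mem_W]
  constructor
  · intro h2 i hi
    rw [← h1 i (by omega)]
    exact h2 i hi
  · intro h2 i hi
    rw [h1 i (by omega)]
    exact h2 i hi

theorem F_congr {l m : ℕ} (h : m ≤ l) {x x' : ZMod k → V} (hx : x' ∈ cyl G k l x) :
    F G k m x' = F G k m x := by
  rw [F, F, W_congr (by omega : m ≤ l + 1) hx, (bas_mem_cyl.1 hx).2 m h]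

theorem rho_congr {l m : ℕ} (h : m ≤ l + 1) {x x' : ZMod k → V} (hx : x' ∈ cyl G k l x) (y : V) :
    rho G k m x' y = rho G k m x y := by
  rw [rho, rho, W_congr h hx]

/-- in a triangle-free graph a type has no two cyclically consecutive elements -/
theorem Ty_indep (tf : ∀ a b c : V, G.Adj a b → G.Adj b c → ¬ G.Adj a c) {x : ZMod k → V}
    (hx : x ∈ Cyc G k) {w : V} {i : ZMod k} (hi : i ∈ Ty G k x w) : i + 1 ∉ Ty G k x w := by
  intro h
  rw [bas_mem_Ty] at hi h
  exact tf (x i) w (x (i + 1)) hi h.symm ((bas_mem_Cyc.1 hx i (i + 1)).2 (Or.inl rfl))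

/-- if `y` is adjacent to `x l` then its free degree does not change at step `l` -/
theorem rho_succ_of_adj (tf : ∀ a b c : V, G.Adj a b → G.Adj b c → ¬ G.Adj a c) {l : ℕ}
    {x : ZMod k → V} {y : V} (h : G.Adj (x (l : ZMod k)) y) :
    rho G k (l + 1) x y = rho G k l x y := by
  have h1 := rho_sub (G := G) l x y
  have h2 : (F G k l x).filter (fun z => G.Adj y z) = ∅ := by
    apply filter_eq_empty_iff.2
    intro z hz hyz
    exact tf _ _ _ h hyz (bas_mem_F.1 hz).2
  have h3 : mu k (∅ : Finset V) = 0 := by simp [mu]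
  rw [h2, h3] at h1
  linarith

/-- the candidate set has mass `rho l x (x l)` -/
theorem mu_F_eq_rho (l : ℕ) (x : ZMod k → V) :
    mu k (F G k l x) = rho G k l x (x (l : ZMod k)) := rfl

end

end Pool.Agent.ICycK
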