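import Pool.Agent.Lib.MP_131fce_co.K.Defs
import Pool.Agent.Lib.MP_131fce_co.K.Basic

/-! IC-3: conditional probabilities -/

set_option autoImplicit false

namespace Pool.Agent.ICycK

open Finset
open scoped Classical

noncomputable section

variable {V : Type} [Fintype V] {G : SimpleGraph V} {k : ℕ} [NeZero k]

theorem self_mem_cyl {x : ZMod k → V} (hx : x ∈ Cyc G k) (l : ℕ) : x ∈ cyl G k l x := by
  simp [cyl, hx]

theorem mem_cyl {l : ℕ} {x x' : ZMod k → V} :
    x' ∈ cyl G k l x ↔ x' ∈ Cyc G k ∧ ∀ i : ℕ, i ≤ l → x' (i : ZMod k) = x (i : ZMod k) := by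
  simp [cyl]

theorem cyl_symm {l : ℕ} {x x' : ZMod k → V} (hx : x ∈ Cyc G k) (h : x' ∈ cyl G k l x) :
    x ∈ cyl G k l x' := by
  rw [mem_cyl] at h ⊢
  exact ⟨hx, fun i hi => (h.2 i hi).symm⟩

theorem cyl_eq {l : ℕ} {x x' : ZMod k → V} (h : x' ∈ cyl G k l x) :
    cyl G k l x' = cyl G k l x := by
  rw [mem_cyl] at h
  ext z
  rw [mem_cyl, mem_cyl]
  constructor
  · rintro ⟨h1, h2⟩
    exact ⟨h1, fun i hi => (h2 i hi).trans (h.2 i hi)⟩
  · rintro ⟨h1, h2⟩
    exact ⟨h1, fun i hi => (h2 i hi).trans (h.2 i hi).symm⟩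

theorem pr_nonneg (l : ℕ) (x : ZMod k → V) (y : V) : 0 ≤ pr G k l x y := by
  unfold pr; positivity

theorem pr_le_one (l : ℕ) (x : ZMod k → V) (y : V) : pr G k l x y ≤ 1 := by
  unfold pr
  apply div_le_one_of_le₀
  · exact_mod_cast Finset.card_filter_le _ _
  · positivity

theorem pr_pos {x : ZMod k → V} (hx : x ∈ Cyc G k) (l : ℕ) :
    0 < pr G k l x (x ((l + 1 : ℕ) : ZMod k)) := by
  unfold pr
  have h1 : 0 < (cyl G k l x).card := Finset.card_pos.mpr ⟨x, self_mem_cyl hx l⟩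
  have h2 : 0 < ((cyl G k l x).filter
      (fun x' => x' ((l + 1 : ℕ) : ZMod k) = x ((l + 1 : ℕ) : ZMod k))).card :=
    Finset.card_pos.mpr ⟨x, Finset.mem_filter.mpr ⟨self_mem_cyl hx l, rfl⟩⟩
  have h1' : (0 : ℝ) < ((cyl G k l x).card : ℝ) := by exact_mod_cast h1
  have h2' : (0 : ℝ) < (((cyl G k l x).filter
      (fun x' => x' ((l + 1 : ℕ) : ZMod k) = x ((l + 1 : ℕ) : ZMod k))).card : ℝ) := by
    exact_mod_cast h2
  exact div_pos h2' h1'

theorem pr_eq_zero (hk : 5 ≤ k) {l : ℕ} (hl : l + 3 ≤ k) {x : ZMod k → V} {y : V}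
    (hy : y ∉ F G k l x) : pr G k l x y = 0 := by
  unfold pr
  have : (cyl G k l x).filter (fun x' => x' ((l + 1 : ℕ) : ZMod k) = y) = ∅ := by
    rw [Finset.filter_eq_empty_iff]
    intro x' hx' h
    apply hy
    have hc : x' ∈ Cyc G k := (mem_cyl.mp hx').1
    rw [← h, ← F_congr le_rfl hx']
    exact mem_F_succ hk hc hl
  rw [this]
  simp

theorem sum_pr {x : ZMod k → V} (hx : x ∈ Cyc G k) (l : ℕ) : ∑ y : V, pr G k l x y = 1 := by
  unfold pr
  rw [← Finset.sum_div]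
  have h : (cyl G k l x).card = ∑ y : V, ((cyl G k l x).filter
      (fun x' => x' ((l + 1 : ℕ) : ZMod k) = y)).card :=
    Finset.card_eq_sum_card_fiberwise (fun _ _ => Finset.mem_univ _)
  have h1 : 0 < (cyl G k l x).card := Finset.card_pos.mpr ⟨x, self_mem_cyl hx l⟩
  have h1' : ((cyl G k l x).card : ℝ) ≠ 0 := by exact_mod_cast h1.ne'
  rw [div_eq_one_iff_eq h1', ← Nat.cast_sum, ← h]

theorem sum_pr_F (hk : 5 ≤ k) {l : ℕ} (hl : l + 3 ≤ k) {x : ZMod k → V} (hx : x ∈ Cyc G k) :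
    ∑ y ∈ F G k l x, pr G k l x y = 1 := by
  rw [← sum_pr hx l]
  apply Finset.sum_subset (Finset.subset_univ _)
  intro y _ hy
  exact pr_eq_zero hk hl hy

theorem pr_congr {l : ℕ} {x x' : ZMod k → V} (h : x' ∈ cyl G k l x) (y : V) :
    pr G k l x' y = pr G k l x y := by
  unfold pr
  rw [cyl_eq h]

theorem ee_congr {l : ℕ} {x x' : ZMod k → V} (h : x' ∈ cyl G k l x) (y : V) :
    ee G k l x' y = ee G k l x y := by
  unfold ee
  exact Finset.sum_congr rfl (fun z _ => pr_congr h z)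

theorem cyl_mono {l m : ℕ} (h : l ≤ m) {x x' : ZMod k → V} (hx : x' ∈ cyl G k m x) :
    x' ∈ cyl G k l x := by
  rw [mem_cyl] at hx ⊢
  exact ⟨hx.1, fun i hi => hx.2 i (hi.trans h)⟩

theorem ee_nonneg (l : ℕ) (x : ZMod k → V) (y : V) : 0 ≤ ee G k l x y :=
  Finset.sum_nonneg (fun z _ => pr_nonneg l x z)

theorem ee_le_one {x : ZMod k → V} (hx : x ∈ Cyc G k) (l : ℕ) (y : V) :
    ee G k l x y ≤ 1 := by
  rw [← sum_pr hx l]
  exact Finset.sum_le_sum_of_subset_of_nonneg (Finset.subset_univ _)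
    (fun z _ _ => pr_nonneg l x z)

theorem pr_mul_eq (l : ℕ) (x : ZMod k → V) (g : V → ℝ) :
    ∑ y : V, pr G k l x y * g y =
      (1 / ((cyl G k l x).card : ℝ)) * ∑ x' ∈ cyl G k l x, g (x' ((l + 1 : ℕ) : ZMod k)) := by
  have h : ∑ x' ∈ cyl G k l x, g (x' ((l + 1 : ℕ) : ZMod k)) =
      ∑ y : V, ∑ x' ∈ (cyl G k l x).filter (fun x' => x' ((l + 1 : ℕ) : ZMod k) = y),
        g (x' ((l + 1 : ℕ) : ZMod k)) :=
    (Finset.sum_fiberwise (cyl G k l x) (fun x' => x' ((l + 1 : ℕ) : ZMod k)) _).symm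
  rw [h, Finset.mul_sum]
  apply Finset.sum_congr rfl
  intro y _
  have h2 : ∑ x' ∈ (cyl G k l x).filter (fun x' => x' ((l + 1 : ℕ) : ZMod k) = y),
        g (x' ((l + 1 : ℕ) : ZMod k)) =
      ∑ _x' ∈ (cyl G k l x).filter (fun x' => x' ((l + 1 : ℕ) : ZMod k) = y), g y := by
    apply Finset.sum_congr rfl
    intro x' hx'
    rw [(Finset.mem_filter.mp hx').2]
  rw [h2, Finset.sum_const, nsmul_eq_mul]
  unfold pr
  ring

/-- tower property -/
theorem tower (l : ℕ) (f : (ZMod k → V) → V → ℝ)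
    (hf : ∀ x ∈ Cyc G k, ∀ x' ∈ cyl G k l x, ∀ y, f x' y = f x y) :
    ∑ x ∈ Cyc G k, f x (x ((l + 1 : ℕ) : ZMod k)) =
      ∑ x ∈ Cyc G k, ∑ y : V, pr G k l x y * f x y := by
  have h1 : ∀ x ∈ Cyc G k, ∑ y : V, pr G k l x y * f x y =
      ∑ x' ∈ Cyc G k, if x' ∈ cyl G k l x then
        (1 / ((cyl G k l x').card : ℝ)) * f x' (x' ((l + 1 : ℕ) : ZMod k)) else 0 := by
    intro x hx
    rw [pr_mul_eq, ← Finset.sum_filter]
    have hfil : (Cyc G k).filter (fun x' => x' ∈ cyl G k l x) = cyl G k l x := by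
      ext z
      rw [Finset.mem_filter]
      exact ⟨fun h => h.2, fun h => ⟨(mem_cyl.mp h).1, h⟩⟩
    rw [hfil, Finset.mul_sum]
    apply Finset.sum_congr rfl
    intro x' hx'
    rw [cyl_eq hx', hf x hx x' hx']
  rw [Finset.sum_congr rfl h1, Finset.sum_comm]
  apply Finset.sum_congr rfl
  intro x' hx'
  rw [← Finset.sum_filter]
  have hfil : (Cyc G k).filter (fun x => x' ∈ cyl G k l x) = cyl G k l x' := by
    ext z
    rw [Finset.mem_filter]
    exact ⟨fun h => cyl_symm h.1 h.2, fun h => ⟨(mem_cyl.mp h).1, cyl_symm hx' h⟩⟩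
  rw [hfil, Finset.sum_const, nsmul_eq_mul]
  have hpos : 0 < (cyl G k l x').card := Finset.card_pos.mpr ⟨x', self_mem_cyl hx' l⟩
  have hne : ((cyl G k l x').card : ℝ) ≠ 0 := by exact_mod_cast hpos.ne'
  field_simp

theorem ee_eq_ite (l : ℕ) (x : ZMod k → V) (y : V) :
    ee G k l x y = ∑ z : V, pr G k l x z * (if G.Adj z y then (1 : ℝ) else 0) := by
  unfold ee nb
  rw [Finset.sum_filter]
  apply Finset.sum_congr rfl
  intro z _
  simp only [G.adj_comm y z]
  split_ifs <;> simp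

theorem one_sub_ee_eq_ite {x : ZMod k → V} (hx : x ∈ Cyc G k) (l : ℕ) (y : V) :
    1 - ee G k l x y = ∑ z : V, pr G k l x z * (if G.Adj z y then (0 : ℝ) else 1) := by
  have h0 := sum_pr hx l
  have h1 : ∑ z : V, pr G k l x z * (if G.Adj z y then (0 : ℝ) else 1) =
      ∑ z : V, pr G k l x z - ∑ z : V, pr G k l x z * (if G.Adj z y then (1 : ℝ) else 0) := by
    rw [← Finset.sum_sub_distrib]
    apply Finset.sum_congr rfl
    intro z _
    split_ifs <;> ring
  rw [h1, h0, ee_eq_ite]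

omit [NeZero k] in
theorem mu_filter_eq (S : Finset V) (p : V → Prop) [DecidablePred p] :
    mu k (S.filter p) = ∑ y ∈ S, kap V k * (if p y then (1 : ℝ) else 0) := by
  unfold mu
  rw [Finset.card_filter, Nat.cast_sum, Finset.mul_sum]
  apply Finset.sum_congr rfl
  intro y _
  split_ifs <;> simp

/-- `Jl` as a disagreement between `x (l+1)` and an independent copy `z` -/
theorem Jl_eq (l : ℕ) : Jl G k l = ∑ x ∈ Cyc G k, ∑ z : V, pr G k l x z *
    mu k ((W G k (l + 1) x).filter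
      (fun y => G.Adj (x ((l + 1 : ℕ) : ZMod k)) y ∧ ¬ G.Adj z y)) := by
  have ht := tower (G := G) l (fun x u => ∑ z : V, pr G k l x z *
    mu k ((W G k (l + 1) x).filter (fun y => G.Adj u y ∧ ¬ G.Adj z y)))
    (fun x _ x' hx' u => by
      apply Finset.sum_congr rfl
      intro z _
      rw [pr_congr hx', W_congr le_rfl hx'])
  rw [ht]
  unfold Jl
  apply Finset.sum_congr rfl
  intro x hx
  have h1 : ∀ y ∈ W G k (l + 1) x, kap V k * (ee G k l x y * (1 - ee G k l x y)) =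
      ∑ u : V, ∑ z : V, pr G k l x u * (pr G k l x z * (kap V k *
        (if G.Adj u y ∧ ¬ G.Adj z y then (1 : ℝ) else 0))) := by
    intro y _
    rw [one_sub_ee_eq_ite hx, ee_eq_ite, Finset.sum_mul_sum, Finset.mul_sum]
    apply Finset.sum_congr rfl
    intro u _
    rw [Finset.mul_sum]
    apply Finset.sum_congr rfl
    intro z _
    by_cases hu : G.Adj u y <;> by_cases hz : G.Adj z y <;> simp [hu, hz]
    ring
  rw [Finset.sum_congr rfl h1, Finset.sum_comm]
  apply Finset.sum_congr rfl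
  intro u _
  rw [Finset.sum_comm, Finset.mul_sum]
  apply Finset.sum_congr rfl
  intro z _
  rw [mu_filter_eq, Finset.mul_sum, Finset.mul_sum]

theorem Jl_eq' (l : ℕ) : Jl G k l = ∑ x ∈ Cyc G k, ∑ z : V, pr G k l x z *
    mu k ((W G k (l + 1) x).filter
      (fun y => ¬ G.Adj (x ((l + 1 : ℕ) : ZMod k)) y ∧ G.Adj z y)) := by
  have ht := tower (G := G) l (fun x u => ∑ z : V, pr G k l x z *
    mu k ((W G k (l + 1) x).filter (fun y => ¬ G.Adj u y ∧ G.Adj z y)))
    (fun x _ x' hx' u => by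
      apply Finset.sum_congr rfl
      intro z _
      rw [pr_congr hx', W_congr le_rfl hx'])
  rw [ht]
  unfold Jl
  apply Finset.sum_congr rfl
  intro x hx
  have h1 : ∀ y ∈ W G k (l + 1) x, kap V k * (ee G k l x y * (1 - ee G k l x y)) =
      ∑ u : V, ∑ z : V, pr G k l x u * (pr G k l x z * (kap V k *
        (if ¬ G.Adj u y ∧ G.Adj z y then (1 : ℝ) else 0))) := by
    intro y _
    rw [one_sub_ee_eq_ite hx, ee_eq_ite, mul_comm (∑ z : V, _) (∑ z : V, _),
      Finset.sum_mul_sum, Finset.mul_sum]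
    apply Finset.sum_congr rfl
    intro u _
    rw [Finset.mul_sum]
    apply Finset.sum_congr rfl
    intro z _
    by_cases hu : G.Adj u y <;> by_cases hz : G.Adj z y <;> simp [hu, hz]
    ring
  rw [Finset.sum_congr rfl h1, Finset.sum_comm]
  apply Finset.sum_congr rfl
  intro u _
  rw [Finset.sum_comm, Finset.mul_sum]
  apply Finset.sum_congr rfl
  intro z _
  rw [mu_filter_eq, Finset.mul_sum, Finset.mul_sum]

theorem Jl_nonneg (l : ℕ) : 0 ≤ Jl G k l := by
  unfold Jl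
  apply Finset.sum_nonneg
  intro x hx
  apply Finset.sum_nonneg
  intro y _
  have h1 := ee_nonneg (G := G) l x y
  have h2 := ee_le_one hx l y
  have h3 : 0 ≤ kap V k := kap_nonneg
  exact mul_nonneg h3 (mul_nonneg h1 (by linarith))

end

end Pool.Agent.ICycK
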