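import Pool.Agent.Lib.MP_131fce_co.K.Defs

/-! Real inequalities -/

set_option autoImplicit false

namespace Pool.Agent.ICycK

open Finset
open scoped Classical

theorem Phi_ge {t : ℝ} (ht : 0 ≤ t) : (1 - Real.sqrt t) ^ 2 ≤ Phi t := by
  unfold Phi
  rcases ht.eq_or_lt with h | h
  · rw [← h]; simp
  · have hs : 0 < Real.sqrt t := Real.sqrt_pos.mpr h
    have hss : Real.sqrt t * Real.sqrt t = t := Real.mul_self_sqrt ht
    have h1 : Real.log (1 / Real.sqrt t) ≤ 1 / Real.sqrt t - 1 :=
      Real.log_le_sub_one_of_pos (by positivity)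
    have h2 : Real.log (1 / Real.sqrt t) = -(Real.log t / 2) := by
      rw [one_div, Real.log_inv, Real.log_sqrt ht]
    rw [h2] at h1
    have h3 : t * (1 / Real.sqrt t) = Real.sqrt t := by
      field_simp
      nlinarith
    have h4 : t * (-(Real.log t / 2)) ≤ t * (1 / Real.sqrt t - 1) :=
      mul_le_mul_of_nonneg_left h1 ht
    have h5 : t * (1 / Real.sqrt t - 1) = Real.sqrt t - t := by
      rw [mul_sub, h3, mul_one]
    rw [h5] at h4
    nlinarith

theorem JJ_ge {t : ℝ} (ht : 0 < t) : (1 - Real.sqrt t) ^ 2 ≤ JJ t := by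
  unfold JJ
  have hs : 0 < Real.sqrt t := Real.sqrt_pos.mpr ht
  have hss : Real.sqrt t * Real.sqrt t = t := Real.mul_self_sqrt ht.le
  have h1 : Real.log (Real.sqrt t) ≤ Real.sqrt t - 1 := Real.log_le_sub_one_of_pos hs
  rw [Real.log_sqrt ht.le] at h1
  nlinarith

theorem JJ_nonneg {t : ℝ} (ht : 0 < t) : 0 ≤ JJ t := le_trans (sq_nonneg _) (JJ_ge ht)

theorem Phi_nonneg {t : ℝ} (ht : 0 ≤ t) : 0 ≤ Phi t := le_trans (sq_nonneg _) (Phi_ge ht)

/-- tangent lines of `Phi` -/
theorem Phi_tangent {t c : ℝ} (ht : 0 ≤ t) (hc : 0 < c) : t * Real.log c + 1 - c ≤ Phi t := by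
  unfold Phi
  rcases ht.eq_or_lt with h | h
  · rw [← h]; simp; exact hc.le
  · have h1 : Real.log (c / t) ≤ c / t - 1 := Real.log_le_sub_one_of_pos (by positivity)
    rw [Real.log_div hc.ne' h.ne'] at h1
    have h2 : t * (Real.log c - Real.log t) ≤ t * (c / t - 1) := mul_le_mul_of_nonneg_left h1 ht
    have h3 : t * (c / t - 1) = c - t := by field_simp
    rw [h3] at h2
    linarith

/-- low densities -/
theorem Phi_low {t : ℝ} (ht : 0 ≤ t) : 1 ≤ 6 / 5 * t + 13 / 4 * Phi t := by
  have h1 := Phi_tangent ht (show (0 : ℝ) < 9 / 13 by norm_num)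
  have h2 : -(24 / 65) ≤ Real.log (9 / 13) := by
    rw [Real.le_log_iff_exp_le (by norm_num), Real.exp_neg, inv_le_comm₀ (Real.exp_pos _) (by norm_num)]
    have h3 := Real.sum_le_exp_of_nonneg (show (0 : ℝ) ≤ 24 / 65 by norm_num) 4
    refine le_trans ?_ h3
    simp only [Finset.sum_range_succ, Finset.sum_range_zero, Nat.factorial]
    norm_num
  nlinarith

/-- high densities -/
theorem Phi_high {t : ℝ} (ht : 0 ≤ t) : t - 6 / 5 ≤ 3 * Phi t := by
  have h1 := Phi_tangent ht (show (0 : ℝ) < 7 / 5 by norm_num)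
  have h2 : 1 / 3 ≤ Real.log (7 / 5) := by
    rw [Real.le_log_iff_exp_le (by norm_num)]
    have h3 : Real.exp (1 / 3) ^ 3 = Real.exp 1 := by
      rw [← Real.exp_nat_mul]; norm_num
    have h4 : Real.exp 1 < 2.7182818286 := Real.exp_one_lt_d9
    by_contra hcon
    push Not at hcon
    have h5 : (7 / 5 : ℝ) ^ 3 < Real.exp (1 / 3) ^ 3 :=
      pow_lt_pow_left₀ hcon (by norm_num) (by norm_num)
    rw [h3] at h5
    norm_num at h5 h4
    linarith
  nlinarith

/-- large masses -/
theorem JJ_mass {t : ℝ} (ht : 0 < t) : t - 6 / 5 ≤ 13 / 4 * JJ t := by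
  have h1 := Phi_low (show 0 ≤ 1 / t by positivity)
  have h2 : t * Phi (1 / t) = JJ t := by
    unfold Phi JJ
    rw [one_div, Real.log_inv]
    field_simp
    ring
  have h3 : t * 1 ≤ t * (6 / 5 * (1 / t) + 13 / 4 * Phi (1 / t)) :=
    mul_le_mul_of_nonneg_left h1 ht.le
  have h4 : t * (6 / 5 * (1 / t) + 13 / 4 * Phi (1 / t)) = 6 / 5 + 13 / 4 * (t * Phi (1 / t)) := by
    field_simp
  rw [h4, h2] at h3
  linarith

/-- the function behind `JJ_rat` -/
noncomputable def ratAux (u : ℝ) : ℝ := u * (6 + u) / (6 + 4 * u) - Real.log (1 + u)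

theorem ratAux_deriv {u : ℝ} (hu : -1 < u) :
    HasDerivAt ratAux (4 * u ^ 3 / ((6 + 4 * u) ^ 2 * (1 + u))) u := by
  have h1 : (6 + 4 * u) ≠ 0 := by
    have : 0 < 6 + 4 * u := by linarith
    exact this.ne'
  have h2 : (1 + u) ≠ 0 := by
    have : 0 < 1 + u := by linarith
    exact this.ne'
  have d1 : HasDerivAt (fun u : ℝ => u * (6 + u)) (1 * (6 + u) + u * 1) u :=
    (hasDerivAt_id u).mul ((hasDerivAt_id u).const_add 6)
  have d2 : HasDerivAt (fun u : ℝ => 6 + 4 * u) (4 * 1) u :=
    ((hasDerivAt_id u).const_mul 4).const_add 6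
  have d3 : HasDerivAt (fun u : ℝ => Real.log (1 + u)) (1 / (1 + u)) u :=
    ((hasDerivAt_id u).const_add 1).log h2
  have d4 := (d1.div d2 h1).sub d3
  refine d4.congr_deriv ?_
  have h3 : (6 + 4 * u) ^ 2 ≠ 0 := pow_ne_zero 2 h1
  rw [div_sub_div _ _ h3 h2, div_eq_div_iff (mul_ne_zero h3 h2) (mul_ne_zero h3 h2)]
  ring

theorem ratAux_nonneg {u : ℝ} (hu : -1 < u) : 0 ≤ ratAux u := by
  have h0 : ratAux 0 = 0 := by simp [ratAux]
  rcases le_total 0 u with h | h
  · have hm : MonotoneOn ratAux (Set.Icc 0 u) := by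
      apply monotoneOn_of_deriv_nonneg (convex_Icc 0 u)
      · intro v hv
        exact (ratAux_deriv (by linarith [hv.1])).continuousAt.continuousWithinAt
      · intro v hv
        rw [interior_Icc] at hv
        exact (ratAux_deriv (by linarith [hv.1])).differentiableAt.differentiableWithinAt
      · intro v hv
        rw [interior_Icc] at hv
        rw [(ratAux_deriv (by linarith [hv.1])).deriv]
        have : 0 < v := hv.1
        positivity
    have := hm (Set.left_mem_Icc.2 h) (Set.right_mem_Icc.2 h) h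
    rwa [h0] at this
  · have hm : AntitoneOn ratAux (Set.Icc u 0) := by
      apply antitoneOn_of_deriv_nonpos (convex_Icc u 0)
      · intro v hv
        exact (ratAux_deriv (by linarith [hv.1])).continuousAt.continuousWithinAt
      · intro v hv
        rw [interior_Icc] at hv
        exact (ratAux_deriv (by linarith [hv.1])).differentiableAt.differentiableWithinAt
      · intro v hv
        rw [interior_Icc] at hv
        rw [(ratAux_deriv (by linarith [hv.1])).deriv]
        have h1 : 0 < 1 + v := by linarith [hv.1]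
        have h2 : v ^ 3 ≤ 0 := by
          have : v < 0 := hv.2
          nlinarith [sq_nonneg v]
        apply div_nonpos_of_nonpos_of_nonneg
        · linarith
        · positivity
    have := hm (Set.left_mem_Icc.2 h) (Set.right_mem_Icc.2 h) h
    rwa [h0] at this

theorem JJ_rat {t : ℝ} (ht : 0 < t) : 3 * (t - 1) ^ 2 / (2 + 4 * t) ≤ JJ t := by
  have h1 := ratAux_nonneg (show -1 < t - 1 by linarith)
  unfold ratAux at h1
  unfold JJ
  have h2 : 1 + (t - 1) = t := by ring
  rw [h2] at h1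
  have h3 : (t - 1) * (6 + (t - 1)) / (6 + 4 * (t - 1)) = (t - 1) - 3 * (t - 1) ^ 2 / (2 + 4 * t) := by
    have h4 : (2 + 4 * t) ≠ 0 := by
      have : 0 < 2 + 4 * t := by linarith
      exact this.ne'
    have h5 : 6 + 4 * (t - 1) = 2 + 4 * t := by ring
    rw [h5]
    field_simp
    ring
  rw [h3] at h1
  linarith

theorem lam_le {d : ℝ} (hd : 0 < d) : Real.log (max 1 (d / 8)) ≤ 1 / 7 * JJ (d / 2) := by
  rcases le_total (d / 8) 1 with h | h
  · rw [max_eq_left h, Real.log_one]
    have := JJ_nonneg (show 0 < d / 2 by linarith)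
    linarith
  · rw [max_eq_right h]
    unfold JJ
    have e1 : Real.log (d / 8) = Real.log (d / 2) - 2 * Real.log 2 := by
      have : d / 8 = (d / 2) / (2 ^ 2) := by ring
      rw [this, Real.log_div (by positivity) (by norm_num), Real.log_pow]
      norm_num
    have e2 : Real.log (d / 2) = Real.log (d / 16) + 3 * Real.log 2 := by
      have : d / 2 = (d / 16) * (2 ^ 3) := by ring
      rw [this, Real.log_mul (by positivity) (by norm_num), Real.log_pow]
      norm_num
    have h1 : Real.log (d / 16) ≤ d / 16 - 1 := Real.log_le_sub_one_of_pos (by positivity)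
    have h2 : Real.log 2 < 0.6931471808 := Real.log_two_lt_d9
    norm_num at h2
    linarith

theorem JJ_four {t : ℝ} (h : 4 < t) : 7 / 5 ≤ JJ t := by
  unfold JJ
  have e2 : Real.log t = Real.log (t / 4) + 2 * Real.log 2 := by
    have : t = (t / 4) * (2 ^ 2) := by ring
    conv_lhs => rw [this]
    rw [Real.log_mul (by positivity) (by norm_num), Real.log_pow]
    norm_num
  have h1 : Real.log (t / 4) ≤ t / 4 - 1 := Real.log_le_sub_one_of_pos (by linarith)
  have h2 : Real.log 2 < 0.6931471808 := Real.log_two_lt_d9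
  norm_num at h2
  linarith

theorem kf_nonneg {r : ℝ} (hr : 0 ≤ r) : 0 ≤ kf r := by
  unfold kf
  exact le_min (by norm_num) (by positivity)

theorem kf_le_cap (r : ℝ) : kf r ≤ 509 / 125 := min_le_left _ _

theorem kf_le {r : ℝ} (hr : 0 < r) : kf r ≤ 8 * JJ r := by
  refine le_trans (min_le_right _ _) ?_
  have h1 := JJ_rat hr
  have h2 : 24 * (r - 1) ^ 2 / (2 + 4 * r) = 8 * (3 * (r - 1) ^ 2 / (2 + 4 * r)) := by ring
  rw [h2]
  linarith

theorem kernel_absorb {a : ℝ} (ha : 0 < a) :
    -Real.log (min 1 (Real.exp 1 * a)) + Real.log a ≤ a - 1 := by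
  rcases le_total 1 (Real.exp 1 * a) with h | h
  · rw [min_eq_left h, Real.log_one]
    linarith [Real.log_le_sub_one_of_pos ha]
  · rw [min_eq_right h, Real.log_mul (Real.exp_pos 1).ne' ha.ne', Real.log_exp]
    linarith

theorem jensen_Phi {ι : Type} (S : Finset ι) (p : ι → ℝ) {κ : ℝ} (hκ : 0 < κ)
    (hp : ∀ y ∈ S, 0 ≤ p y) (hS : ∑ y ∈ S, p y = 1) :
    JJ (κ * (S.card : ℝ)) ≤ ∑ y ∈ S, κ * Phi (p y / κ) := by
  have hne : S.Nonempty := by
    by_contra h
    rw [Finset.not_nonempty_iff_eq_empty] at h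
    rw [h] at hS
    simp at hS
  have hc : (0 : ℝ) < S.card := by exact_mod_cast hne.card_pos
  set c : ℝ := (S.card : ℝ) with hcdef
  have key : ∀ y ∈ S, p y - 1 / c - p y * Real.log (κ * c) - p y + κ ≤ κ * Phi (p y / κ) := by
    intro y hy
    unfold Phi
    have e1 : κ * (p y / κ * Real.log (p y / κ) - p y / κ + 1) =
        p y * Real.log (p y / κ) - p y + κ := by
      field_simp
    rw [e1]
    rcases (hp y hy).eq_or_lt with h0 | hpos
    · rw [← h0]
      simp
      positivity
    · have h1 : Real.log (p y / κ) + Real.log (κ * c) = Real.log (p y * c) := by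
        rw [← Real.log_mul (by positivity) (by positivity)]
        congr 1
        field_simp
      have h2 : Real.log (1 / (p y * c)) ≤ 1 / (p y * c) - 1 :=
        Real.log_le_sub_one_of_pos (by positivity)
      rw [one_div, Real.log_inv] at h2
      have h3 : p y * (-Real.log (p y * c)) ≤ p y * ((p y * c)⁻¹ - 1) :=
        mul_le_mul_of_nonneg_left h2 hpos.le
      have h4 : p y * ((p y * c)⁻¹ - 1) = 1 / c - p y := by
        field_simp
      rw [h4, ← h1] at h3
      nlinarith
  have hsum := Finset.sum_le_sum key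
  refine le_trans (le_of_eq ?_) hsum
  have e : ∀ y, p y - 1 / c - p y * Real.log (κ * c) - p y + κ =
      p y * (-Real.log (κ * c)) + (κ - 1 / c) := by
    intro y; ring
  rw [Finset.sum_congr rfl (fun y _ => e y), Finset.sum_add_distrib, ← Finset.sum_mul, hS,
    Finset.sum_const, nsmul_eq_mul, ← hcdef]
  unfold JJ
  field_simp
  ring

end Pool.Agent.ICycK
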