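import Pool.Agent.Lib.MP_131fce_co.K.Basic
import Pool.Agent.Lib.MP_131fce_co.K.Cond
import Pool.Agent.Lib.MP_131fce_co.K.RealIneq

/-! # IC-5: deficits -/

set_option autoImplicit false

namespace Pool.Agent.ICycK

open Finset
open scoped Classical

variable {V : Type} [Fintype V] {G : SimpleGraph V} {k : ℕ} [NeZero k]

theorem kap_pos_of_fun (x : ZMod k → V) : 0 < kap V k := by
  haveI : Nonempty V := ⟨x 0⟩
  exact kap_pos

theorem term_nonneg (l : ℕ) (x : ZMod k → V) (y : V) :
    0 ≤ kap V k * Phi (pr G k l x y / kap V k) := by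
  have h0 : 0 ≤ kap V k := kap_nonneg
  refine mul_nonneg h0 (le_trans (sq_nonneg _) (Phi_ge (div_nonneg (pr_nonneg l x y) h0)))

theorem cc_nonneg (l : ℕ) : 0 ≤ cc G k l := by
  unfold cc
  exact sum_nonneg fun x _ => sum_nonneg fun y _ => term_nonneg l x y

/-- low densities: the weight of a vertex against its probability -/
theorem kap_le (l : ℕ) (x : ZMod k → V) (y : V) :
    kap V k ≤ 6 / 5 * pr G k l x y + 13 / 4 * (kap V k * Phi (pr G k l x y / kap V k)) := by
  have hκ := kap_pos_of_fun (k := k) x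
  have h1 := Phi_low (div_nonneg (pr_nonneg (G := G) l x y) hκ.le)
  have h2 := mul_le_mul_of_nonneg_left h1 hκ.le
  have h3 : kap V k * (6 / 5 * (pr G k l x y / kap V k) + 13 / 4 * Phi (pr G k l x y / kap V k)) =
      6 / 5 * pr G k l x y + 13 / 4 * (kap V k * Phi (pr G k l x y / kap V k)) := by
    field_simp
  rw [h3, mul_one] at h2
  exact h2

/-- high densities: the excess of the probability -/
theorem pr_le (l : ℕ) (x : ZMod k → V) (y : V) :
    pr G k l x y - 6 / 5 * kap V k ≤ 3 * (kap V k * Phi (pr G k l x y / kap V k)) := by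
  have hκ := kap_pos_of_fun (k := k) x
  have h1 := Phi_high (div_nonneg (pr_nonneg (G := G) l x y) hκ.le)
  have h2 := mul_le_mul_of_nonneg_left h1 hκ.le
  have h3 : kap V k * (pr G k l x y / kap V k - 6 / 5) = pr G k l x y - 6 / 5 * kap V k := by
    field_simp
  rw [h3] at h2
  linarith

theorem pr_max_le (l : ℕ) (x : ZMod k → V) (y : V) :
    max 0 (pr G k l x y - 6 / 5 * kap V k) ≤
      3 * (kap V k * Phi (pr G k l x y / kap V k)) := by
  apply max_le
  · have := term_nonneg (G := G) l x y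
    linarith
  · exact pr_le l x y

/-- fraction of the probability of `y` that is in excess of `6 / 5` times its weight -/
noncomputable def th (G : SimpleGraph V) (k : ℕ) [NeZero k] (l : ℕ) (x : ZMod k → V) (y : V) : ℝ :=
  max 0 (1 - 6 / 5 * kap V k / pr G k l x y)

theorem th_nonneg (l : ℕ) (x : ZMod k → V) (y : V) : 0 ≤ th G k l x y := le_max_left _ _

theorem th_le_one (l : ℕ) (x : ZMod k → V) (y : V) : th G k l x y ≤ 1 := by
  unfold th
  apply max_le zero_le_one
  have h1 : 0 ≤ 6 / 5 * kap V k / pr G k l x y :=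
    div_nonneg (mul_nonneg (by norm_num) kap_nonneg) (pr_nonneg l x y)
  linarith

theorem th_congr {l : ℕ} {x x' : ZMod k → V} (h : x' ∈ cyl G k l x) (y : V) :
    th G k l x' y = th G k l x y := by
  unfold th
  rw [pr_congr h]

theorem pr_mul_th (l : ℕ) (x : ZMod k → V) (y : V) :
    pr G k l x y * th G k l x y = max 0 (pr G k l x y - 6 / 5 * kap V k) := by
  have h0 : 0 ≤ kap V k := kap_nonneg
  rcases (pr_nonneg (G := G) l x y).eq_or_lt with h | h
  · rw [← h, zero_mul, max_eq_left (by linarith)]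
  · unfold th
    rw [mul_max_of_nonneg _ _ h.le, mul_zero]
    congr 1
    field_simp

theorem pr_mul_one_sub_th (l : ℕ) (x : ZMod k → V) (y : V) :
    pr G k l x y * (1 - th G k l x y) ≤ 6 / 5 * kap V k := by
  have h1 := pr_mul_th (G := G) l x y
  have h2 : pr G k l x y - 6 / 5 * kap V k ≤ max 0 (pr G k l x y - 6 / 5 * kap V k) :=
    le_max_right _ _
  linarith

theorem sum_th (hk : 5 ≤ k) {l : ℕ} (hl : l + 3 ≤ k) :
    ∑ x ∈ Cyc G k, th G k l x (x ((l + 1 : ℕ) : ZMod k)) ≤ 3 * cc G k l := by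
  rw [tower (G := G) (k := k) l (fun x y => th G k l x y)
    (fun x _ x' hx' y => th_congr hx' y)]
  unfold cc
  rw [mul_sum]
  refine sum_le_sum fun x _ => ?_
  have h1 : ∑ y : V, pr G k l x y * th G k l x y =
      ∑ y ∈ F G k l x, pr G k l x y * th G k l x y := by
    symm
    apply sum_subset (subset_univ _)
    intro y _ hy
    rw [pr_eq_zero hk hl hy, zero_mul]
  rw [h1, mul_sum]
  refine sum_le_sum fun y _ => ?_
  rw [pr_mul_th]
  exact pr_max_le l x y

theorem mu_F_pos (hk : 5 ≤ k) {l : ℕ} (hl : l + 3 ≤ k) {x : ZMod k → V} (hx : x ∈ Cyc G k) :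
    0 < mu k (F G k l x) := by
  have hκ := kap_pos_of_fun (k := k) x
  unfold mu
  have h1 : 0 < (F G k l x).card := card_pos.2 ⟨_, mem_F_succ hk hx hl⟩
  positivity

theorem cc_ge_JJ_aux (hk : 5 ≤ k) {l : ℕ} (hl : l + 3 ≤ k) {x : ZMod k → V}
    (hx : x ∈ Cyc G k) :
    JJ (mu k (F G k l x)) ≤ ∑ y ∈ F G k l x, kap V k * Phi (pr G k l x y / kap V k) := by
  have hκ := kap_pos_of_fun (k := k) x
  exact jensen_Phi (F G k l x) (fun y => pr G k l x y) hκ (fun y _ => pr_nonneg l x y)
    (sum_pr_F hk hl hx)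

theorem cc_ge_JJ (hk : 5 ≤ k) {l : ℕ} (hl : l + 3 ≤ k) :
    ∑ x ∈ Cyc G k, JJ (mu k (F G k l x)) ≤ cc G k l := by
  unfold cc
  exact sum_le_sum fun x hx => cc_ge_JJ_aux hk hl hx

/-- excess of the mass of the candidate set -/
theorem mass_le (hk : 5 ≤ k) {l : ℕ} (hl : l + 3 ≤ k) :
    ∑ x ∈ Cyc G k, max 0 (mu k (F G k l x) - 6 / 5) ≤ 13 / 4 * cc G k l := by
  refine le_trans ?_ (mul_le_mul_of_nonneg_left (cc_ge_JJ hk hl) (by norm_num))
  rw [mul_sum]
  refine sum_le_sum fun x hx => ?_
  have hpos := mu_F_pos hk hl hx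
  apply max_le
  · exact mul_nonneg (by norm_num) (JJ_nonneg hpos)
  · exact JJ_mass hpos

/-- cost of the mass of the candidate set -/
theorem kf_mass (hk : 5 ≤ k) {l : ℕ} (hl : l + 3 ≤ k) :
    ∑ x ∈ Cyc G k, kf (mu k (F G k l x)) ≤ 8 * cc G k l := by
  refine le_trans ?_ (mul_le_mul_of_nonneg_left (cc_ge_JJ hk hl) (by norm_num))
  rw [mul_sum]
  refine sum_le_sum fun x hx => ?_
  exact kf_le (mu_F_pos hk hl hx)

theorem cc_eq (hk : 5 ≤ k) {l : ℕ} (hl : l + 3 ≤ k) :
    cc G k l = Fm G k l - NN G k - Hn G k l := by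
  have htow := tower (G := G) (k := k) l
    (fun x y => Real.log (pr G k l x y / kap V k))
    (fun x _ x' hx' y => by
      show Real.log (pr G k l x' y / kap V k) = Real.log (pr G k l x y / kap V k)
      rw [pr_congr hx' y])
  have h1 : Hn G k l = -∑ x ∈ Cyc G k, ∑ y : V,
      pr G k l x y * Real.log (pr G k l x y / kap V k) := by
    rw [← htow]
    unfold Hn
    rw [sum_neg_distrib]
  have h2 : ∀ x ∈ Cyc G k, ∑ y ∈ F G k l x, kap V k * Phi (pr G k l x y / kap V k) =
      ∑ y : V, pr G k l x y * Real.log (pr G k l x y / kap V k) - 1 + mu k (F G k l x) := by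
    intro x hx
    have hκ := kap_pos_of_fun (k := k) x
    have h3 : ∑ y : V, pr G k l x y * Real.log (pr G k l x y / kap V k) =
        ∑ y ∈ F G k l x, pr G k l x y * Real.log (pr G k l x y / kap V k) := by
      symm
      apply sum_subset (subset_univ _)
      intro y _ hy
      rw [pr_eq_zero hk hl hy, zero_mul]
    rw [h3, ← sum_pr_F hk hl hx, mu_eq_sum, ← sum_sub_distrib, ← sum_add_distrib]
    refine sum_congr rfl fun y _ => ?_
    unfold Phi
    have h4 : kap V k * (pr G k l x y / kap V k) = pr G k l x y := by field_simp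
    calc kap V k * (pr G k l x y / kap V k * Real.log (pr G k l x y / kap V k) -
          pr G k l x y / kap V k + 1)
        = (kap V k * (pr G k l x y / kap V k)) * Real.log (pr G k l x y / kap V k) -
          kap V k * (pr G k l x y / kap V k) + kap V k := by ring
      _ = _ := by rw [h4]
  have h5 : cc G k l = ∑ x ∈ Cyc G k,
      (∑ y : V, pr G k l x y * Real.log (pr G k l x y / kap V k) - 1 + mu k (F G k l x)) := by
    unfold cc
    exact sum_congr rfl h2
  rw [h5, h1, sum_add_distrib, sum_sub_distrib]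
  unfold Fm NN
  simp only [sum_const, nsmul_eq_mul, mul_one]
  ring

end Pool.Agent.ICycK
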