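import Pool.Agent.Lib.MP_131fce_co.K.Defs

/-! The potential function -/

set_option autoImplicit false

namespace Pool.Agent.ICycK

theorem Vf_nonneg (t : ℝ) : 0 ≤ Vf t := by
  unfold Vf
  split_ifs with h
  · exact le_min (by norm_num) (by linarith)
  · positivity

theorem Vf_le (t : ℝ) : Vf t ≤ 384 / 125 := by
  unfold Vf
  split_ifs with h
  · exact min_le_left _ _
  · have h1 : max (11 / 5 - 6 / 5 * t) 0 ≤ 6 / 5 := max_le (by linarith) (by norm_num)
    have h2 : 0 ≤ max (11 / 5 - 6 / 5 * t) 0 := le_max_right _ _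
    nlinarith

/-- the potential function as a function of the truncated linear parameter -/
theorem Vf_lo {t : ℝ} (h : t ≤ 5 / 6) : Vf t = min (384 / 125) (96 / 25 - 72 / 25 * t) := by
  unfold Vf
  rw [if_pos h]

theorem Vf_hi {t : ℝ} (h : 5 / 6 ≤ t) : Vf t = (max (11 / 5 - 6 / 5 * t) 0) ^ 2 := by
  unfold Vf
  rcases h.eq_or_lt with h1 | h1
  · rw [← h1, if_pos le_rfl, min_eq_right (by norm_num), max_eq_left (by norm_num)]
    norm_num
  · rw [if_neg (not_le.2 h1)]

theorem Vf_anti {s t : ℝ} (h : s ≤ t) : Vf t ≤ Vf s := by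
  rcases le_total t (5 / 6) with ht | ht
  · rw [Vf_lo ht, Vf_lo (h.trans ht)]
    exact min_le_min le_rfl (by linarith)
  · have h1 : ∀ a b : ℝ, 5 / 6 ≤ a → a ≤ b → Vf b ≤ Vf a := by
      intro a b ha hab
      rw [Vf_hi ha, Vf_hi (ha.trans hab)]
      apply pow_le_pow_left₀ (le_max_right _ _)
      exact max_le_max (by linarith) le_rfl
    rcases le_total s (5 / 6) with hs | hs
    · refine (h1 (5 / 6) t le_rfl ht).trans ?_
      rw [Vf_lo le_rfl, Vf_lo hs]
      exact min_le_min le_rfl (by linarith)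
    · exact h1 s t hs h

theorem Vf_lip {s t : ℝ} (h : s ≤ t) : Vf s - Vf t ≤ 72 / 25 * (t - s) := by
  have h1 : ∀ a b : ℝ, a ≤ b → b ≤ 5 / 6 → Vf a - Vf b ≤ 72 / 25 * (b - a) := by
    intro a b hab hb
    rw [Vf_lo hb, Vf_lo (hab.trans hb)]
    have h2 : min (384 / 125) (96 / 25 - 72 / 25 * a) ≤
        min (384 / 125) (96 / 25 - 72 / 25 * b) + 72 / 25 * (b - a) := by
      rcases le_total (384 / 125) (96 / 25 - 72 / 25 * b) with h3 | h3
      · rw [min_eq_left h3]
        exact (min_le_left _ _).trans (by linarith)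
      · rw [min_eq_right h3]
        exact (min_le_right _ _).trans (by linarith)
    linarith
  have h2 : ∀ a b : ℝ, 5 / 6 ≤ a → a ≤ b → Vf a - Vf b ≤ 72 / 25 * (b - a) := by
    intro a b ha hab
    rw [Vf_hi ha, Vf_hi (ha.trans hab)]
    have e1 : max (11 / 5 - 6 / 5 * a) 0 ≤ 6 / 5 := max_le (by linarith) (by norm_num)
    have e2 : 0 ≤ max (11 / 5 - 6 / 5 * b) 0 := le_max_right _ _
    have e3 : max (11 / 5 - 6 / 5 * b) 0 ≤ max (11 / 5 - 6 / 5 * a) 0 :=
      max_le_max (by linarith) le_rfl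
    have e4 : max (11 / 5 - 6 / 5 * a) 0 ≤ max (11 / 5 - 6 / 5 * b) 0 + 6 / 5 * (b - a) := by
      apply max_le
      · linarith [le_max_left (11 / 5 - 6 / 5 * b) (0 : ℝ)]
      · linarith
    nlinarith
  rcases le_total t (5 / 6) with ht | ht
  · exact h1 s t h ht
  · rcases le_total s (5 / 6) with hs | hs
    · have a1 := h1 s (5 / 6) hs le_rfl
      have a2 := h2 (5 / 6) t le_rfl ht
      linarith
    · exact h2 s t hs h

/-- the core inequality -/
theorem pot_core {r e : ℝ} (hr : 0 ≤ r) (he : 0 ≤ e) (he1 : e ≤ 1) :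
    e * (1 - e) + Vf (r + 5 / 6 * e) ≤ e * kf r + (1 - e) * Vf r := by
  have hk : (509 / 125 ≤ 24 * (r - 1) ^ 2 / (2 + 4 * r) → kf r = 509 / 125) := by
    intro h
    unfold kf
    exact min_eq_left h
  have hden : 0 < 2 + 4 * r := by linarith
  rcases le_total (5 / 6) r with h1 | h1
  · -- the quadratic part
    rw [Vf_hi h1, Vf_hi (by linarith : (5 : ℝ) / 6 ≤ r + 5 / 6 * e)]
    have hq : 11 / 5 - 6 / 5 * (r + 5 / 6 * e) = 11 / 5 - 6 / 5 * r - e := by ring
    rw [hq]
    rcases le_total 0 (11 / 5 - 6 / 5 * r) with h2 | h2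
    · have hkf : (11 / 5 - 6 / 5 * r - 1) ^ 2 ≤ kf r := by
        unfold kf
        apply le_min
        · nlinarith
        · rw [le_div_iff₀ hden]
          nlinarith [sq_nonneg (r - 1)]
      rw [max_eq_left h2]
      set q := 11 / 5 - 6 / 5 * r with hqd
      rcases le_total 0 (q - e) with h3 | h3
      · rw [max_eq_left h3]
        nlinarith [mul_le_mul_of_nonneg_left hkf he]
      · rw [max_eq_right h3]
        nlinarith [mul_le_mul_of_nonneg_left hkf he, sq_nonneg (q - e)]
    · rw [max_eq_right h2, max_eq_right (by linarith : 11 / 5 - 6 / 5 * r - e ≤ 0)]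
      have hkf : 1 ≤ kf r := by
        unfold kf
        apply le_min
        · norm_num
        · rw [le_div_iff₀ hden]
          nlinarith
      nlinarith [mul_le_mul_of_nonneg_left hkf he]
  · rcases le_total r (4 / 15) with h2 | h2
    · -- the flat part
      have hkf : 509 / 125 ≤ kf r := by
        unfold kf
        apply le_min le_rfl
        rw [le_div_iff₀ hden]
        nlinarith
      have hV : Vf r = 384 / 125 := by
        rw [Vf_lo h1, min_eq_left (by linarith)]
      have hV' := Vf_le (r + 5 / 6 * e)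
      rw [hV]
      nlinarith [mul_le_mul_of_nonneg_left hkf he]
    · -- the linear part
      have hV : Vf r = 96 / 25 - 72 / 25 * r := by
        rw [Vf_lo h1, min_eq_right (by linarith)]
      have hkf : 61 / 25 - 72 / 25 * r ≤ kf r := by
        unfold kf
        apply le_min
        · linarith
        · rw [le_div_iff₀ hden]
          nlinarith [sq_nonneg (r - 65 / 88)]
      rcases le_total (r + 5 / 6 * e) (5 / 6) with h3 | h3
      · have hV' : Vf (r + 5 / 6 * e) ≤ 96 / 25 - 72 / 25 * (r + 5 / 6 * e) := by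
          rw [Vf_lo h3]
          exact min_le_right _ _
        rw [hV]
        nlinarith [mul_le_mul_of_nonneg_left hkf he]
      · rw [Vf_hi h3, hV, max_eq_left (by linarith)]
        have hd : 0 ≤ 1 - 6 / 5 * r := by linarith
        have he2 : 1 - 6 / 5 * r ≤ e := by linarith
        nlinarith [mul_le_mul_of_nonneg_left hkf he, mul_nonneg hd (sub_nonneg.2 he2),
          mul_nonneg he (sub_nonneg.2 he2), mul_nonneg hd he,
          mul_nonneg (mul_nonneg hd hd) (sub_nonneg.2 he1)]

theorem pot_pointwise {r r' e : ℝ} (hr' : 0 ≤ r') (hrr : r' ≤ r) (he : 0 ≤ e) (he1 : e ≤ 1) :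
    e * (1 - e) ≤ e * kf r' + ((1 - e) * Vf r' - Vf r) +
      12 / 5 * max 0 (e - 6 / 5 * (r - r')) := by
  have h1 := pot_core hr' he he1
  have h0 : 0 ≤ max 0 (e - 6 / 5 * (r - r')) := le_max_left _ _
  have h0' : e - 6 / 5 * (r - r') ≤ max 0 (e - 6 / 5 * (r - r')) := le_max_right _ _
  rcases le_total (r' + 5 / 6 * e) r with h2 | h2
  · have h3 := Vf_anti h2
    linarith
  · have h3 := Vf_lip h2
    linarith

end Pool.Agent.ICycK
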