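import Pool.Agent.Lib.MP_131fce_co.K.Defs

/-!
# IC-9a: gaps of a type

Rotation average of `Fm 2 - Fm (k-3)`: for a vertex of type `A` it is at most
`2` if `A` is a far pair and at most `6 * rr A` in any case.
-/

set_option autoImplicit false

namespace Pool.Agent.ICycK

open Finset
open scoped Classical

variable {V : Type} [Fintype V] {G : SimpleGraph V} {k : ℕ} [NeZero k]

/-- membership in a rotated candidate set -/
theorem mem_F_rot (l : ℕ) (x : ZMod k → V) (w : V) (a : ZMod k) :
    w ∈ F G k l (fun i => x (i + a)) ↔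
      ((∀ i : ℕ, i < l → ((i : ZMod k) + a) ∉ Ty G k x w) ∧ ((l : ZMod k) + a) ∈ Ty G k x w) := by
  simp only [F, W, Ty, mem_filter, mem_univ, true_and]

/-- rotation invariance of the set of labelled cycles -/
theorem gaps_sum_rot (a : ZMod k) (f : (ZMod k → V) → ℝ) :
    ∑ x ∈ Cyc G k, f (fun i => x (i + a)) = ∑ x ∈ Cyc G k, f x := by
  have key : ∀ (b : ZMod k) (x : ZMod k → V), x ∈ Cyc G k → (fun i => x (i + b)) ∈ Cyc G k := by
    intro b x hx
    rw [Cyc, mem_filter] at hx ⊢
    refine ⟨mem_univ _, fun i j => ?_⟩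
    replace hx := hx.2
    simp only [IsCyc] at hx
    rw [hx (i + b) (j + b)]
    constructor
    · rintro (h | h)
      · left
        linear_combination h
      · right
        linear_combination h
    · rintro (h | h)
      · left
        linear_combination h
      · right
        linear_combination h
  refine Finset.sum_nbij' (fun x i => x (i + a)) (fun x i => x (i + (-a))) ?_ ?_ ?_ ?_ ?_
  · intro x hx
    exact key a x hx
  · intro x hx
    exact key (-a) x hx
  · intro x _
    funext i
    simp
  · intro x _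
    funext i
    simp
  · intro x _
    rfl

/-- rotation average of `Fm` -/
theorem k_mul_Fm (l : ℕ) : (k : ℝ) * Fm G k l = ∑ x ∈ Cyc G k, ∑ w : V, kap V k *
    ((univ.filter (fun a : ZMod k => w ∈ F G k l (fun i => x (i + a)))).card : ℝ) := by
  have h1 : ∀ a : ZMod k, ∑ x ∈ Cyc G k, mu k (F G k l (fun i => x (i + a))) = Fm G k l :=
    fun a => gaps_sum_rot a (fun x => mu k (F G k l x))
  have h2 : (k : ℝ) * Fm G k l
      = ∑ a : ZMod k, ∑ x ∈ Cyc G k, mu k (F G k l (fun i => x (i + a))) := by
    rw [Finset.sum_congr rfl (fun a _ => h1 a), Finset.sum_const, Finset.card_univ,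
      ZMod.card, nsmul_eq_mul]
  rw [h2, Finset.sum_comm]
  refine Finset.sum_congr rfl (fun x _ => ?_)
  have h3 : ∀ a : ZMod k, mu k (F G k l (fun i => x (i + a)))
      = ∑ w : V, kap V k * (if w ∈ F G k l (fun i => x (i + a)) then (1 : ℝ) else 0) := by
    intro a
    rw [mu, ← Finset.mul_sum, Finset.sum_boole]
    congr 2
    congr 1
    ext w
    simp
  rw [Finset.sum_congr rfl (fun a _ => h3 a), Finset.sum_comm]
  refine Finset.sum_congr rfl (fun w _ => ?_)
  rw [← Finset.mul_sum, Finset.sum_boole]

/-- the number of rotations is at most the size of the type -/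
theorem card_rot_le (l : ℕ) (x : ZMod k → V) (w : V) :
    (univ.filter (fun a : ZMod k => w ∈ F G k l (fun i => x (i + a)))).card ≤
      (Ty G k x w).card := by
  apply Finset.card_le_card_of_injOn (fun a => (l : ZMod k) + a)
  · intro a ha
    simp only [coe_filter, mem_univ, true_and, Set.mem_ofPred_eq] at ha
    exact ((mem_F_rot l x w a).1 ha).2
  · intro a _ b _ hab
    simpa using hab

/-- a pair of positions at distance two contributes nothing -/
theorem card_rot_twin (hk : 20 ≤ k) (x : ZMod k → V) (w : V) (j : ZMod k)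
    (hT : Ty G k x w = {j - 1, j + 1}) :
    (univ.filter (fun a : ZMod k => w ∈ F G k 2 (fun i => x (i + a)))).card ≤
      (univ.filter (fun a : ZMod k => w ∈ F G k (k - 3) (fun i => x (i + a)))).card := by
  have h1 : (univ.filter (fun a : ZMod k => w ∈ F G k 2 (fun i => x (i + a)))).card ≤ 1 := by
    rw [Finset.card_le_one]
    intro a ha b hb
    simp only [mem_filter, mem_univ, true_and, mem_F_rot, hT, mem_insert, mem_singleton] at ha hb
    have key : ∀ c : ZMod k, ((∀ i : ℕ, i < 2 → ¬ ((i : ZMod k) + c = j - 1 ∨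
        (i : ZMod k) + c = j + 1)) ∧ (((2 : ℕ) : ZMod k) + c = j - 1 ∨
        ((2 : ℕ) : ZMod k) + c = j + 1)) → c = j - 3 := by
      intro c hc
      rcases hc.2 with h | h
      · push_cast at h
        linear_combination h
      · exfalso
        apply hc.1 0 (by norm_num)
        left
        push_cast at h ⊢
        linear_combination h
    rw [key a ha, key b hb]
  have h2 : 1 ≤ (univ.filter (fun a : ZMod k => w ∈ F G k (k - 3) (fun i => x (i + a)))).card := by
    rw [Nat.one_le_iff_ne_zero, ← Nat.pos_iff_ne_zero, Finset.card_pos]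
    refine ⟨j + 2, ?_⟩
    simp only [mem_filter, mem_univ, true_and, mem_F_rot, hT, mem_insert, mem_singleton]
    refine ⟨?_, ?_⟩
    · intro i hi h
      rcases h with h | h
      · have h3 : ((i + 3 : ℕ) : ZMod k) = 0 := by
          push_cast
          linear_combination h
        rw [ZMod.natCast_eq_zero_iff] at h3
        have := Nat.le_of_dvd (by omega) h3
        omega
      · have h3 : ((i + 1 : ℕ) : ZMod k) = 0 := by
          push_cast
          linear_combination h
        rw [ZMod.natCast_eq_zero_iff] at h3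
        have := Nat.le_of_dvd (by omega) h3
        omega
    · left
      have h3 : ((k - 3 : ℕ) : ZMod k) = -3 := by
        rw [Nat.cast_sub (by omega)]
        simp
      rw [h3]
      ring
  omega

/-- the bound for one vertex -/
theorem gap_pointwise (hk : 20 ≤ k) (x : ZMod k → V) (w : V) :
    ((univ.filter (fun a : ZMod k => w ∈ F G k 2 (fun i => x (i + a)))).card : ℝ) -
      ((univ.filter (fun a : ZMod k => w ∈ F G k (k - 3) (fun i => x (i + a)))).card : ℝ) ≤
      2 * (if IsFar k (Ty G k x w) then (1 : ℝ) else 0) + 6 * rr k (Ty G k x w) := by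
  have hA : ((univ.filter (fun a : ZMod k => w ∈ F G k 2 (fun i => x (i + a)))).card : ℝ) ≤
      ((Ty G k x w).card : ℝ) := by exact_mod_cast card_rot_le 2 x w
  have hB : (0 : ℝ) ≤
      ((univ.filter (fun a : ZMod k => w ∈ F G k (k - 3) (fun i => x (i + a)))).card : ℝ) :=
    Nat.cast_nonneg _
  have hkR : (20 : ℝ) ≤ (k : ℝ) := by exact_mod_cast hk
  have hI : (0 : ℝ) ≤ (if IsFar k (Ty G k x w) then (1 : ℝ) else 0) := by
    split_ifs <;> norm_num
  by_cases h0 : (Ty G k x w).card = 0
  · rw [rr, if_pos h0]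
    rw [h0] at hA
    push_cast at hA
    linarith
  by_cases h1 : (Ty G k x w).card = 1
  · rw [rr, if_neg h0, if_pos h1]
    rw [h1] at hA
    push_cast at hA
    linarith
  by_cases h2 : (Ty G k x w).card = 2
  · rw [rr, if_neg h0, if_neg h1, h2]
    by_cases hF : IsFar k (Ty G k x w)
    · rw [if_pos hF]
      rw [h2] at hA
      push_cast at hA ⊢
      linarith
    · rw [if_neg hF]
      have : ∃ j : ZMod k, Ty G k x w = {j - 1, j + 1} := by
        by_contra hcon
        push Not at hcon
        exact hF ⟨h2, hcon⟩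
      obtain ⟨j, hj⟩ := this
      have h3 : ((univ.filter (fun a : ZMod k => w ∈ F G k 2 (fun i => x (i + a)))).card : ℝ) ≤
        ((univ.filter (fun a : ZMod k => w ∈ F G k (k - 3) (fun i => x (i + a)))).card : ℝ) := by
        exact_mod_cast card_rot_twin hk x w j hj
      push_cast
      linarith
  · rw [rr, if_neg h0, if_neg h1]
    have h3 : 3 ≤ (Ty G k x w).card := by omega
    have h3R : (3 : ℝ) ≤ ((Ty G k x w).card : ℝ) := by exact_mod_cast h3
    linarith

theorem Gam_le (hk : 20 ≤ k) (tf : ∀ a b c : V, G.Adj a b → G.Adj b c → ¬ G.Adj a c) :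
    Gam G k ≤ 2 / (k : ℝ) * Mfar G k + 6 * XX G k := by
  have hk0 : (0 : ℝ) < (k : ℝ) := by
    have : (20 : ℝ) ≤ (k : ℝ) := by exact_mod_cast hk
    linarith
  have hkap : 0 ≤ kap V k := by
    unfold kap
    positivity
  have hmain : (k : ℝ) * Gam G k ≤ 2 * Mfar G k + 6 * ((k : ℝ) * XX G k) := by
    have hX : (k : ℝ) * XX G k = ∑ x ∈ Cyc G k, ∑ w : V, kap V k * rr k (Ty G k x w) := by
      rw [XX, ← mul_assoc, mul_one_div_cancel hk0.ne', one_mul]
    have hM : Mfar G k = ∑ x ∈ Cyc G k, ∑ w : V,
        kap V k * (if IsFar k (Ty G k x w) then (1 : ℝ) else 0) := by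
      rw [Mfar]
      refine Finset.sum_congr rfl (fun x _ => ?_)
      rw [mu, ← Finset.mul_sum, Finset.sum_boole]
    rw [Gam, mul_sub, k_mul_Fm, k_mul_Fm, hX, hM, ← Finset.sum_sub_distrib, Finset.mul_sum,
      Finset.mul_sum, ← Finset.sum_add_distrib]
    refine Finset.sum_le_sum (fun x _ => ?_)
    rw [← Finset.sum_sub_distrib, Finset.mul_sum, Finset.mul_sum, ← Finset.sum_add_distrib]
    refine Finset.sum_le_sum (fun w _ => ?_)
    have := gap_pointwise (G := G) hk x w
    nlinarith [mul_le_mul_of_nonneg_left this hkap]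
  have h2 : Gam G k = (1 / (k : ℝ)) * ((k : ℝ) * Gam G k) := by
    field_simp
  rw [h2]
  calc (1 / (k : ℝ)) * ((k : ℝ) * Gam G k)
      ≤ (1 / (k : ℝ)) * (2 * Mfar G k + 6 * ((k : ℝ) * XX G k)) :=
        mul_le_mul_of_nonneg_left hmain (by positivity)
    _ = 2 / (k : ℝ) * Mfar G k + 6 * XX G k := by field_simp

end Pool.Agent.ICycK
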