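import Pool.Agent.Lib.MP_131fce_co.K.Defs
import Pool.Agent.Lib.MP_131fce_co.K.Basic
import Pool.Agent.Lib.MP_131fce_co.K.Cond
import Pool.Agent.Lib.MP_131fce_co.K.Deficit

/-! # Visible disagreement at the first hit and two steps later -/

set_option autoImplicit false
set_option linter.unusedSectionVars false

namespace Pool.Agent.ICycK

open Finset
open scoped Classical

variable {V : Type} [Fintype V] {G : SimpleGraph V} {k : ℕ} [NeZero k]

theorem om_nonneg (w : V) : 0 ≤ om G k w := by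
  unfold om; positivity

theorem om_le_one (w : V) : om G k w ≤ 1 := by
  unfold om
  rw [div_le_one (by positivity)]
  exact le_max_left _ _

theorem om_dg (w : V) : om G k w * dg G k w ≤ 8 := by
  unfold om
  have h1 : dg G k w / 8 ≤ max 1 (dg G k w / 8) := le_max_right _ _
  have h0 : 0 < max 1 (dg G k w / 8) := lt_of_lt_of_le one_pos (le_max_left _ _)
  rw [one_div, inv_mul_le_iff₀ h0]
  linarith

theorem tm_nonneg (x : ZMod k → V) (j : ZMod k) : 0 ≤ tm G k x j := by
  unfold tm
  split_ifs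
  · norm_num
  · exact div_nonneg (by norm_num) (mu_nonneg _)

theorem tm_le_one (x : ZMod k → V) (j : ZMod k) : tm G k x j ≤ 1 := by
  unfold tm
  split_ifs with h
  · exact le_rfl
  · rw [not_le] at h
    rw [div_le_one (by linarith)]
    exact h.le

theorem tm_mul (x : ZMod k → V) (j : ZMod k) : tm G k x j * mu k (T G k j x) ≤ 6 / 5 := by
  unfold tm
  split_ifs with h
  · linarith
  · rw [not_le] at h
    rw [div_mul_cancel₀]
    linarith

/-- truncated mass of the twins that miss `w` -/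
theorem tm_filter_nonneg (x : ZMod k → V) (j : ZMod k) (w : V) :
    0 ≤ tm G k x j * mu k ((T G k j x).filter (fun v => ¬ G.Adj v w)) :=
  mul_nonneg (tm_nonneg x j) (mu_nonneg _)

theorem tm_filter_le (x : ZMod k → V) (j : ZMod k) (w : V) :
    tm G k x j * mu k ((T G k j x).filter (fun v => ¬ G.Adj v w)) ≤ 6 / 5 :=
  (mul_le_mul_of_nonneg_left (mu_mono (Finset.filter_subset _ _)) (tm_nonneg x j)).trans
    (tm_mul x j)

theorem tm_filter_le' (x : ZMod k → V) (j : ZMod k) (w : V) :
    tm G k x j * mu k ((T G k j x).filter (fun v => ¬ G.Adj v w)) ≤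
      mu k ((T G k j x).filter (fun v => ¬ G.Adj v w)) :=
  mul_le_of_le_one_left (mu_nonneg _) (tm_le_one x j)

theorem dis_nonneg (x : ZMod k → V) (j : ZMod k) (w : V) : 0 ≤ dis G k x j w := by
  unfold dis
  split_ifs
  · exact mul_nonneg (mul_nonneg kap_nonneg (om_nonneg w)) (tm_filter_nonneg x j w)
  · exact le_rfl

/-- first hit at `m + 1` -/
theorem v12_aux1 (hk : 5 ≤ k) {m : ℕ} (hm : m + 3 ≤ k) :
    ∑ x ∈ Cyc G k, ∑ w ∈ W G k (m + 1) x, dis G k x ((m + 1 : ℕ) : ZMod k) w ≤
      6 / 5 * Jl G k m + 26 * cc G k m := by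
  have h1 : ∀ x ∈ Cyc G k,
      ∑ w ∈ W G k (m + 1) x, dis G k x ((m + 1 : ℕ) : ZMod k) w ≤
      6 / 5 * (∑ z : V, pr G k m x z * mu k ((W G k (m + 1) x).filter
        (fun y => G.Adj (x ((m + 1 : ℕ) : ZMod k)) y ∧ ¬ G.Adj z y))) +
      26 * ∑ y ∈ F G k m x, kap V k * Phi (pr G k m x y / kap V k) := by
    intro x _
    have hR : 0 ≤ 6 / 5 * (∑ z : V, pr G k m x z * mu k ((W G k (m + 1) x).filter
        (fun y => G.Adj (x ((m + 1 : ℕ) : ZMod k)) y ∧ ¬ G.Adj z y))) +
      26 * ∑ y ∈ F G k m x, kap V k * Phi (pr G k m x y / kap V k) := by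
      have h2 : 0 ≤ ∑ z : V, pr G k m x z * mu k ((W G k (m + 1) x).filter
        (fun y => G.Adj (x ((m + 1 : ℕ) : ZMod k)) y ∧ ¬ G.Adj z y)) :=
        Finset.sum_nonneg fun z _ => mul_nonneg (pr_nonneg m x z) (mu_nonneg _)
      have h3 : 0 ≤ ∑ y ∈ F G k m x, kap V k * Phi (pr G k m x y / kap V k) :=
        Finset.sum_nonneg fun y _ => term_nonneg m x y
      positivity
    by_cases hD : dg G k (x ((m + 1 : ℕ) : ZMod k)) ≤ 8
    swap
    · refine le_trans (le_of_eq ?_) hR
      refine Finset.sum_eq_zero fun w _ => ?_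
      unfold dis
      rw [if_neg (fun h => hD h.1)]
    -- swap the two sums
    have hk0 : 0 ≤ kap V k := kap_nonneg
    have hsub : T G k ((m + 1 : ℕ) : ZMod k) x ⊆ F G k m x := T_subset_F hk hm
    have h4 : ∑ w ∈ W G k (m + 1) x, dis G k x ((m + 1 : ℕ) : ZMod k) w ≤
        ∑ v ∈ F G k m x, kap V k * mu k ((W G k (m + 1) x).filter
          (fun y => G.Adj (x ((m + 1 : ℕ) : ZMod k)) y ∧ ¬ G.Adj v y)) := by
      have h5 : ∀ w ∈ W G k (m + 1) x, dis G k x ((m + 1 : ℕ) : ZMod k) w ≤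
          ∑ v ∈ F G k m x, (if G.Adj (x ((m + 1 : ℕ) : ZMod k)) w ∧ ¬ G.Adj v w then
            kap V k * kap V k else 0) := by
        intro w _
        unfold dis
        split_ifs with h
        · have h6 : kap V k * om G k w * (tm G k x ((m + 1 : ℕ) : ZMod k) *
              mu k ((T G k ((m + 1 : ℕ) : ZMod k) x).filter
              (fun v => ¬ G.Adj v w))) ≤ kap V k * mu k ((F G k m x).filter
              (fun v => ¬ G.Adj v w)) := by
            have h7 : kap V k * om G k w ≤ kap V k :=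
              mul_le_of_le_one_right hk0 (om_le_one w)
            have h8 : mu k ((T G k ((m + 1 : ℕ) : ZMod k) x).filter
              (fun v => ¬ G.Adj v w)) ≤ mu k ((F G k m x).filter (fun v => ¬ G.Adj v w)) :=
              mu_mono (Finset.filter_subset_filter _ hsub)
            exact mul_le_mul h7 ((tm_filter_le' x _ w).trans h8) (tm_filter_nonneg _ _ _) hk0
          refine h6.trans (le_of_eq ?_)
          rw [mu_eq_sum, Finset.sum_filter, Finset.mul_sum]
          refine Finset.sum_congr rfl fun v _ => ?_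
          by_cases hv : ¬ G.Adj v w
          · rw [if_pos hv, if_pos ⟨h.2, hv⟩]
          · rw [if_neg hv, if_neg (fun h' => hv h'.2), mul_zero]
        · refine Finset.sum_nonneg fun v _ => ?_
          split_ifs
          · exact mul_nonneg hk0 hk0
          · exact le_rfl
      refine (Finset.sum_le_sum h5).trans (le_of_eq ?_)
      rw [Finset.sum_comm]
      refine Finset.sum_congr rfl fun v _ => ?_
      rw [mu_eq_sum, Finset.sum_filter, Finset.mul_sum]
      refine Finset.sum_congr rfl fun w _ => ?_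
      split_ifs <;> simp
    refine h4.trans ?_
    have h9 : ∑ v ∈ F G k m x, kap V k * mu k ((W G k (m + 1) x).filter
          (fun y => G.Adj (x ((m + 1 : ℕ) : ZMod k)) y ∧ ¬ G.Adj v y)) ≤
        ∑ v ∈ F G k m x, (6 / 5 * (pr G k m x v * mu k ((W G k (m + 1) x).filter
        (fun y => G.Adj (x ((m + 1 : ℕ) : ZMod k)) y ∧ ¬ G.Adj v y))) +
        26 * (kap V k * Phi (pr G k m x v / kap V k))) := by
      refine Finset.sum_le_sum fun v _ => ?_
      have hmu : 0 ≤ mu k ((W G k (m + 1) x).filter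
        (fun y => G.Adj (x ((m + 1 : ℕ) : ZMod k)) y ∧ ¬ G.Adj v y)) := mu_nonneg _
      have hP := term_nonneg (G := G) m x v
      have hp := kap_le (G := G) m x v
      have h10 : mu k ((W G k (m + 1) x).filter
          (fun y => G.Adj (x ((m + 1 : ℕ) : ZMod k)) y ∧ ¬ G.Adj v y)) ≤ 8 := by
        refine le_trans (mu_mono ?_) hD
        intro y hy
        rw [Finset.mem_filter] at hy
        simp only [nb, Finset.mem_filter, Finset.mem_univ, true_and]
        exact hy.2.1
      have h11 := mul_le_mul_of_nonneg_right hp hmu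
      have h12 := mul_le_mul_of_nonneg_left h10 hP
      linarith
    refine h9.trans ?_
    rw [Finset.sum_add_distrib, ← Finset.mul_sum, ← Finset.mul_sum]
    have h11 : ∑ v ∈ F G k m x, pr G k m x v * mu k ((W G k (m + 1) x).filter
        (fun y => G.Adj (x ((m + 1 : ℕ) : ZMod k)) y ∧ ¬ G.Adj v y)) ≤
        ∑ z : V, pr G k m x z * mu k ((W G k (m + 1) x).filter
        (fun y => G.Adj (x ((m + 1 : ℕ) : ZMod k)) y ∧ ¬ G.Adj z y)) :=
      Finset.sum_le_sum_of_subset_of_nonneg (Finset.subset_univ _) fun z _ _ =>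
        mul_nonneg (pr_nonneg m x z) (mu_nonneg _)
    linarith
  refine (Finset.sum_le_sum h1).trans ?_
  rw [Finset.sum_add_distrib, ← Finset.mul_sum, ← Finset.mul_sum, ← Jl_eq]
  exact le_rfl

/-- first hit at `j` -/
theorem Vis1 (hk : 20 ≤ k) {j : ℕ} (h3 : 1 ≤ j) (hj : j + 4 ≤ k) :
    ∑ x ∈ Cyc G k, ∑ w ∈ W G k j x, dis G k x ((j : ℕ) : ZMod k) w ≤
      6 / 5 * Jl G k (j - 1) + 26 * cc G k (j - 1) := by
  obtain ⟨m, rfl⟩ : ∃ m, j = m + 1 := ⟨j - 1, by omega⟩
  exact v12_aux1 (by omega) (by omega)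

/-- first hit at `s`, position `s + 2` -/
theorem Vis2 (hk : 20 ≤ k) {s : ℕ} (hs : s + 6 ≤ k) :
    ∑ x ∈ Cyc G k, ∑ w ∈ F G k s x, dis G k x ((s + 2 : ℕ) : ZMod k) w ≤
      6 / 5 * Jl G k s + 39 / 10 * cc G k s := by
  have hk5 : 5 ≤ k := by omega
  have h1 : ∀ x ∈ Cyc G k,
      ∑ w ∈ F G k s x, dis G k x ((s + 2 : ℕ) : ZMod k) w ≤
      6 / 5 * (∑ z : V, pr G k s x z * mu k ((W G k (s + 1) x).filter
        (fun y => G.Adj (x ((s + 1 : ℕ) : ZMod k)) y ∧ ¬ G.Adj z y))) +
      39 / 10 * ∑ y ∈ F G k s x, kap V k * Phi (pr G k s x y / kap V k) := by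
    intro x _
    have hk0 : 0 ≤ kap V k := kap_nonneg
    have h2 : ∑ w ∈ F G k s x, dis G k x ((s + 2 : ℕ) : ZMod k) w ≤
        ∑ w ∈ F G k s x, (6 / 5 * (pr G k s x w * mu k ((W G k (s + 1) x).filter
        (fun y => G.Adj (x ((s + 1 : ℕ) : ZMod k)) y ∧ ¬ G.Adj w y))) +
        39 / 10 * (kap V k * Phi (pr G k s x w / kap V k))) := by
      refine Finset.sum_le_sum fun w _ => ?_
      have hmu : 0 ≤ mu k ((W G k (s + 1) x).filter
        (fun y => G.Adj (x ((s + 1 : ℕ) : ZMod k)) y ∧ ¬ G.Adj w y)) := mu_nonneg _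
      have hpr := pr_nonneg (G := G) (k := k) s x w
      have hP := term_nonneg (G := G) s x w
      have hp := kap_le (G := G) s x w
      have hRr := mul_nonneg hpr hmu
      unfold dis
      split_ifs with h
      · have h3' : kap V k * om G k w ≤ kap V k :=
          mul_le_of_le_one_right hk0 (om_le_one w)
        set M := tm G k x ((s + 2 : ℕ) : ZMod k) *
          mu k ((T G k ((s + 2 : ℕ) : ZMod k) x).filter (fun v => ¬ G.Adj v w)) with hM
        have hM0 : 0 ≤ M := tm_filter_nonneg _ _ _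
        have hM1 : M ≤ 6 / 5 := tm_filter_le _ _ _
        have h4 : mu k ((T G k ((s + 2 : ℕ) : ZMod k) x).filter (fun v => ¬ G.Adj v w)) ≤
            mu k ((W G k (s + 1) x).filter
              (fun y => G.Adj (x ((s + 1 : ℕ) : ZMod k)) y ∧ ¬ G.Adj w y)) := by
          refine mu_mono ?_
          intro y hy
          rw [Finset.mem_filter] at hy ⊢
          have hyF : y ∈ F G k (s + 1) x :=
            T_subset_F (l := s + 1) hk5 (by omega) hy.1
          unfold F at hyF
          rw [Finset.mem_filter] at hyF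
          exact ⟨hyF.1, hyF.2, fun h' => hy.2 h'.symm⟩
        have hM2 : M ≤ mu k ((W G k (s + 1) x).filter
              (fun y => G.Adj (x ((s + 1 : ℕ) : ZMod k)) y ∧ ¬ G.Adj w y)) :=
          (tm_filter_le' _ _ _).trans h4
        have h5 := mul_le_mul_of_nonneg_right (h3'.trans hp) hM0
        have h6 := mul_le_mul_of_nonneg_left hM2 hpr
        have h7 := mul_le_mul_of_nonneg_left hM1 hP
        nlinarith
      · linarith
    refine h2.trans ?_
    rw [Finset.sum_add_distrib, ← Finset.mul_sum, ← Finset.mul_sum]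
    have h11 : ∑ v ∈ F G k s x, pr G k s x v * mu k ((W G k (s + 1) x).filter
        (fun y => G.Adj (x ((s + 1 : ℕ) : ZMod k)) y ∧ ¬ G.Adj v y)) ≤
        ∑ z : V, pr G k s x z * mu k ((W G k (s + 1) x).filter
        (fun y => G.Adj (x ((s + 1 : ℕ) : ZMod k)) y ∧ ¬ G.Adj z y)) :=
      Finset.sum_le_sum_of_subset_of_nonneg (Finset.subset_univ _) fun z _ _ =>
        mul_nonneg (pr_nonneg s x z) (mu_nonneg _)
    linarith
  refine (Finset.sum_le_sum h1).trans ?_
  rw [Finset.sum_add_distrib, ← Finset.mul_sum, ← Finset.mul_sum, ← Jl_eq]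
  exact le_rfl

end Pool.Agent.ICycK
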