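import Pool.Agent.Lib.MP_131fce_co.K.Defs
import Pool.Agent.Lib.MP_131fce_co.K.Vis12

/-! IC-12a: rotation average of the visible disagreement. -/

set_option autoImplicit false

namespace Pool.Agent.ICycK

open Finset
open scoped Classical

variable {V : Type} [Fintype V] {G : SimpleGraph V} {k : ℕ} [NeZero k]

omit [Fintype V] in
theorem rotVis_mem_Ty (a : ZMod k) (x : ZMod k → V) (w : V) (i : ZMod k) :
    i ∈ Ty G k (fun i => x (i + a)) w ↔ i + a ∈ Ty G k x w := by
  simp [Ty]

omit [Fintype V] [NeZero k] in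
theorem rotVis_isCyc (a : ZMod k) (x : ZMod k → V) :
    IsCyc G k (fun i => x (i + a)) ↔ IsCyc G k x := by
  constructor
  · intro h i j
    have := h (i - a) (j - a)
    simp only [sub_add_cancel] at this
    rw [this]
    constructor
    · rintro (h1 | h1)
      · left; rw [sub_eq_iff_eq_add] at h1; rw [h1]; ring
      · right; rw [sub_eq_iff_eq_add] at h1; rw [h1]; ring
    · rintro (h1 | h1)
      · left; rw [h1]; ring
      · right; rw [h1]; ring
  · intro h i j
    rw [h (i + a) (j + a)]
    constructor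
    · rintro (h1 | h1)
      · left; have h2 := eq_sub_of_add_eq h1; rw [h2]; ring
      · right; have h2 := eq_sub_of_add_eq h1; rw [h2]; ring
    · rintro (h1 | h1)
      · left; rw [h1]; ring
      · right; rw [h1]; ring

theorem rotVis_sum_rot (a : ZMod k) (f : (ZMod k → V) → ℝ) :
    ∑ x ∈ Cyc G k, f (fun i => x (i + a)) = ∑ x ∈ Cyc G k, f x := by
  apply Finset.sum_nbij' (fun x i => x (i + a)) (fun x i => x (i - a))
  · intro x hx
    simp only [Cyc, Finset.mem_filter, Finset.mem_univ, true_and] at hx ⊢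
    exact (rotVis_isCyc a x).2 hx
  · intro x hx
    simp only [Cyc, Finset.mem_filter, Finset.mem_univ, true_and] at hx ⊢
    rw [← rotVis_isCyc a]
    simpa using hx
  · intro x _
    funext i
    simp
  · intro x _
    funext i
    simp
  · intro x _
    rfl

theorem rotVis_T (a j : ZMod k) (x : ZMod k → V) :
    T G k j (fun i => x (i + a)) = T G k (j + a) x := by
  ext w
  unfold T
  simp only [Finset.mem_filter, Finset.mem_univ, true_and]
  constructor
  · intro h
    ext i
    have h1 := rotVis_mem_Ty (G := G) a x w (i - a)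
    rw [h, sub_add_cancel] at h1
    rw [← h1]
    simp only [Finset.mem_insert, Finset.mem_singleton]
    constructor
    · rintro (h2 | h2)
      · left; rw [sub_eq_iff_eq_add] at h2; rw [h2]; ring
      · right; rw [sub_eq_iff_eq_add] at h2; rw [h2]; ring
    · rintro (h2 | h2)
      · left; rw [h2]; ring
      · right; rw [h2]; ring
  · intro h
    ext i
    rw [rotVis_mem_Ty, h]
    simp only [Finset.mem_insert, Finset.mem_singleton]
    constructor
    · rintro (h2 | h2)
      · left; have := eq_sub_of_add_eq h2; rw [this]; ring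
      · right; have := eq_sub_of_add_eq h2; rw [this]; ring
    · rintro (h2 | h2)
      · left; rw [h2]; ring
      · right; rw [h2]; ring

theorem rotVis_dis (a j : ZMod k) (x : ZMod k → V) (w : V) :
    dis G k (fun i => x (i + a)) j w = dis G k x (j + a) w := by
  unfold dis tm
  rw [rotVis_T]

theorem rotVis_W (a : ZMod k) (x : ZMod k → V) (w : V) :
    w ∈ W G k 3 (fun i => x (i + a)) ↔
      (a ∉ Ty G k x w ∧ a + 1 ∉ Ty G k x w ∧ a + 2 ∉ Ty G k x w) := by
  unfold W Ty
  simp only [Finset.mem_filter, Finset.mem_univ, true_and]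
  constructor
  · intro h
    refine ⟨?_, ?_, ?_⟩
    · have := h 0 (by norm_num)
      simpa using this
    · have := h 1 (by norm_num)
      rw [add_comm a 1]
      simpa using this
    · have := h 2 (by norm_num)
      rw [add_comm a 2]
      simpa using this
  · rintro ⟨h0, h1, h2⟩ i hi
    interval_cases i
    · simpa using h0
    · rw [add_comm a 1] at h1
      simpa using h1
    · rw [add_comm a 2] at h2
      simpa using h2

/-- number of frames in which position `j` is seen -/
theorem rotVis_count (hk : 20 ≤ k) (S : Finset (ZMod k)) (j : ZMod k) (hj : j ∈ S) :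
    (al k S : ℝ) - 4 ≤ ∑ a : ZMod k, ∑ n ∈ Finset.Icc 4 (k - 4),
      if ((a ∉ S ∧ a + 1 ∉ S ∧ a + 2 ∉ S) ∧ ((n : ℕ) : ZMod k) + a = j) then (1 : ℝ) else 0 := by
  have hal : (al k S : ℝ) = ∑ a : ZMod k,
      if (a ∉ S ∧ a + 1 ∉ S ∧ a + 2 ∉ S) then (1 : ℝ) else 0 := by
    unfold al
    rw [Finset.sum_boole]
  have h3 : (∑ a : ZMod k, if a ∈ ({j + 1, j + 2, j + 3, j - 3} : Finset (ZMod k)) then (1 : ℝ) else 0)
      ≤ 4 := by
    rw [Finset.sum_boole]
    have : (univ.filter (fun a : ZMod k => a ∈ ({j + 1, j + 2, j + 3, j - 3} : Finset (ZMod k)))).card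
        ≤ 4 := by
      rw [Finset.filter_mem_eq_inter, Finset.univ_inter]
      exact Finset.card_le_four
    exact_mod_cast this
  have key : ∀ a : ZMod k, (if (a ∉ S ∧ a + 1 ∉ S ∧ a + 2 ∉ S) then (1 : ℝ) else 0) ≤
      (∑ n ∈ Finset.Icc 4 (k - 4),
        if ((a ∉ S ∧ a + 1 ∉ S ∧ a + 2 ∉ S) ∧ ((n : ℕ) : ZMod k) + a = j) then (1 : ℝ) else 0) +
      (if a ∈ ({j + 1, j + 2, j + 3, j - 3} : Finset (ZMod k)) then (1 : ℝ) else 0) := by
    intro a
    by_cases hP : (a ∉ S ∧ a + 1 ∉ S ∧ a + 2 ∉ S)
    · by_cases ha : a ∈ ({j + 1, j + 2, j + 3, j - 3} : Finset (ZMod k))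
      · rw [if_pos hP, if_pos ha]
        have : 0 ≤ ∑ n ∈ Finset.Icc 4 (k - 4),
            if ((a ∉ S ∧ a + 1 ∉ S ∧ a + 2 ∉ S) ∧ ((n : ℕ) : ZMod k) + a = j) then (1 : ℝ)
              else 0 := by
          apply Finset.sum_nonneg
          intro n _
          split_ifs <;> norm_num
        linarith
      · have hn : (((j - a).val : ℕ) : ZMod k) = j - a := ZMod.natCast_zmod_val (j - a)
        have hlt : (j - a).val < k := ZMod.val_lt (j - a)
        have hcast : ∀ m : ℕ, (j - a).val = m → j = a + (m : ZMod k) := by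
          intro m hm
          rw [hm] at hn
          rw [hn]
          ring
        have hcast' : ∀ m : ℕ, m ≤ k → (j - a).val = k - m → a = j + (m : ZMod k) := by
          intro m hmk hm
          have h1 := hcast (k - m) hm
          rw [Nat.cast_sub hmk, ZMod.natCast_self] at h1
          rw [h1]
          ring
        have n0 : (j - a).val ≠ 0 := by
          intro h
          have := hcast 0 h
          rw [Nat.cast_zero, add_zero] at this
          exact hP.1 (this ▸ hj)
        have n1 : (j - a).val ≠ 1 := by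
          intro h
          have := hcast 1 h
          rw [Nat.cast_one] at this
          exact hP.2.1 (this ▸ hj)
        have n2 : (j - a).val ≠ 2 := by
          intro h
          have := hcast 2 h
          rw [Nat.cast_ofNat] at this
          exact hP.2.2 (this ▸ hj)
        have n3 : (j - a).val ≠ 3 := by
          intro h
          have h5 := hcast 3 h
          have h6 : a = j - 3 := by
            rw [Nat.cast_ofNat] at h5
            rw [h5]
            ring
          exact ha (by simp [h6])
        have m1 : (j - a).val ≠ k - 1 := by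
          intro h
          have := hcast' 1 (by omega) h
          rw [Nat.cast_one] at this
          exact ha (by simp [this])
        have m2 : (j - a).val ≠ k - 2 := by
          intro h
          have := hcast' 2 (by omega) h
          rw [Nat.cast_ofNat] at this
          exact ha (by simp [this])
        have m3 : (j - a).val ≠ k - 3 := by
          intro h
          have := hcast' 3 (by omega) h
          rw [Nat.cast_ofNat] at this
          exact ha (by simp [this])
        have hmem : (j - a).val ∈ Finset.Icc 4 (k - 4) := by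
          rw [Finset.mem_Icc]
          omega
        rw [if_pos hP, if_neg ha, add_zero]
        have hle := Finset.single_le_sum (f := fun n : ℕ =>
          if ((a ∉ S ∧ a + 1 ∉ S ∧ a + 2 ∉ S) ∧ ((n : ℕ) : ZMod k) + a = j) then (1 : ℝ) else 0)
          (fun n _ => by split_ifs <;> norm_num) hmem
        refine le_trans ?_ hle
        rw [if_pos]
        refine ⟨hP, ?_⟩
        rw [hn]
        ring
    · rw [if_neg hP]
      apply add_nonneg
      · apply Finset.sum_nonneg
        intro n _
        split_ifs <;> norm_num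
      · split_ifs <;> norm_num
  have hsum := Finset.sum_le_sum (fun a (_ : a ∈ (univ : Finset (ZMod k))) => key a)
  rw [Finset.sum_add_distrib, ← hal] at hsum
  linarith

/-- one vertex, one cycle -/
theorem rotVis_pointwise (hk : 20 ≤ k) (x : ZMod k → V) (w : V) :
    ∑ j : ZMod k, max ((al k (Ty G k x w) : ℝ) - 4) 0 * dis G k x j w ≤
      ∑ a : ZMod k, ∑ n ∈ Finset.Icc 4 (k - 4),
        if (a ∉ Ty G k x w ∧ a + 1 ∉ Ty G k x w ∧ a + 2 ∉ Ty G k x w) then
          dis G k x (((n : ℕ) : ZMod k) + a) w else 0 := by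
  have hR : (∑ a : ZMod k, ∑ n ∈ Finset.Icc 4 (k - 4),
        if (a ∉ Ty G k x w ∧ a + 1 ∉ Ty G k x w ∧ a + 2 ∉ Ty G k x w) then
          dis G k x (((n : ℕ) : ZMod k) + a) w else 0) =
      ∑ j : ZMod k, (∑ a : ZMod k, ∑ n ∈ Finset.Icc 4 (k - 4),
        if ((a ∉ Ty G k x w ∧ a + 1 ∉ Ty G k x w ∧ a + 2 ∉ Ty G k x w) ∧
          ((n : ℕ) : ZMod k) + a = j) then (1 : ℝ) else 0) * dis G k x j w := by
    simp_rw [Finset.sum_mul]
    symm
    rw [Finset.sum_comm]
    apply Finset.sum_congr rfl
    intro a _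
    rw [Finset.sum_comm]
    apply Finset.sum_congr rfl
    intro n _
    symm
    by_cases hP : (a ∉ Ty G k x w ∧ a + 1 ∉ Ty G k x w ∧ a + 2 ∉ Ty G k x w)
    · rw [if_pos hP]
      rw [Finset.sum_eq_single (((n : ℕ) : ZMod k) + a)]
      · rw [if_pos ⟨hP, rfl⟩, one_mul]
      · intro j _ hj
        rw [if_neg (fun h => hj h.2.symm), zero_mul]
      · intro h
        exact absurd (Finset.mem_univ _) h
    · rw [if_neg hP]
      symm
      apply Finset.sum_eq_zero
      intro j _
      rw [if_neg (fun h => hP h.1), zero_mul]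
  rw [hR]
  apply Finset.sum_le_sum
  intro j _
  by_cases hj : j ∈ Ty G k x w
  · apply mul_le_mul_of_nonneg_right _ (dis_nonneg x j w)
    apply max_le (rotVis_count hk _ j hj)
    apply Finset.sum_nonneg
    intro a _
    apply Finset.sum_nonneg
    intro n _
    split_ifs <;> norm_num
  · have h0 : dis G k x j w = 0 := by
      unfold dis
      rw [if_neg]
      rintro ⟨_, h⟩
      exact hj (by simp [Ty, h])
    rw [h0, mul_zero, mul_zero]

/-- rotation average of `Vis` -/
theorem rot_Vis (hk : 20 ≤ k) :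
    ∑ x ∈ Cyc G k, ∑ j : ZMod k, ∑ w : V, max ((al k (Ty G k x w) : ℝ) - 4) 0 * dis G k x j w ≤
      (k : ℝ) * Vis G k := by
  have h1 : (k : ℝ) * Vis G k = ∑ a : ZMod k, Vis G k := by
    rw [Finset.sum_const, Finset.card_univ, ZMod.card, nsmul_eq_mul]
  have h2 : ∀ a : ZMod k, Vis G k = ∑ x ∈ Cyc G k, ∑ w : V, ∑ n ∈ Finset.Icc 4 (k - 4),
      if (a ∉ Ty G k x w ∧ a + 1 ∉ Ty G k x w ∧ a + 2 ∉ Ty G k x w) then
          dis G k x (((n : ℕ) : ZMod k) + a) w else 0 := by
    intro a
    unfold Vis
    rw [← rotVis_sum_rot a]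
    apply Finset.sum_congr rfl
    intro x _
    calc ∑ n ∈ Finset.Icc 4 (k - 4), ∑ w ∈ W G k 3 (fun i => x (i + a)),
          dis G k (fun i => x (i + a)) ((n : ℕ) : ZMod k) w
        = ∑ n ∈ Finset.Icc 4 (k - 4), ∑ w : V,
          if (a ∉ Ty G k x w ∧ a + 1 ∉ Ty G k x w ∧ a + 2 ∉ Ty G k x w) then
            dis G k x (((n : ℕ) : ZMod k) + a) w else 0 := by
          apply Finset.sum_congr rfl
          intro n _
          rw [← Finset.sum_filter]
          apply Finset.sum_congr
          · ext w
            rw [rotVis_W]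
            simp
          · intro w _
            exact rotVis_dis a _ x w
      _ = _ := Finset.sum_comm
  rw [h1, Finset.sum_congr rfl (fun a _ => h2 a)]
  have h3 : (∑ a : ZMod k, ∑ x ∈ Cyc G k, ∑ w : V, ∑ n ∈ Finset.Icc 4 (k - 4),
      if (a ∉ Ty G k x w ∧ a + 1 ∉ Ty G k x w ∧ a + 2 ∉ Ty G k x w) then
          dis G k x (((n : ℕ) : ZMod k) + a) w else 0) =
      ∑ x ∈ Cyc G k, ∑ w : V, ∑ a : ZMod k, ∑ n ∈ Finset.Icc 4 (k - 4),
      if (a ∉ Ty G k x w ∧ a + 1 ∉ Ty G k x w ∧ a + 2 ∉ Ty G k x w) then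
          dis G k x (((n : ℕ) : ZMod k) + a) w else 0 := by
    rw [Finset.sum_comm]
    apply Finset.sum_congr rfl
    intro x _
    exact Finset.sum_comm
  rw [h3]
  apply Finset.sum_le_sum
  intro x _
  have h4 : (∑ j : ZMod k, ∑ w : V, max ((al k (Ty G k x w) : ℝ) - 4) 0 * dis G k x j w) =
      ∑ w : V, ∑ j : ZMod k, max ((al k (Ty G k x w) : ℝ) - 4) 0 * dis G k x j w :=
    Finset.sum_comm
  rw [h4]
  apply Finset.sum_le_sum
  intro w _
  exact rotVis_pointwise hk x w

end Pool.Agent.ICycK
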