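import Pool.Agent.Lib.MP_131fce_co.K.Defs
import Pool.Agent.Lib.MP_131fce_co.K.Basic
import Pool.Agent.Lib.MP_131fce_co.K.Rot
import Pool.Agent.Lib.MP_131fce_co.K.Vis12
import Pool.Agent.Lib.MP_131fce_co.K.RotVis

/-! # Flows at dense types -/

set_option autoImplicit false

namespace Pool.Agent.ICycK

open Finset
open scoped Classical

noncomputable section

variable {V : Type} [Fintype V] {G : SimpleGraph V} {k : ℕ} [NeZero k]

/-! ### Free positions -/

private theorem card_le_al (S : Finset (ZMod k)) : k ≤ al k S + 3 * S.card := by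
  have hsub : (univ : Finset (ZMod k)) ⊆
      (univ.filter (fun a : ZMod k => a ∉ S ∧ a + 1 ∉ S ∧ a + 2 ∉ S)) ∪
        (S ∪ (S.image (fun a => a - 1) ∪ S.image (fun a => a - 2))) := by
    intro a _
    simp only [mem_union, mem_filter, mem_univ, true_and, mem_image]
    by_cases h0 : a ∈ S
    · right; left; exact h0
    by_cases h1 : a + 1 ∈ S
    · right; right; left; exact ⟨a + 1, h1, by ring⟩
    by_cases h2 : a + 2 ∈ S
    · right; right; right; exact ⟨a + 2, h2, by ring⟩
    left; exact ⟨h0, h1, h2⟩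
  have h := card_le_card hsub
  rw [card_univ, ZMod.card] at h
  have h1 := card_union_le (univ.filter (fun a : ZMod k => a ∉ S ∧ a + 1 ∉ S ∧ a + 2 ∉ S))
    (S ∪ (S.image (fun a => a - 1) ∪ S.image (fun a => a - 2)))
  have h2 := card_union_le S (S.image (fun a => a - 1) ∪ S.image (fun a => a - 2))
  have h3 := card_union_le (S.image (fun a : ZMod k => a - 1)) (S.image (fun a => a - 2))
  have h4 : (S.image (fun a : ZMod k => a - 1)).card ≤ S.card := card_image_le
  have h5 : (S.image (fun a : ZMod k => a - 2)).card ≤ S.card := card_image_le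
  unfold al
  omega

/-! ### Types after a swap -/

private theorem mem_Ty {x : ZMod k → V} {w : V} {i : ZMod k} : i ∈ Ty G k x w ↔ G.Adj (x i) w := by
  simp [Ty]

private theorem Ty_update {x : ZMod k → V} {j : ZMod k} {v w : V} (hv : G.Adj v w) :
    Ty G k (Function.update x j v) w = insert j (Ty G k x w) := by
  ext i
  rw [mem_Ty, mem_insert, mem_Ty]
  by_cases h : i = j
  · subst h
    simp [hv]
  · rw [Function.update_of_ne h]
    simp [h]

omit [NeZero k] in
private theorem four_ne_zero_of (hk : 20 ≤ k) : (4 : ZMod k) ≠ 0 := by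
  intro h
  have h' : ((4 : ℕ) : ZMod k) = 0 := by exact_mod_cast h
  rw [ZMod.natCast_eq_zero_iff] at h'
  have := Nat.le_of_dvd (by norm_num) h'
  omega

omit [NeZero k] in
private theorem pair_inj (hk : 20 ≤ k) {i j : ZMod k}
    (h : ({i - 1, i + 1} : Finset (ZMod k)) = {j - 1, j + 1}) : i = j := by
  have h1 : i - 1 ∈ ({j - 1, j + 1} : Finset (ZMod k)) := by rw [← h]; simp
  have h2 : i + 1 ∈ ({j - 1, j + 1} : Finset (ZMod k)) := by rw [← h]; simp
  simp only [mem_insert, mem_singleton] at h1 h2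
  rcases h1 with h1 | h1
  · linear_combination h1
  · rcases h2 with h2 | h2
    · exfalso
      apply four_ne_zero_of hk
      have h3 : (4 : ZMod k) = 0 := by linear_combination h2 - h1
      exact h3
    · linear_combination h2

/-- the twin classes are disjoint -/
theorem sum_T_le (hk : 20 ≤ k) (x : ZMod k → V) (w : V) :
    ∑ j : ZMod k, mu k ((T G k j x).filter (fun v => G.Adj v w)) ≤ dg G k w := by
  have hdisj : ((univ : Finset (ZMod k)) : Set (ZMod k)).PairwiseDisjoint
      (fun j => (T G k j x).filter (fun v => G.Adj v w)) := by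
    intro a _ b _ hab
    apply Finset.disjoint_filter_filter
    rw [Finset.disjoint_left]
    intro v h1 h2
    rw [bas_mem_T] at h1 h2
    exact hab (pair_inj hk (h1.symm.trans h2))
  have h1 : ∑ j : ZMod k, mu k ((T G k j x).filter (fun v => G.Adj v w)) =
      mu k (univ.biUnion (fun j : ZMod k => (T G k j x).filter (fun v => G.Adj v w))) := by
    unfold mu
    rw [Finset.card_biUnion (fun a ha b hb hab => hdisj ha hb hab), Nat.cast_sum, Finset.mul_sum]
  rw [h1]
  refine mu_mono ?_
  intro v hv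
  rw [Finset.mem_biUnion] at hv
  obtain ⟨j, _, hv⟩ := hv
  rw [Finset.mem_filter] at hv
  exact bas_mem_nb.2 hv.2.symm

/-- dense types -/
theorem dense_flow (hk : 20 ≤ k) (tf : ∀ a b c : V, G.Adj a b → G.Adj b c → ¬ G.Adj a c) :
    ∑ x ∈ Cyc G k, ∑ j : ZMod k, ∑ w : V,
      max (3 * ((Ty G k x w).card : ℝ) - 9) 0 * dis G k x j w ≤
      48 * ((k : ℝ) * XX G k) := by
  -- the integrand for a pair
  set hh : ZMod k → (ZMod k → V) → V → ℝ := fun j x v =>
    ∑ w : V, (if G.Adj (x j) w ∧ ¬ G.Adj v w
      then max (3 * ((Ty G k x w).card : ℝ) - 9) 0 * (kap V k * om G k w * kap V k) else 0)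
    with hhdef
  have hk5 : 5 ≤ k := by omega
  have hkap : 0 ≤ kap V k := kap_nonneg
  have hko : ∀ w : V, 0 ≤ kap V k * om G k w * kap V k := fun w =>
    mul_nonneg (mul_nonneg hkap (om_nonneg w)) hkap
  have step1 : ∀ x ∈ Cyc G k, ∀ j : ZMod k,
      ∑ w : V, max (3 * ((Ty G k x w).card : ℝ) - 9) 0 * dis G k x j w ≤
        ∑ v ∈ T G k j x, hh j x v := by
    intro x _ j
    rw [hhdef]
    simp only
    rw [sum_comm]
    apply sum_le_sum
    intro w _
    have hc0 : 0 ≤ max (3 * ((Ty G k x w).card : ℝ) - 9) 0 := le_max_right _ _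
    unfold dis
    split_ifs with h2
    · obtain ⟨hg1, hadj⟩ := h2
      have e1 : ∀ v ∈ T G k j x, (if G.Adj (x j) w ∧ ¬ G.Adj v w
          then max (3 * ((Ty G k x w).card : ℝ) - 9) 0 * (kap V k * om G k w * kap V k) else 0) =
          (if ¬ G.Adj v w then
            max (3 * ((Ty G k x w).card : ℝ) - 9) 0 * (kap V k * om G k w * kap V k) else 0) := by
        intro v _
        by_cases hv : G.Adj v w
        · simp [hv]
        · simp [hv, hadj]
      rw [sum_congr rfl e1, ← sum_filter, sum_const, nsmul_eq_mul]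
      have h3 := tm_filter_le' (G := G) x j w
      have h4 : 0 ≤ max (3 * ((Ty G k x w).card : ℝ) - 9) 0 * (kap V k * om G k w) :=
        mul_nonneg hc0 (mul_nonneg hkap (om_nonneg w))
      have h5 := mul_le_mul_of_nonneg_left h3 h4
      calc max (3 * ((Ty G k x w).card : ℝ) - 9) 0 * (kap V k * om G k w *
            (tm G k x j * mu k ((T G k j x).filter (fun v => ¬ G.Adj v w))))
          = max (3 * ((Ty G k x w).card : ℝ) - 9) 0 * (kap V k * om G k w) *
            (tm G k x j * mu k ((T G k j x).filter (fun v => ¬ G.Adj v w))) := by ring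
        _ ≤ _ := h5
        _ = _ := by unfold mu; ring
    · rw [mul_zero]
      apply sum_nonneg
      intro v _
      split_ifs
      · exact mul_nonneg hc0 (hko w)
      · exact le_rfl
  have step2 : ∀ j : ZMod k, ∑ x ∈ Cyc G k, ∑ v ∈ T G k j x, hh j x v =
      ∑ x ∈ Cyc G k, ∑ v ∈ T G k j x, hh j (Function.update x j v) (x j) := by
    intro j
    exact (sum_swap hk5 tf j (hh j)).symm
  have step3 : ∀ x ∈ Cyc G k, ∀ j : ZMod k,
      ∑ v ∈ T G k j x, hh j (Function.update x j v) (x j) ≤
        ∑ w : V, max (3 * ((Ty G k x w).card : ℝ) - 6) 0 * (kap V k * om G k w) *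
          mu k ((T G k j x).filter (fun v => G.Adj v w)) := by
    intro x hx j
    rw [hhdef]
    simp only
    rw [sum_comm]
    apply sum_le_sum
    intro w _
    -- bound each term
    have key : ∀ v ∈ T G k j x,
        (if G.Adj (Function.update x j v j) w ∧ ¬ G.Adj (x j) w then
          max (3 * ((Ty G k (Function.update x j v) w).card : ℝ) - 9) 0 *
            (kap V k * om G k w * kap V k) else 0) ≤
        (if G.Adj v w then max (3 * ((Ty G k x w).card : ℝ) - 6) 0 *
            (kap V k * om G k w * kap V k) else 0) := by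
      intro v hv
      have hc0 : 0 ≤ max (3 * ((Ty G k x w).card : ℝ) - 6) 0 := le_max_right _ _
      rw [Function.update_self]
      by_cases hc : G.Adj v w
      · rw [if_pos hc]
        have hTy := Ty_update (x := x) (j := j) hc
        have hcard : ((Ty G k (Function.update x j v) w).card : ℝ) ≤
            ((Ty G k x w).card : ℝ) + 1 := by
          rw [hTy]
          exact_mod_cast card_insert_le j (Ty G k x w)
        split_ifs
        · apply mul_le_mul_of_nonneg_right _ (hko w)
          exact max_le_max (by linarith) le_rfl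
        · exact mul_nonneg hc0 (hko w)
      · rw [if_neg hc, if_neg (fun h => hc h.1)]
    refine (sum_le_sum key).trans (le_of_eq ?_)
    rw [← sum_filter, sum_const, nsmul_eq_mul]
    unfold mu
    ring
  have step4 : ∀ x ∈ Cyc G k, ∑ j : ZMod k, ∑ w : V,
        max (3 * ((Ty G k x w).card : ℝ) - 6) 0 * (kap V k * om G k w) *
          mu k ((T G k j x).filter (fun v => G.Adj v w)) ≤
      48 * ∑ w : V, kap V k * rr k (Ty G k x w) := by
    intro x _
    rw [sum_comm, mul_sum]
    apply sum_le_sum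
    intro w _
    rw [← mul_sum]
    have h1 := sum_T_le (G := G) hk x w
    have hc0 : 0 ≤ max (3 * ((Ty G k x w).card : ℝ) - 6) 0 := le_max_right _ _
    have h2 : max (3 * ((Ty G k x w).card : ℝ) - 6) 0 ≤ 6 * rr k (Ty G k x w) := by
      have hkr : (20 : ℝ) ≤ k := by exact_mod_cast hk
      unfold rr
      split_ifs with h0 h1
      · rw [h0]
        apply max_le
        · push_cast; linarith
        · linarith
      · rw [h1]
        apply max_le
        · norm_num
        · norm_num
      · have h3 : 2 ≤ (Ty G k x w).card := by omega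
        have h4 : (2 : ℝ) ≤ (Ty G k x w).card := by exact_mod_cast h3
        apply max_le
        · linarith
        · linarith
    have h3 := om_dg (G := G) (k := k) w
    have h4 := mul_le_mul_of_nonneg_left h1 (om_nonneg (G := G) (k := k) w)
    have h5 : om G k w * ∑ j : ZMod k, mu k ((T G k j x).filter (fun v => G.Adj v w)) ≤ 8 :=
      h4.trans h3
    have h6 := mul_le_mul_of_nonneg_left h5 (mul_nonneg hc0 hkap)
    have h7 := mul_le_mul_of_nonneg_right h2 hkap
    nlinarith
  calc ∑ x ∈ Cyc G k, ∑ j : ZMod k, ∑ w : V,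
      max (3 * ((Ty G k x w).card : ℝ) - 9) 0 * dis G k x j w
      ≤ ∑ x ∈ Cyc G k, ∑ j : ZMod k, ∑ v ∈ T G k j x, hh j x v :=
        sum_le_sum (fun x hx => sum_le_sum (fun j _ => step1 x hx j))
    _ = ∑ j : ZMod k, ∑ x ∈ Cyc G k, ∑ v ∈ T G k j x, hh j x v := sum_comm
    _ = ∑ j : ZMod k, ∑ x ∈ Cyc G k, ∑ v ∈ T G k j x, hh j (Function.update x j v) (x j) :=
        sum_congr rfl (fun j _ => step2 j)
    _ = ∑ x ∈ Cyc G k, ∑ j : ZMod k, ∑ v ∈ T G k j x, hh j (Function.update x j v) (x j) :=
        sum_comm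
    _ ≤ ∑ x ∈ Cyc G k, ∑ j : ZMod k, ∑ w : V,
        max (3 * ((Ty G k x w).card : ℝ) - 6) 0 * (kap V k * om G k w) *
          mu k ((T G k j x).filter (fun v => G.Adj v w)) :=
        sum_le_sum (fun x hx => sum_le_sum (fun j _ => step3 x hx j))
    _ ≤ ∑ x ∈ Cyc G k, 48 * ∑ w : V, kap V k * rr k (Ty G k x w) := sum_le_sum step4
    _ = 48 * ((k : ℝ) * XX G k) := by
        have hk0 : (k : ℝ) ≠ 0 := by
          have : 0 < k := by omega
          exact_mod_cast this.ne'
        unfold XX
        rw [← mul_sum, ← mul_assoc (k : ℝ), mul_one_div_cancel hk0, one_mul]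

theorem FL_le (hk : 20 ≤ k) (tf : ∀ a b c : V, G.Adj a b → G.Adj b c → ¬ G.Adj a c) :
    FL G k ≤ (k : ℝ) / ((k : ℝ) - 13) * (Vis G k + 48 * XX G k) := by
  have hkr : (20 : ℝ) ≤ k := by exact_mod_cast hk
  have hk13 : 0 < (k : ℝ) - 13 := by linarith
  have hd := dense_flow (G := G) hk tf
  have hv := rot_Vis (G := G) hk
  have hsplit : ((k : ℝ) - 13) * FL G k ≤
      (∑ x ∈ Cyc G k, ∑ j : ZMod k, ∑ w : V,
        max ((al k (Ty G k x w) : ℝ) - 4) 0 * dis G k x j w) +
      ∑ x ∈ Cyc G k, ∑ j : ZMod k, ∑ w : V,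
        max (3 * ((Ty G k x w).card : ℝ) - 9) 0 * dis G k x j w := by
    unfold FL
    rw [mul_sum, ← sum_add_distrib]
    apply sum_le_sum
    intro x _
    rw [mul_sum, ← sum_add_distrib]
    apply sum_le_sum
    intro j _
    rw [mul_sum, ← sum_add_distrib]
    apply sum_le_sum
    intro w _
    have hdis := dis_nonneg (G := G) x j w
    rw [← add_mul]
    apply mul_le_mul_of_nonneg_right _ hdis
    have h1 := card_le_al (Ty G k x w)
    have h1' : (k : ℝ) ≤ (al k (Ty G k x w) : ℝ) + 3 * ((Ty G k x w).card : ℝ) := by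
      exact_mod_cast h1
    have h2 : (al k (Ty G k x w) : ℝ) - 4 ≤ max ((al k (Ty G k x w) : ℝ) - 4) 0 := le_max_left _ _
    have h3 : 3 * ((Ty G k x w).card : ℝ) - 9 ≤ max (3 * ((Ty G k x w).card : ℝ) - 9) 0 :=
      le_max_left _ _
    linarith
  have hfin : ((k : ℝ) - 13) * FL G k ≤ (k : ℝ) * (Vis G k + 48 * XX G k) := by
    linarith
  rw [div_mul_eq_mul_div, le_div_iff₀ hk13]
  linarith

end

end Pool.Agent.ICycK
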