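import Pool.Agent.Lib.MP_131fce_co.K.Defs
import Pool.Agent.Lib.MP_131fce_co.K.Basic
import Pool.Agent.Lib.MP_131fce_co.K.Rot
import Pool.Agent.Lib.MP_131fce_co.K.Cond
import Pool.Agent.Lib.MP_131fce_co.K.Deficit

set_option autoImplicit false

/-! Induced k-cycles in triangle-free graphs, IC-8: entropies of the steps. -/

namespace Pool.Agent.ICycK

open Finset

open scoped Classical

variable {V : Type} [Fintype V] {G : SimpleGraph V} {k : ℕ} [NeZero k]

theorem ze_nonneg (l : ℕ) : 0 ≤ ze G k l :=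
  Finset.sum_nonneg fun x _ => ee_nonneg l x _

theorem entropy_F_rot (l : ℕ) (x : ZMod k → V) :
    F G k (l + 1) x ⊆ F G k l (fun i => x (i + 1)) := by
  intro w hw
  simp only [F, W, mem_filter, mem_univ, true_and] at hw ⊢
  refine ⟨fun i hi => ?_, ?_⟩
  · have := hw.1 (i + 1) (by omega)
    push_cast at this
    exact this
  · have := hw.2
    push_cast at this
    exact this

theorem Fm_anti (hk : 20 ≤ k) {l : ℕ} (hl : l + 4 ≤ k) :
    Fm G k (l + 1) ≤ Fm G k l := by
  unfold Fm
  rw [← sum_rot (G := G) (k := k) 1 (fun x => mu k (F G k l x))]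
  exact Finset.sum_le_sum fun x _ => mu_mono (entropy_F_rot l x)

theorem entropy_rot_cyl {l : ℕ} {x x' : ZMod k → V} (hx' : x' ∈ cyl G k (l + 2) x) :
    ∀ i : ℕ, i ≤ l → x' ((i : ZMod k) + 2) = x ((i : ZMod k) + 2) := by
  intro i hi
  have := (mem_filter.1 hx').2 (i + 2) (by omega)
  push_cast at this
  exact this

theorem entropy_rot_mem (a : ZMod k) {x : ZMod k → V} (hx : x ∈ Cyc G k) :
    (fun i => x (i + a)) ∈ Cyc G k := by
  rw [Cyc, mem_filter] at hx ⊢
  refine ⟨mem_univ _, ?_⟩
  have hx2 : IsCyc G k x := hx.2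
  intro i j
  have h := hx2 (i + a) (j + a)
  show G.Adj (x (i + a)) (x (j + a)) ↔ _
  rw [h]
  constructor
  · rintro (h | h)
    · left; linear_combination h
    · right; linear_combination h
  · rintro (h | h)
    · left; linear_combination h
    · right; linear_combination h

theorem Hn_sub (hk : 20 ≤ k) {l : ℕ} (h2 : 2 ≤ l) (hl : l + 5 ≤ k) :
    ze G k l ≤ Hn G k l - Hn G k (l + 2) := by
  rcases (Cyc G k).eq_empty_or_nonempty with he | ⟨x0, hx0⟩
  · simp [ze, Hn, he]
  have : Nonempty V := ⟨x0 0⟩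
  have hkap : 0 < kap V k := kap_pos
  -- rotate
  have hz : ze G k l = ∑ x ∈ Cyc G k, ee G k l (fun i => x (i + 2)) (x 0) := by
    unfold ze
    rw [← sum_rot (G := G) (k := k) 2 (fun x => ee G k l x (x ((k - 2 : ℕ) : ZMod k)))]
    refine Finset.sum_congr rfl fun x _ => ?_
    have : ((k - 2 : ℕ) : ZMod k) + 2 = 0 := by
      have h : ((k - 2 : ℕ) : ZMod k) + 2 = ((k - 2 + 2 : ℕ) : ZMod k) := by push_cast; ring
      rw [h, show k - 2 + 2 = k by omega]
      exact ZMod.natCast_self k
    simp only [this]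
  have hH : Hn G k l = ∑ x ∈ Cyc G k,
      -Real.log (pr G k l (fun i => x (i + 2)) (x ((l + 2 + 1 : ℕ) : ZMod k)) / kap V k) := by
    unfold Hn
    rw [← sum_rot (G := G) (k := k) 2
      (fun x => -Real.log (pr G k l x (x ((l + 1 : ℕ) : ZMod k)) / kap V k))]
    refine Finset.sum_congr rfl fun x _ => ?_
    have : ((l + 1 : ℕ) : ZMod k) + 2 = ((l + 2 + 1 : ℕ) : ZMod k) := by push_cast; ring
    simp only [this]
  -- the ratio
  set r : (ZMod k → V) → V → ℝ := fun x y =>
    pr G k l (fun i => x (i + 2)) y / pr G k (l + 2) x y with hr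
  have hrot : ∀ {x : ZMod k → V}, x ∈ Cyc G k → (fun i => x (i + 2)) ∈ Cyc G k :=
    fun hx => entropy_rot_mem 2 hx
  have hpp : ∀ x ∈ Cyc G k, 0 < pr G k l (fun i => x (i + 2)) (x ((l + 2 + 1 : ℕ) : ZMod k)) := by
    intro x hx
    have := pr_pos (hrot hx) l
    have e : ((l + 1 : ℕ) : ZMod k) + 2 = ((l + 2 + 1 : ℕ) : ZMod k) := by push_cast; ring
    simp only [e] at this
    exact this
  have h1 : Hn G k l - Hn G k (l + 2) =
      ∑ x ∈ Cyc G k, -Real.log (r x (x ((l + 2 + 1 : ℕ) : ZMod k))) := by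
    rw [hH]
    unfold Hn
    rw [← Finset.sum_sub_distrib]
    refine Finset.sum_congr rfl fun x hx => ?_
    have p1 := hpp x hx
    have p2 := pr_pos hx (l + 2)
    rw [hr]
    simp only
    rw [Real.log_div p1.ne' hkap.ne', Real.log_div p2.ne' hkap.ne', Real.log_div p1.ne' p2.ne']
    ring
  have h3 : ∑ x ∈ Cyc G k, (1 - r x (x ((l + 2 + 1 : ℕ) : ZMod k))) ≤
      ∑ x ∈ Cyc G k, -Real.log (r x (x ((l + 2 + 1 : ℕ) : ZMod k))) := by
    refine Finset.sum_le_sum fun x hx => ?_
    have p : 0 < r x (x ((l + 2 + 1 : ℕ) : ZMod k)) := div_pos (hpp x hx) (pr_pos hx (l + 2))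
    have := Real.log_le_sub_one_of_pos p
    linarith
  have h4 : ∑ x ∈ Cyc G k, r x (x ((l + 2 + 1 : ℕ) : ZMod k)) =
      ∑ x ∈ Cyc G k, ∑ y : V, pr G k (l + 2) x y * r x y := by
    apply tower (l + 2) r
    intro x hx x' hx' y
    rw [hr]
    simp only
    rw [pr_congr hx' y]
    congr 1
    apply pr_congr
    rw [cyl, mem_filter]
    have hx'C : x' ∈ Cyc G k := (mem_filter.1 hx').1
    exact ⟨hrot hx'C, entropy_rot_cyl hx'⟩
  have h5 : ∀ x ∈ Cyc G k, ∑ y : V, pr G k (l + 2) x y * r x y ≤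
      1 - ee G k l (fun i => x (i + 2)) (x 0) := by
    intro x hx
    have hs := sum_pr (hrot hx) l
    have hle : ∀ y : V, pr G k (l + 2) x y * r x y ≤
        if y ∈ nb G (x 0) then 0 else pr G k l (fun i => x (i + 2)) y := by
      intro y
      have hp : 0 ≤ pr G k l (fun i => x (i + 2)) y := pr_nonneg _ _ _
      split_ifs with hy
      · have : pr G k (l + 2) x y = 0 := by
          apply pr_eq_zero (by omega) (by omega)
          intro hF
          have hW := (mem_filter.1 (mem_filter.1 hF).1).2 0 (by omega)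
          simp only [nb, mem_filter, mem_univ, true_and] at hy
          simp only [Nat.cast_zero] at hW
          exact hW hy
        rw [this, zero_mul]
      · rcases eq_or_ne (pr G k (l + 2) x y) 0 with h0 | h0
        · rw [h0, zero_mul]; exact hp
        · rw [hr]
          simp only
          rw [mul_div_cancel₀ _ h0]
    calc ∑ y : V, pr G k (l + 2) x y * r x y
        ≤ ∑ y : V, (if y ∈ nb G (x 0) then 0 else pr G k l (fun i => x (i + 2)) y) :=
          Finset.sum_le_sum fun y _ => hle y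
      _ = 1 - ee G k l (fun i => x (i + 2)) (x 0) := by
          rw [← hs, ee]
          have e : ∑ z ∈ nb G (x 0), pr G k l (fun i => x (i + 2)) z =
              ∑ z : V, if z ∈ nb G (x 0) then pr G k l (fun i => x (i + 2)) z else 0 := by
            rw [← Finset.sum_filter]
            congr 1
            ext z; simp
          rw [e, ← Finset.sum_sub_distrib]
          refine Finset.sum_congr rfl fun y _ => ?_
          split_ifs <;> ring
  have h6 : ∑ x ∈ Cyc G k, r x (x ((l + 2 + 1 : ℕ) : ZMod k)) ≤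
      ∑ x ∈ Cyc G k, (1 - ee G k l (fun i => x (i + 2)) (x 0)) := by
    rw [h4]
    exact Finset.sum_le_sum h5
  rw [h1, hz]
  rw [Finset.sum_sub_distrib] at h3 h6
  linarith

theorem Fm_le (hk : 20 ≤ k) {l m : ℕ} (hlm : l ≤ m) (hm : m + 3 ≤ k) :
    Fm G k m ≤ Fm G k l := by
  induction m, hlm using Nat.le_induction with
  | base => exact le_rfl
  | succ m hlm ih => exact (Fm_anti hk (by omega)).trans (ih (by omega))

theorem entropy_telescope (f : ℕ → ℝ) (N : ℕ) :
    ∑ l ∈ Icc 3 (N + 3), (f l - f (l + 2)) = f 3 + f 4 - f (N + 4) - f (N + 5) := by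
  induction N with
  | zero => simp
  | succ N ih =>
    rw [show N + 1 + 3 = (N + 3) + 1 by ring, Finset.sum_Icc_succ_top (by omega), ih]
    have e1 : N + 3 + 1 + 2 = N + 6 := by ring
    have e2 : N + 1 + 4 = N + 5 := by ring
    have e3 : N + 1 + 5 = N + 6 := by ring
    have e4 : N + 3 + 1 = N + 4 := by ring
    rw [e1, e2, e3, e4]; ring

theorem ze_sum (hk : 20 ≤ k) :
    ∑ l ∈ Icc 3 (k - 5), ze G k l ≤ 2 * Gam G k + cc G k (k - 4) + cc G k (k - 3) := by
  have h1 : ∑ l ∈ Icc 3 (k - 5), ze G k l ≤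
      ∑ l ∈ Icc 3 (k - 5), (Hn G k l - Hn G k (l + 2)) := by
    refine Finset.sum_le_sum fun l hl => ?_
    rw [mem_Icc] at hl
    exact Hn_sub hk (by omega) (by omega)
  have h2 := entropy_telescope (Hn G k) (k - 8)
  have e1 : k - 8 + 3 = k - 5 := by omega
  have e2 : k - 8 + 4 = k - 4 := by omega
  have e3 : k - 8 + 5 = k - 3 := by omega
  rw [e1, e2, e3] at h2
  have c2 := cc_eq (G := G) (k := k) (by omega) (l := 3) (by omega)
  have c3 := cc_eq (G := G) (k := k) (by omega) (l := 4) (by omega)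
  have c4 := cc_eq (G := G) (k := k) (by omega) (l := k - 4) (by omega)
  have c5 := cc_eq (G := G) (k := k) (by omega) (l := k - 3) (by omega)
  have n2 := cc_nonneg (G := G) (k := k) 3
  have n3 := cc_nonneg (G := G) (k := k) 4
  have f0 := Fm_le (G := G) hk (l := 2) (m := 3) (by omega) (by omega)
  have f1 := Fm_le (G := G) hk (l := 2) (m := 4) (by omega) (by omega)
  have f2 := Fm_le (G := G) hk (l := k - 4) (m := k - 3) (by omega) (by omega)
  unfold Gam
  linarith

end Pool.Agent.ICycK
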