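import Pool.Agent.Lib.MP_131fce_co.K.Defs
import Pool.Agent.Lib.MP_131fce_co.K.Basic
import Pool.Agent.Lib.MP_131fce_co.K.Rot
import Pool.Agent.Lib.MP_131fce_co.K.RealIneq
import Pool.Agent.Lib.MP_131fce_co.K.Deficit
import Pool.Agent.Lib.MP_131fce_co.K.Vis12

/-!
# Induced k-cycles (MP_131fce_co), IC-13: splitting the gain
-/

set_option autoImplicit false

namespace Pool.Agent.ICycK

open Finset
open scoped Classical


noncomputable section

variable {V : Type} [Fintype V] {G : SimpleGraph V} {k : ℕ} [NeZero k]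

theorem gl_dg_pos {x : ZMod k → V} (hx : x ∈ Cyc G k) (j : ZMod k) :
    0 < dg G k (x j) := by
  have hadj : G.Adj (x j) (x (j + 1)) := by
    have h := (mem_filter.mp hx).2
    exact (h j (j + 1)).2 (Or.inl rfl)
  have : Nonempty V := ⟨x j⟩
  have hk0 : 0 < kap V k := kap_pos
  have hc : 0 < (nb G (x j)).card := card_pos.mpr ⟨x (j + 1), by simp [nb, hadj]⟩
  have hc' : (0 : ℝ) < ((nb G (x j)).card : ℝ) := by exact_mod_cast hc
  unfold dg mu
  positivity

theorem gl_T_rot (a j : ZMod k) (x : ZMod k → V) :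
    T G k j (fun i => x (i + a)) = T G k (j + a) x := by
  ext w
  simp only [T, mem_filter, mem_univ, true_and]
  constructor
  · intro h
    ext i
    have h1 := mem_Ty_rot (G := G) a x w (i - a)
    rw [h, sub_add_cancel] at h1
    rw [← h1]
    simp only [mem_insert, mem_singleton]
    constructor
    · rintro (h2 | h2)
      · left; rw [sub_eq_iff_eq_add] at h2; rw [h2]; ring
      · right; rw [sub_eq_iff_eq_add] at h2; rw [h2]; ring
    · rintro (h2 | h2)
      · left; rw [h2]; ring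
      · right; rw [h2]; ring
  · intro h
    ext i
    rw [mem_Ty_rot (G := G) a x w i, h]
    simp only [mem_insert, mem_singleton]
    constructor
    · rintro (h2 | h2)
      · left; rw [← add_left_inj a, h2]; ring
      · right; rw [← add_left_inj a, h2]; ring
    · rintro (h2 | h2)
      · left; rw [h2]; ring
      · right; rw [h2]; ring

theorem gl_sum_pos (g : (ZMod k → V) → ZMod k → ℝ)
    (hg : ∀ (a : ZMod k) (x : ZMod k → V) (j : ZMod k), g (fun i => x (i + a)) j = g x (j + a))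
    (c : ZMod k) :
    ∑ x ∈ Cyc G k, ∑ j : ZMod k, g x j = (k : ℝ) * ∑ x ∈ Cyc G k, g x c := by
  rw [sum_comm]
  have h1 : ∀ j : ZMod k, ∑ x ∈ Cyc G k, g x j = ∑ x ∈ Cyc G k, g x c := by
    intro j
    rw [← sum_rot (j - c) (fun x => g x c)]
    refine sum_congr rfl fun x _ => ?_
    rw [hg]
    congr 1
    ring
  rw [sum_congr rfl fun j _ => h1 j, sum_const, card_univ, ZMod.card, nsmul_eq_mul]

/-- the truncated sum at a position of small degree -/
theorem gl_good {x : ZMod k → V} {j : ZMod k} (hg : dg G k (x j) ≤ 8) :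
    tm G k x j * ∑ v ∈ T G k j x, kap V k * eps G k (x j) v ≤
      Real.exp 1 * ∑ w : V, dis G k x j w := by
  have h1 : tm G k x j * ∑ v ∈ T G k j x, kap V k * eps G k (x j) v ≤
      tm G k x j * ∑ v ∈ T G k j x, kap V k * (Real.exp 1 * aw G k (x j) v) := by
    refine mul_le_mul_of_nonneg_left (sum_le_sum fun v _ => ?_) (tm_nonneg x j)
    exact mul_le_mul_of_nonneg_left (min_le_right _ _) kap_nonneg
  refine h1.trans (le_of_eq ?_)
  have h2 : ∀ v, kap V k * (Real.exp 1 * aw G k (x j) v) = ∑ w ∈ nb G (x j),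
      Real.exp 1 * (kap V k * om G k w * (kap V k * (if ¬ G.Adj v w then (1 : ℝ) else 0))) := by
    intro v
    unfold aw
    rw [sum_filter, mul_sum, mul_sum, mul_sum]
    refine sum_congr rfl fun w _ => ?_
    split_ifs <;> ring
  have h3 : ∀ w : V, dis G k x j w = if w ∈ nb G (x j) then
      kap V k * om G k w * (tm G k x j *
        (kap V k * ∑ v ∈ T G k j x, (if ¬ G.Adj v w then (1 : ℝ) else 0)))
      else 0 := by
    intro w
    unfold dis
    have h4 : (dg G k (x j) ≤ 8 ∧ G.Adj (x j) w) ↔ w ∈ nb G (x j) := by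
      simp [nb, hg]
    rw [sum_boole]
    simp only [h4]
    rfl
  rw [sum_congr rfl fun v _ => h2 v, sum_comm, sum_congr rfl fun w _ => h3 w,
    sum_ite_mem, univ_inter, mul_sum, mul_sum]
  refine sum_congr rfl fun w _ => ?_
  rw [← mul_sum, ← mul_sum, ← mul_sum]
  ring

theorem gl_JJ_nonneg {x : ZMod k → V} (hx : x ∈ Cyc G k) (j : ZMod k) :
    0 ≤ JJ (dg G k (x j) / 2) :=
  le_trans (sq_nonneg _) (JJ_ge (half_pos (gl_dg_pos hx j)))

theorem gl_point {x : ZMod k → V} (hx : x ∈ Cyc G k) (j : ZMod k) :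
    ∑ v ∈ T G k j x, kap V k * eps G k (x j) v ≤
      max 0 (mu k (T G k j x) - 6 / 5) +
        6 / 7 * JJ (dg G k (x j) / 2) + Real.exp 1 * ∑ w : V, dis G k x j w := by
  have hJ := gl_JJ_nonneg hx j
  have hD : 0 ≤ Real.exp 1 * ∑ w : V, dis G k x j w :=
    mul_nonneg (Real.exp_pos 1).le (sum_nonneg fun w _ => dis_nonneg x j w)
  have hT : ∑ v ∈ T G k j x, kap V k * eps G k (x j) v ≤ mu k (T G k j x) := by
    have h1 : ∑ v ∈ T G k j x, kap V k * eps G k (x j) v ≤ ∑ _v ∈ T G k j x, kap V k := by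
      refine sum_le_sum fun v _ => ?_
      have h2 : eps G k (x j) v ≤ 1 := min_le_left _ _
      calc kap V k * eps G k (x j) v ≤ kap V k * 1 := mul_le_mul_of_nonneg_left h2 kap_nonneg
        _ = kap V k := mul_one _
    rw [← mu_eq_sum] at h1
    exact h1
  have ht0 := tm_nonneg (G := G) x j
  have ht1 := tm_le_one (G := G) x j
  have htm := tm_mul (G := G) x j
  -- the part above the truncation
  have hexc : (1 - tm G k x j) * mu k (T G k j x) ≤ max 0 (mu k (T G k j x) - 6 / 5) := by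
    unfold tm
    split_ifs with h
    · rw [sub_self, zero_mul]
      exact le_max_left _ _
    · rw [not_le] at h
      refine le_trans (le_of_eq ?_) (le_max_right _ _)
      have hne : mu k (T G k j x) ≠ 0 := by
        intro h0
        rw [h0] at h
        norm_num at h
      rw [sub_mul, one_mul, div_mul_cancel₀ _ hne]
  have hsplit : ∑ v ∈ T G k j x, kap V k * eps G k (x j) v ≤
      tm G k x j * (∑ v ∈ T G k j x, kap V k * eps G k (x j) v) +
        (1 - tm G k x j) * mu k (T G k j x) := by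
    have := mul_le_mul_of_nonneg_left hT (sub_nonneg.2 ht1)
    linarith
  by_cases hg : dg G k (x j) ≤ 8
  · have h1 := gl_good hg
    linarith
  · have h3 : 8 < dg G k (x j) := not_le.mp hg
    have h5 : 7 / 5 ≤ JJ (dg G k (x j) / 2) := JJ_four (by linarith)
    have h6 := mul_le_mul_of_nonneg_left hT ht0
    linarith

theorem gl_mass (hk : 20 ≤ k) :
    ∑ x ∈ Cyc G k, ∑ j : ZMod k, max 0 (mu k (T G k j x) - 6 / 5) ≤
      13 / 4 * (k : ℝ) / ((k : ℝ) - 5) * ∑ l ∈ Icc 3 (k - 3), cc G k l := by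
  have hk5 : 5 ≤ k := by omega
  set A := ∑ x ∈ Cyc G k, ∑ j : ZMod k, max 0 (mu k (T G k j x) - 6 / 5)
    with hA
  have h1 : ∀ l ∈ Icc 3 (k - 3), A ≤ (k : ℝ) * (13 / 4 * cc G k l) := by
    intro l hl
    rw [mem_Icc] at hl
    have hl3 : l + 3 ≤ k := by omega
    have h2 : A = (k : ℝ) * ∑ x ∈ Cyc G k,
        max 0 (mu k (T G k ((l + 1 : ℕ) : ZMod k) x) - 6 / 5) := by
      rw [hA]
      refine gl_sum_pos (G := G) (fun x j => max 0 (mu k (T G k j x) - 6 / 5)) ?_
        ((l + 1 : ℕ) : ZMod k)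
      intro a x j
      simp only [gl_T_rot]
    rw [h2]
    refine mul_le_mul_of_nonneg_left ?_ (Nat.cast_nonneg k)
    refine le_trans (sum_le_sum fun x _ => ?_) (mass_le hk5 hl3)
    have h3 : mu k (T G k ((l + 1 : ℕ) : ZMod k) x) ≤ mu k (F G k l x) :=
      mu_mono (T_subset_F hk5 hl3)
    exact max_le_max le_rfl (by linarith)
  have h5 : ((Icc 3 (k - 3)).card : ℝ) = (k : ℝ) - 5 := by
    rw [Nat.card_Icc]
    have h6 : k - 3 + 1 - 3 = k - 5 := by omega
    rw [h6, Nat.cast_sub hk5]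
    norm_num
  have h7 : ((k : ℝ) - 5) * A ≤ (k : ℝ) * (13 / 4 * ∑ l ∈ Icc 3 (k - 3), cc G k l) := by
    rw [← h5, ← nsmul_eq_mul, ← sum_const, mul_sum, mul_sum]
    exact sum_le_sum h1
  have hk20 : (20 : ℝ) ≤ (k : ℝ) := by exact_mod_cast hk
  have h8 : (0 : ℝ) < (k : ℝ) - 5 := by linarith
  rw [div_mul_eq_mul_div, le_div_iff₀ h8]
  linarith [h7]

theorem Gain_le (hk : 20 ≤ k) :
    Gain G k ≤ 13 / 4 * (k : ℝ) / ((k : ℝ) - 5) * ∑ l ∈ Icc 3 (k - 3), cc G k l +
      6 / 7 * (k : ℝ) * calJ G k + Real.exp 1 * FL G k := by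
  have hk5 : 5 ≤ k := by omega
  have h1 : Gain G k ≤ ∑ x ∈ Cyc G k, ∑ j : ZMod k,
      (max 0 (mu k (T G k j x) - 6 / 5) +
        6 / 7 * JJ (dg G k (x j) / 2) + Real.exp 1 * ∑ w : V, dis G k x j w) :=
    sum_le_sum fun x hx => sum_le_sum fun j _ => gl_point hx j
  have h2 : ∑ x ∈ Cyc G k, ∑ j : ZMod k, 6 / 7 * JJ (dg G k (x j) / 2) =
      6 / 7 * (k : ℝ) * calJ G k := by
    have h3 := gl_sum_pos (G := G) (k := k) (fun x j => 6 / 7 * JJ (dg G k (x j) / 2))
      (by intro a x j; rfl) 1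
    rw [h3]
    unfold calJ
    rw [← mul_sum]
    ring
  have h4 : ∑ x ∈ Cyc G k, ∑ j : ZMod k, Real.exp 1 * ∑ w : V, dis G k x j w =
      Real.exp 1 * FL G k := by
    unfold FL
    rw [mul_sum]
    refine sum_congr rfl fun x _ => ?_
    rw [mul_sum]
  have h5 := gl_mass (G := G) hk
  simp only [sum_add_distrib] at h1
  rw [h2, h4] at h1
  linarith

theorem Lam_le : Lam G k ≤ 1 / 7 * calJ G k := by
  unfold Lam calJ
  rw [mul_sum]
  exact sum_le_sum fun x hx => lam_le (gl_dg_pos hx 1)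

end

end Pool.Agent.ICycK
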