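import Pool.Agent.Lib.MP_131fce_co.K.Defs
import Pool.Agent.Lib.MP_131fce_co.K.Basic
import Pool.Agent.Lib.MP_131fce_co.K.Rot
import Pool.Agent.Lib.MP_131fce_co.K.Cond
import Pool.Agent.Lib.MP_131fce_co.K.RealIneq
import Pool.Agent.Lib.MP_131fce_co.K.Deficit
import Pool.Agent.Lib.MP_131fce_co.K.SubProb
import Pool.Agent.Lib.MP_131fce_co.K.LogCard

/-!
# IC-14c: the Gibbs inequality (MP_131fce_co)
-/

set_option autoImplicit false

namespace Pool.Agent.ICycK

open Finset
open scoped Classical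

variable {V : Type} [Fintype V] {G : SimpleGraph V} {k : ℕ} [NeZero k]

private theorem log_aux {n A E S1 O S2 : ℝ} (hn : 0 < n) (hA : 0 < A) (hE : 0 < E) (hS1 : 0 < S1)
    (hO : 0 < O) (hS2 : 0 < S2) : Real.log ((1 / n) * (1 / A) * (E / S1) * (O / S2)) =
      -Real.log n - Real.log A + Real.log E - Real.log S1 + Real.log O - Real.log S2 := by
  rw [Real.log_mul (by positivity) (by positivity),
    Real.log_mul (by positivity) (by positivity), Real.log_mul (by positivity) (by positivity),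
    Real.log_div one_ne_zero hn.ne', Real.log_div one_ne_zero hA.ne',
    Real.log_div hE.ne' hS1.ne', Real.log_div hO.ne' hS2.ne', Real.log_one]
  ring

private theorem log_scale {t S : ℝ} (ht : 0 < t) (hS : 0 < S) :
    Real.log S = Real.log (t * S) - Real.log t := by
  rw [Real.log_mul ht.ne' hS.ne']; ring

private theorem log_half {t S : ℝ} (ht : 0 < t) (hS : 0 < S) :
    Real.log S = Real.log (t * S / 2) + Real.log 2 - Real.log t := by
  rw [Real.log_div (by positivity) two_ne_zero, Real.log_mul ht.ne' hS.ne']; ring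

private theorem log_card {n t K : ℝ} (hn : 0 < n) (hK : 0 < K) (h : t = K / n) :
    Real.log n = Real.log K - Real.log t := by
  rw [h, Real.log_div hK.ne' hn.ne']; ring

private theorem sum_split {α : Type} (S : Finset α) (c : ℝ) (a j b f t m e : α → ℝ) :
    ∑ x ∈ S, (c + ((a x - j x) + b x + f x + t x + m x + e x)) =
      (S.card : ℝ) * c + ((∑ x ∈ S, a x - ∑ x ∈ S, j x) + ∑ x ∈ S, b x + ∑ x ∈ S, f x +
        ∑ x ∈ S, t x + ∑ x ∈ S, m x + ∑ x ∈ S, e x) := by
  simp only [sum_add_distrib, sum_sub_distrib, sum_const, nsmul_eq_mul]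

omit [NeZero k] in
private theorem om_pos (y : V) : 0 < om G k y := by
  unfold om
  have : (0 : ℝ) < max 1 (dg G k y / 8) := lt_of_lt_of_le one_pos (le_max_left _ _)
  positivity

omit [NeZero k] in
private theorem om_le_one (y : V) : om G k y ≤ 1 := by
  unfold om
  have h : (1 : ℝ) ≤ max 1 (dg G k y / 8) := le_max_left _ _
  rw [div_le_one (by linarith)]
  exact h

/-- `aw (x 2) (x 0) ≤ mu (F 2)` -/
private theorem aw_le_mu_F (hk : 5 ≤ k) (tf : ∀ a b c : V, G.Adj a b → G.Adj b c → ¬ G.Adj a c)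
    {x : ZMod k → V} (hx : x ∈ Cyc G k) :
    aw G k (x 2) (x 0) ≤ mu k (F G k 2 x) := by
  have hkap : 0 ≤ kap V k := kap_nonneg
  have h12 : G.Adj (x ((1 : ℕ) : ZMod k)) (x ((2 : ℕ) : ZMod k)) := by
    rw [adj_nat hk hx (by omega) (by omega)]
    left; rfl
  unfold aw mu
  refine mul_le_mul_of_nonneg_left ?_ hkap
  have h1 : ∑ y ∈ (nb G (x 2)).filter (fun y => ¬ G.Adj (x 0) y), om G k y ≤
      ∑ _y ∈ (nb G (x 2)).filter (fun y => ¬ G.Adj (x 0) y), (1 : ℝ) :=
    sum_le_sum (fun y _ => om_le_one y)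
  refine h1.trans ?_
  rw [sum_const, nsmul_eq_mul, mul_one]
  norm_cast
  apply card_le_card
  intro y hy
  simp only [nb, mem_filter, mem_univ, true_and] at hy
  have hcast2 : ((2 : ℕ) : ZMod k) = 2 := by norm_cast
  have hcast1 : ((1 : ℕ) : ZMod k) = 1 := by norm_cast
  simp only [F, W, mem_filter, mem_univ, true_and]
  rw [hcast2] at h12 ⊢
  rw [hcast1] at h12
  refine ⟨?_, hy.1⟩
  intro i hi
  interval_cases i
  · rw [Nat.cast_zero]; exact hy.2
  · rw [hcast1]
    exact fun h => tf _ _ _ h12 hy.1 h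


private theorem aw_nonneg (u z : V) : 0 ≤ aw G k u z := by
  unfold aw
  exact mul_nonneg kap_nonneg (sum_nonneg (fun y _ => (om_pos y).le))

private theorem eps_nonneg (u z : V) : 0 ≤ eps G k u z := by
  unfold eps
  exact le_min zero_le_one (mul_nonneg (Real.exp_pos 1).le (aw_nonneg u z))

/-- pointwise form of the Gibbs inequality -/
private theorem gibbs_pointwise (hk : 20 ≤ k) (tf : ∀ a b c : V, G.Adj a b → G.Adj b c → ¬ G.Adj a c)
    {x : ZMod k → V} (hx : x ∈ Cyc G k) :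
    0 < qq G k x ∧ -Real.log (qq G k x) + Real.log ((cyl G k 3 x).card : ℝ) ≤
      (Real.log (2 * (k : ℝ)) - (k : ℝ) * Real.log (kap V k)) +
      (((dg G k (x 1) / 2 - 1) - JJ (dg G k (x 1) / 2)) + (Zk G k x - 1) +
        (mu k (F G k 2 x) - 1) + (mu k (T G k (-1) x) - 1) +
        Real.log (max 1 (dg G k (x 3) / 8)) +
        ∑ l ∈ Icc 3 (k - 3), -Real.log (pr G k l x (x ((l + 1 : ℕ) : ZMod k)) / kap V k)) := by
  have : Nonempty V := ⟨x 0⟩
  have hk5 : 5 ≤ k := by omega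
  have hkap : 0 < kap V k := kap_pos
  have hk0 : (0 : ℝ) < (k : ℝ) := by exact_mod_cast (by omega : 0 < k)
  have hn : (0 : ℝ) < (Fintype.card V : ℝ) := by exact_mod_cast Fintype.card_pos
  have hc1 : ((1 : ℕ) : ZMod k) = 1 := by norm_cast
  have hc2 : ((2 : ℕ) : ZMod k) = 2 := by norm_cast
  have hc3 : ((3 : ℕ) : ZMod k) = 3 := by norm_cast
  have h10 : G.Adj (x 1) (x 0) := by
    have := (adj_nat hk5 hx (i := 1) (j := 0) (by omega) (by omega)).2 (Or.inr (Or.inl rfl))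
    rwa [hc1, Nat.cast_zero] at this
  have h23 : G.Adj (x 2) (x 3) := by
    have := (adj_nat hk5 hx (i := 2) (j := 3) (by omega) (by omega)).2 (Or.inl rfl)
    rwa [hc2, hc3] at this
  have h03 : ¬ G.Adj (x 0) (x 3) := by
    intro h
    have := (adj_nat hk5 hx (i := 0) (j := 3) (by omega) (by omega)).1
      (by rw [Nat.cast_zero, hc3]; exact h)
    omega
  -- positivity of the factors
  have hA : (0 : ℝ) < ((nb G (x 1)).card : ℝ) := by
    have : x 0 ∈ nb G (x 1) := by simp [nb, h10]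
    exact_mod_cast card_pos.2 ⟨_, this⟩
  have hE : 0 < eps G k (x 2) (x 0) := eps_pos_of_cyc hk hx
  have hS1 : 0 < ∑ z ∈ nb G (x 1), eps G k (x 2) z := by
    have : x 0 ∈ nb G (x 1) := by simp [nb, h10]
    exact lt_of_lt_of_le hE (single_le_sum (f := fun z => eps G k (x 2) z)
      (fun z _ => eps_nonneg _ _) this)
  have hO : 0 < om G k (x 3) := om_pos _
  have hS2 : 0 < ∑ y ∈ (nb G (x 2)).filter (fun y => ¬ G.Adj (x 0) y), om G k y := by
    have : x 3 ∈ (nb G (x 2)).filter (fun y => ¬ G.Adj (x 0) y) := by simp [nb, h23, h03]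
    exact lt_of_lt_of_le hO (single_le_sum (f := fun y => om G k y)
      (fun y _ => (om_pos y).le) this)
  have hTn : (T G k (-1) x).Nonempty := ⟨x (-1), self_mem_T hk5 hx (-1)⟩
  have hT : (0 : ℝ) < ((T G k (-1) x).card : ℝ) := Nat.cast_pos.2 (card_pos.2 hTn)
  have hqpos : 0 < qq G k x := mul_pos (mul_pos (mul_pos (one_div_pos.2 hn) (one_div_pos.2 hA))
    (div_pos hE hS1)) (div_pos hO hS2)
  refine ⟨hqpos, ?_⟩
  have hlogq := log_aux hn hA hE hS1 hO hS2
  have e1 := log_card hn hk0 (rfl : kap V k = (k : ℝ) / (Fintype.card V : ℝ))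
  have e2 := log_half hkap hA
  have e3 := log_scale hkap hS1
  have e4 := log_scale hkap hS2
  have e6 := log_scale hkap hT
  have e5 : Real.log (om G k (x 3)) = -Real.log (max 1 (dg G k (x 3) / 8)) := by
    unfold om
    rw [one_div, Real.log_inv]
  have hZpos : 0 < Zk G k x := mul_pos hkap hS1
  have hawpos : 0 < aw G k (x 2) (x 0) := mul_pos hkap hS2
  have hmTpos : 0 < mu k (T G k (-1) x) := mul_pos hkap hT
  have e7 : ∑ l ∈ Icc 3 (k - 3), -Real.log (pr G k l x (x ((l + 1 : ℕ) : ZMod k))) =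
      ∑ l ∈ Icc 3 (k - 3), -Real.log (pr G k l x (x ((l + 1 : ℕ) : ZMod k)) / kap V k) -
        ((k : ℝ) - 5) * Real.log (kap V k) := by
    have hcard : ((Icc 3 (k - 3)).card : ℝ) = (k : ℝ) - 5 := by
      rw [Nat.card_Icc]
      have : k - 3 + 1 - 3 = k - 5 := by omega
      rw [this, Nat.cast_sub (by omega)]
      norm_num
    rw [← hcard, ← nsmul_eq_mul, ← sum_const, ← sum_sub_distrib]
    refine sum_congr rfl (fun l _ => ?_)
    rw [Real.log_div (pr_pos hx l).ne' hkap.ne']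
    ring
  have hcyl := log_card_cyl hk tf hx
  -- inequalities
  have i1 : Real.log (Zk G k x) ≤ Zk G k x - 1 := Real.log_le_sub_one_of_pos hZpos
  have i2 : Real.log (mu k (T G k (-1) x)) ≤ mu k (T G k (-1) x) - 1 :=
    Real.log_le_sub_one_of_pos hmTpos
  have i3 : -Real.log (eps G k (x 2) (x 0)) + Real.log (aw G k (x 2) (x 0)) ≤
      mu k (F G k 2 x) - 1 := by
    have h := kernel_absorb hawpos
    have h3 := aw_le_mu_F hk5 tf hx
    unfold eps
    linarith
  have i4 : Real.log (dg G k (x 1) / 2) = dg G k (x 1) / 2 - 1 - JJ (dg G k (x 1) / 2) := by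
    unfold JJ; ring
  have i5 : Real.log (2 * (k : ℝ)) = Real.log 2 + Real.log (k : ℝ) :=
    Real.log_mul two_ne_zero hk0.ne'
  have hdg : kap V k * ((nb G (x 1)).card : ℝ) / 2 = dg G k (x 1) / 2 := rfl
  have hZ : kap V k * ∑ z ∈ nb G (x 1), eps G k (x 2) z = Zk G k x := rfl
  have haw : kap V k * ∑ y ∈ (nb G (x 2)).filter (fun y => ¬ G.Adj (x 0) y), om G k y =
    aw G k (x 2) (x 0) := rfl
  have hmT : kap V k * ((T G k (-1) x).card : ℝ) = mu k (T G k (-1) x) := rfl
  rw [hdg] at e2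
  rw [hZ] at e3
  rw [haw] at e4
  rw [hmT] at e6
  have hq' : Real.log (qq G k x) = _ := hlogq
  rw [hq', hcyl, e7]
  linarith

theorem gibbs (hk : 20 ≤ k) (tf : ∀ a b c : V, G.Adj a b → G.Adj b c → ¬ G.Adj a c)
    (hne : (Cyc G k).Nonempty) :
    NN G k * Real.log (NN G k * kap V k ^ k / (2 * (k : ℝ))) ≤
      ∑ x ∈ Cyc G k, ((dg G k (x 1) / 2 - 1) + (Zk G k x - 1) +
        ∑ l ∈ Icc 2 (k - 3), (mu k (F G k l x) - 1) + (mu k (T G k (-1) x) - 1)) -
      calJ G k - ∑ l ∈ Icc 3 (k - 3), cc G k l + Lam G k := by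
  obtain ⟨x0, hx0⟩ := hne
  have : Nonempty V := ⟨x0 0⟩
  have hk5 : 5 ≤ k := by omega
  have hkap : 0 < kap V k := kap_pos
  have hk0 : (0 : ℝ) < (k : ℝ) := by exact_mod_cast (by omega : 0 < k)
  have hN : 0 < NN G k := by
    unfold NN
    exact_mod_cast card_pos.2 ⟨x0, hx0⟩
  have hNdef : NN G k = ∑ _x ∈ Cyc G k, (1 : ℝ) := by
    unfold NN; rw [sum_const, nsmul_eq_mul, mul_one]
  -- Gibbs
  have hg : NN G k * Real.log (NN G k) ≤
      ∑ x ∈ Cyc G k, (-Real.log (qq G k x) + Real.log ((cyl G k 3 x).card : ℝ)) := by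
    have hsub := sub_prob (G := G) hk ⟨x0, hx0⟩
    have h1 : ∀ x ∈ Cyc G k, Real.log (NN G k) - (-Real.log (qq G k x) +
        Real.log ((cyl G k 3 x).card : ℝ)) ≤ NN G k * (qq G k x / ((cyl G k 3 x).card : ℝ)) - 1 := by
      intro x hx
      have hq := (gibbs_pointwise hk tf hx).1
      have hc : (0 : ℝ) < ((cyl G k 3 x).card : ℝ) := by
        exact_mod_cast card_pos.2 ⟨x, self_mem_cyl hx 3⟩
      have h2 : Real.log (NN G k * (qq G k x / ((cyl G k 3 x).card : ℝ))) ≤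
          NN G k * (qq G k x / ((cyl G k 3 x).card : ℝ)) - 1 :=
        Real.log_le_sub_one_of_pos (by positivity)
      rw [Real.log_mul hN.ne' (by positivity), Real.log_div hq.ne' hc.ne'] at h2
      linarith
    have h3 := sum_le_sum h1
    rw [sum_sub_distrib, sum_sub_distrib, ← mul_sum] at h3
    have h4 : NN G k * ∑ x ∈ Cyc G k, qq G k x / ((cyl G k 3 x).card : ℝ) ≤ NN G k := by
      have := mul_le_mul_of_nonneg_left hsub hN.le
      rwa [mul_one] at this
    rw [sum_const, nsmul_eq_mul] at h3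
    have h5 : ((Cyc G k).card : ℝ) = NN G k := rfl
    rw [h5, ← hNdef] at h3
    linarith
  have hp := sum_le_sum (fun x hx => (gibbs_pointwise (G := G) (k := k) (x := x) hk tf hx).2)
  rw [sum_split (Cyc G k) (Real.log (2 * (k : ℝ)) - (k : ℝ) * Real.log (kap V k))
    (fun x => dg G k (x 1) / 2 - 1) (fun x => JJ (dg G k (x 1) / 2)) (fun x => Zk G k x - 1)
    (fun x => mu k (F G k 2 x) - 1) (fun x => mu k (T G k (-1) x) - 1)
    (fun x => Real.log (max 1 (dg G k (x 3) / 8)))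
    (fun x => ∑ l ∈ Icc 3 (k - 3),
      -Real.log (pr G k l x (x ((l + 1 : ℕ) : ZMod k)) / kap V k))] at hp
  -- rotation of the last weight
  have hrot : ∑ x ∈ Cyc G k, Real.log (max 1 (dg G k (x 3) / 8)) = Lam G k := by
    unfold Lam
    rw [← sum_rot (G := G) (k := k) 2 (fun x => Real.log (max 1 (dg G k (x 1) / 8)))]
    refine sum_congr rfl (fun x _ => ?_)
    have : (1 : ZMod k) + 2 = 3 := by norm_num
    simp only [this]
  -- entropies
  have hent : ∑ x ∈ Cyc G k, ∑ l ∈ Icc 3 (k - 3),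
      -Real.log (pr G k l x (x ((l + 1 : ℕ) : ZMod k)) / kap V k) =
      ∑ x ∈ Cyc G k, ∑ l ∈ Icc 3 (k - 3), (mu k (F G k l x) - 1) -
        ∑ l ∈ Icc 3 (k - 3), cc G k l := by
    rw [sum_comm, sum_comm (s := Cyc G k), ← sum_sub_distrib]
    refine sum_congr rfl (fun l hl => ?_)
    rw [mem_Icc] at hl
    rw [cc_eq hk5 (by omega), sum_sub_distrib, ← hNdef]
    unfold Hn Fm
    ring
  have hsplit : ∀ x : ZMod k → V, ∑ l ∈ Icc 2 (k - 3), (mu k (F G k l x) - 1) =
      (mu k (F G k 2 x) - 1) + ∑ l ∈ Icc 3 (k - 3), (mu k (F G k l x) - 1) := by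
    intro x
    rw [← Finset.add_sum_Ioc_eq_sum_Icc (by omega : 2 ≤ k - 3)]
    congr 1
  have hlog : Real.log (NN G k * kap V k ^ k / (2 * (k : ℝ))) =
      Real.log (NN G k) + (k : ℝ) * Real.log (kap V k) - Real.log (2 * (k : ℝ)) := by
    rw [Real.log_div (by positivity) (by positivity), Real.log_mul hN.ne' (by positivity),
      Real.log_pow]
  rw [hlog]
  have hp' := hg.trans hp
  have h5 : ((Cyc G k).card : ℝ) = NN G k := rfl
  have hcalJ : ∑ x ∈ Cyc G k, JJ (dg G k (x 1) / 2) = calJ G k := rfl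
  rw [hrot, hent, h5, hcalJ] at hp'
  have hrhs : ∑ x ∈ Cyc G k, ((dg G k (x 1) / 2 - 1) + (Zk G k x - 1) +
        ∑ l ∈ Icc 2 (k - 3), (mu k (F G k l x) - 1) + (mu k (T G k (-1) x) - 1)) =
      ∑ x ∈ Cyc G k, (dg G k (x 1) / 2 - 1) + ∑ x ∈ Cyc G k, (Zk G k x - 1) +
        (∑ x ∈ Cyc G k, (mu k (F G k 2 x) - 1) +
          ∑ x ∈ Cyc G k, ∑ l ∈ Icc 3 (k - 3), (mu k (F G k l x) - 1)) +
        ∑ x ∈ Cyc G k, (mu k (T G k (-1) x) - 1) := by
    rw [sum_add_distrib, sum_add_distrib, sum_add_distrib]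
    congr 2
    rw [← sum_add_distrib]
    exact sum_congr rfl (fun x _ => hsplit x)
  rw [hrhs]
  linarith

end Pool.Agent.ICycK
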