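import Pool.Agent.Lib.MP_131fce_co.K.Defs
import Pool.Agent.Lib.MP_131fce_co.K.Basic
import Pool.Agent.Lib.MP_131fce_co.K.Cond
import Pool.Agent.Lib.MP_131fce_co.K.RealIneq
import Pool.Agent.Lib.MP_131fce_co.K.Deficit

/-!
# Induced k-cycles in triangle-free graphs: hazard versus decrement
-/

set_option autoImplicit false

namespace Pool.Agent.ICycK

open Finset
open scoped Classical

variable {V : Type} [Fintype V] {G : SimpleGraph V} {k : ℕ} [NeZero k]

/-- the part of the hazard that is not matched by the decrement is at high density -/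
theorem ee_le_high (hk : 5 ≤ k) {l : ℕ} (hl : l + 3 ≤ k) (x : ZMod k → V) (y : V) :
    max 0 (ee G k l x y - 6 / 5 * (rho G k l x y - rho G k (l + 1) x y)) ≤
      ∑ z : V, pr G k l x z * (th G k l x z * (if G.Adj z y then (1 : ℝ) else 0)) := by
  have hterm : ∀ z : V, 0 ≤ pr G k l x z * (th G k l x z * (if G.Adj z y then (1 : ℝ) else 0)) := by
    intro z
    refine mul_nonneg (pr_nonneg _ _ _) (mul_nonneg (th_nonneg _ _ _) ?_)
    split_ifs <;> norm_num
  apply max_le (Finset.sum_nonneg (fun z _ => hterm z))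
  set S := (F G k l x).filter (fun z => G.Adj y z) with hS
  have he : ee G k l x y = ∑ z ∈ S, pr G k l x z := by
    unfold ee nb
    rw [hS, Finset.sum_filter, Finset.sum_filter]
    symm
    refine Finset.sum_subset (Finset.subset_univ _) (fun z _ hz => ?_)
    rw [pr_eq_zero hk hl hz, ite_self]
  have hhigh : ∑ z ∈ S, pr G k l x z * th G k l x z ≤
      ∑ z : V, pr G k l x z * (th G k l x z * (if G.Adj z y then (1 : ℝ) else 0)) := by
    have h1 : ∑ z ∈ S, pr G k l x z * th G k l x z = ∑ z ∈ S, pr G k l x z *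
        (th G k l x z * (if G.Adj z y then (1 : ℝ) else 0)) := by
      refine Finset.sum_congr rfl (fun z hz => ?_)
      rw [hS, Finset.mem_filter] at hz
      rw [if_pos hz.2.symm, mul_one]
    rw [h1]
    exact Finset.sum_le_sum_of_subset_of_nonneg (Finset.subset_univ _) (fun z _ _ => hterm z)
  have hlow : ∑ z ∈ S, pr G k l x z ≤ 6 / 5 * mu k S + ∑ z ∈ S, pr G k l x z * th G k l x z := by
    rw [mu_eq_sum, Finset.mul_sum, ← Finset.sum_add_distrib]
    refine Finset.sum_le_sum (fun z _ => ?_)
    have := pr_mul_one_sub_th (G := G) l x z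
    linarith
  rw [rho_sub]
  rw [← he] at hlow
  linarith

theorem El_le (hk : 20 ≤ k) {l : ℕ} (hl : l + 4 ≤ k) :
    El G k l ≤ 18 / 5 * cc G k l + 13 / 4 * cc G k (l + 1) := by
  have hk0 : 0 ≤ kap V k := kap_nonneg
  -- step 1: pass to high densities and exchange the sums
  have hA : El G k l ≤ ∑ x ∈ Cyc G k, ∑ z : V, pr G k l x z *
      (th G k l x z * mu k ((W G k (l + 1) x).filter (fun y => G.Adj z y))) := by
    unfold El
    refine Finset.sum_le_sum (fun x _ => ?_)
    have h3 : ∑ y ∈ W G k (l + 1) x, kap V k *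
        max 0 (ee G k l x y - 6 / 5 * (rho G k l x y - rho G k (l + 1) x y)) ≤
        ∑ y ∈ W G k (l + 1) x, kap V k * (∑ z : V, pr G k l x z *
        (th G k l x z * (if G.Adj z y then (1 : ℝ) else 0))) := by
      refine Finset.sum_le_sum (fun y _ => mul_le_mul_of_nonneg_left ?_ hk0)
      exact ee_le_high (by omega) (by omega) x y
    refine h3.trans (le_of_eq ?_)
    have h5 : ∀ y, kap V k * (∑ z : V, pr G k l x z *
        (th G k l x z * (if G.Adj z y then (1 : ℝ) else 0))) =
        ∑ z : V, (pr G k l x z * (th G k l x z * (if G.Adj z y then kap V k else 0))) := by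
      intro y
      rw [Finset.mul_sum]
      refine Finset.sum_congr rfl (fun z _ => ?_)
      split_ifs <;> ring
    rw [Finset.sum_congr rfl (fun y _ => h5 y), Finset.sum_comm]
    refine Finset.sum_congr rfl (fun z _ => ?_)
    rw [← Finset.mul_sum, ← Finset.mul_sum, mu_eq_sum, Finset.sum_filter]
  -- step 2: tower
  have htow := tower (G := G) (k := k) l (fun (x : ZMod k → V) (z : V) =>
      (th G k l x z * mu k ((W G k (l + 1) x).filter (fun y => G.Adj z y)))) (by
    intro x _ x' hx' z
    have hW : W G k (l + 1) x' = W G k (l + 1) x := W_congr le_rfl hx'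
    show th G k l x' z * _ = _
    rw [th_congr hx', hW])
  have hB : ∑ x ∈ Cyc G k, ∑ z : V, pr G k l x z *
      (th G k l x z * mu k ((W G k (l + 1) x).filter (fun y => G.Adj z y))) =
      ∑ x ∈ Cyc G k, th G k l x (x ((l + 1 : ℕ) : ZMod k)) * mu k (F G k (l + 1) x) :=
    htow.symm
  -- step 3: split according to the size of the next candidate set
  have hC : ∑ x ∈ Cyc G k, th G k l x (x ((l + 1 : ℕ) : ZMod k)) * mu k (F G k (l + 1) x) ≤
      6 / 5 * ∑ x ∈ Cyc G k, th G k l x (x ((l + 1 : ℕ) : ZMod k)) +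
      ∑ x ∈ Cyc G k, max 0 (mu k (F G k (l + 1) x) - 6 / 5) := by
    rw [Finset.mul_sum, ← Finset.sum_add_distrib]
    refine Finset.sum_le_sum (fun x _ => ?_)
    have h7 := th_nonneg (G := G) l x (x ((l + 1 : ℕ) : ZMod k))
    have h8 := th_le_one (G := G) l x (x ((l + 1 : ℕ) : ZMod k))
    have h9 : mu k (F G k (l + 1) x) - 6 / 5 ≤ max 0 (mu k (F G k (l + 1) x) - 6 / 5) :=
      le_max_right _ _
    have h10 : 0 ≤ max 0 (mu k (F G k (l + 1) x) - 6 / 5) := le_max_left _ _
    nlinarith
  have hD := sum_th (G := G) (k := k) (by omega) (by omega : l + 3 ≤ k)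
  have hE := mass_le (G := G) (k := k) (by omega) (by omega : l + 1 + 3 ≤ k)
  rw [hB] at hA
  linarith

end Pool.Agent.ICycK
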