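import Pool.Agent.Lib.MP_131fce_co.K.Defs
import Pool.Agent.Lib.MP_131fce_co.K.Basic
import Pool.Agent.Lib.MP_131fce_co.K.Cond
import Pool.Agent.Lib.MP_131fce_co.K.RealIneq
import Pool.Agent.Lib.MP_131fce_co.K.Deficit

/-!
# Induced k-cycles in triangle-free graphs: weighted hits
-/

set_option autoImplicit false

namespace Pool.Agent.ICycK

open Finset
open scoped Classical

variable {V : Type} [Fintype V] {G : SimpleGraph V} {k : ℕ} [NeZero k]

/-- `Il` as a sum over the candidates of the next step -/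
theorem Il_eq (tf : ∀ a b c : V, G.Adj a b → G.Adj b c → ¬ G.Adj a c) (l : ℕ) :
    Il G k l = ∑ x ∈ Cyc G k, ∑ y ∈ F G k (l + 1) x,
      kap V k * kf (rho G k (l + 2) x y) := by
  have htow := tower (G := G) (k := k) l (fun (x : ZMod k → V) (z : V) => ∑ y ∈ W G k (l + 1) x,
        kap V k * ((if G.Adj z y then (1 : ℝ) else 0) * kf (rho G k (l + 1) x y))) (by
    intro x _ x' hx' z
    have hW : W G k (l + 1) x' = W G k (l + 1) x := W_congr le_rfl hx'
    have hr : ∀ y, rho G k (l + 1) x' y = rho G k (l + 1) x y := rho_congr le_rfl hx'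
    simp only [hW, hr])
  have h1 : Il G k l = ∑ x ∈ Cyc G k, ∑ z : V, pr G k l x z * ∑ y ∈ W G k (l + 1) x,
        kap V k * ((if G.Adj z y then (1 : ℝ) else 0) * kf (rho G k (l + 1) x y)) := by
    unfold Il
    refine Finset.sum_congr rfl (fun x _ => ?_)
    have h2 : ∀ z : V, pr G k l x z * ∑ y ∈ W G k (l + 1) x,
        kap V k * ((if G.Adj z y then (1 : ℝ) else 0) * kf (rho G k (l + 1) x y)) =
        ∑ y ∈ W G k (l + 1) x, (pr G k l x z * (if G.Adj z y then (1 : ℝ) else 0)) *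
          (kap V k * kf (rho G k (l + 1) x y)) := by
      intro z
      rw [Finset.mul_sum]
      refine Finset.sum_congr rfl (fun y _ => ?_)
      ring
    rw [Finset.sum_congr rfl (fun z _ => h2 z), Finset.sum_comm]
    refine Finset.sum_congr rfl (fun y _ => ?_)
    rw [← Finset.sum_mul, ← ee_eq_ite]
    ring
  rw [h1]
  refine htow.symm.trans ?_
  refine Finset.sum_congr rfl (fun x _ => ?_)
  unfold F
  rw [Finset.sum_filter]
  refine Finset.sum_congr rfl (fun y _ => ?_)
  by_cases h : G.Adj (x ((l + 1 : ℕ) : ZMod k)) y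
  · have hrho : rho G k (l + 2) x y = rho G k (l + 1) x y := rho_succ_of_adj tf h
    rw [if_pos h, if_pos h, hrho, one_mul]
  · rw [if_neg h, if_neg h, zero_mul, mul_zero]

theorem Il_le (hk : 20 ≤ k) (tf : ∀ a b c : V, G.Adj a b → G.Adj b c → ¬ G.Adj a c) {l : ℕ}
    (hl : l + 5 ≤ k) :
    Il G k l ≤ 48 / 5 * cc G k (l + 2) + 6617 / 500 * cc G k (l + 1) := by
  have hk0 : 0 ≤ kap V k := kap_nonneg
  rw [Il_eq tf l]
  have hkf : ∀ (x : ZMod k → V) (y : V), 0 ≤ kf (rho G k (l + 2) x y) := by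
    intro x y
    exact kf_nonneg (mu_nonneg _)
  have hA : ∑ x ∈ Cyc G k, ∑ y ∈ F G k (l + 1) x, kap V k * kf (rho G k (l + 2) x y) ≤
      6 / 5 * (∑ x ∈ Cyc G k, ∑ y : V, pr G k (l + 1) x y * kf (rho G k (l + 2) x y)) +
      6617 / 500 * cc G k (l + 1) := by
    unfold cc
    rw [Finset.mul_sum, Finset.mul_sum, ← Finset.sum_add_distrib]
    refine Finset.sum_le_sum (fun x _ => ?_)
    have h3 : ∑ y ∈ F G k (l + 1) x, pr G k (l + 1) x y * kf (rho G k (l + 2) x y) ≤
        ∑ y : V, pr G k (l + 1) x y * kf (rho G k (l + 2) x y) := by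
      refine Finset.sum_le_sum_of_subset_of_nonneg (Finset.subset_univ _) (fun y _ _ => ?_)
      exact mul_nonneg (pr_nonneg _ _ _) (hkf x y)
    have h5 : ∑ y ∈ F G k (l + 1) x, kap V k * kf (rho G k (l + 2) x y) ≤
        6 / 5 * (∑ y ∈ F G k (l + 1) x, pr G k (l + 1) x y * kf (rho G k (l + 2) x y)) +
        6617 / 500 * ∑ y ∈ F G k (l + 1) x, kap V k * Phi (pr G k (l + 1) x y / kap V k) := by
      rw [Finset.mul_sum, Finset.mul_sum, ← Finset.sum_add_distrib]
      refine Finset.sum_le_sum (fun y _ => ?_)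
      have h6 := kap_le (G := G) (l + 1) x y
      have h7 := term_nonneg (G := G) (l + 1) x y
      have h8 := kf_le_cap (rho G k (l + 2) x y)
      have h9 := mul_le_mul_of_nonneg_right h6 (hkf x y)
      have h10 := mul_le_mul_of_nonneg_left h8 h7
      nlinarith
    linarith
  have htow := tower (G := G) (k := k) (l + 1) (fun (x : ZMod k → V) (y : V) =>
        kf (rho G k (l + 2) x y)) (by
    intro x _ x' hx' y
    have hr : ∀ y, rho G k (l + 2) x' y = rho G k (l + 2) x y := rho_congr le_rfl hx'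
    simp only [hr])
  have hB : ∑ x ∈ Cyc G k, ∑ y : V, pr G k (l + 1) x y * kf (rho G k (l + 2) x y) ≤
        8 * cc G k (l + 2) := by
    refine htow.symm.le.trans ?_
    refine le_trans (le_of_eq ?_) (kf_mass (G := G) (by omega) (by omega : l + 2 + 3 ≤ k))
    refine Finset.sum_congr rfl (fun x _ => ?_)
    rw [mu_F_eq_rho (l + 2) x]
  linarith

end Pool.Agent.ICycK
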