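import Pool.Agent.Lib.MP_131fce_co.K.Defs
import Pool.Agent.Lib.MP_131fce_co.K.Basic
import Pool.Agent.Lib.MP_131fce_co.K.Cond
import Pool.Agent.Lib.MP_131fce_co.K.Deficit
import Pool.Agent.Lib.MP_131fce_co.K.Vis12

/-! # Visible disagreement after the first hit -/

set_option autoImplicit false
set_option linter.unusedSectionVars false

namespace Pool.Agent.ICycK

open Finset
open scoped Classical

variable {V : Type} [Fintype V] {G : SimpleGraph V} {k : ℕ} [NeZero k]

/-- the trivial bound on the disagreement -/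
theorem v3_dis_le (x : ZMod k → V) (j : ZMod k) (w : V) :
    dis G k x j w ≤
      (if dg G k (x j) ≤ 8 ∧ G.Adj (x j) w then 6 / 5 * kap V k * om G k w else 0) := by
  unfold dis
  by_cases h : dg G k (x j) ≤ 8 ∧ G.Adj (x j) w
  · rw [if_pos h, if_pos h]
    have h1 := tm_filter_le (G := G) x j w
    have h2 : 0 ≤ kap V k * om G k w := mul_nonneg kap_nonneg (om_nonneg w)
    nlinarith
  · rw [if_neg h, if_neg h]

/-- part (a): high density of the vertex at position `m + 1` -/
theorem v3_partA (hk : 5 ≤ k) {m : ℕ} (hm : m + 3 ≤ k) (S : Finset ℕ) :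
    ∑ x ∈ Cyc G k, ∑ s ∈ S, ∑ w ∈ F G k s x,
      th G k m x (x ((m + 1 : ℕ) : ZMod k)) *
      (if dg G k (x ((m + 1 : ℕ) : ZMod k)) ≤ 8 ∧ G.Adj (x ((m + 1 : ℕ) : ZMod k)) w
        then 6 / 5 * kap V k * om G k w else 0) ≤ 144 / 5 * cc G k m := by
  have h1 : ∀ x : ZMod k → V, ∑ s ∈ S, ∑ w ∈ F G k s x,
      th G k m x (x ((m + 1 : ℕ) : ZMod k)) *
      (if dg G k (x ((m + 1 : ℕ) : ZMod k)) ≤ 8 ∧ G.Adj (x ((m + 1 : ℕ) : ZMod k)) w
        then 6 / 5 * kap V k * om G k w else 0) ≤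
      48 / 5 * th G k m x (x ((m + 1 : ℕ) : ZMod k)) := by
    intro x
    have hth := th_nonneg (G := G) m x (x ((m + 1 : ℕ) : ZMod k))
    simp only [← Finset.mul_sum]
    rw [mul_comm (48 / 5 : ℝ)]
    refine mul_le_mul_of_nonneg_left ?_ hth
    by_cases hD : dg G k (x ((m + 1 : ℕ) : ZMod k)) ≤ 8
    swap
    · simp only [hD, false_and, if_false, Finset.sum_const_zero]
      norm_num
    simp only [hD, true_and]
    have hdisj : (S : Set ℕ).PairwiseDisjoint (fun s => F G k s x) := by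
      intro a _ b _ hab
      rcases lt_or_gt_of_ne hab with h | h
      · exact F_disjoint h x
      · exact (F_disjoint h x).symm
    rw [← Finset.sum_biUnion hdisj]
    have h2 : ∑ w ∈ S.biUnion (fun s => F G k s x),
        (if G.Adj (x ((m + 1 : ℕ) : ZMod k)) w then 6 / 5 * kap V k * om G k w else 0) ≤
        ∑ w : V, (if G.Adj (x ((m + 1 : ℕ) : ZMod k)) w then 6 / 5 * kap V k else 0) := by
      refine (Finset.sum_le_sum_of_subset_of_nonneg (Finset.subset_univ _) ?_).trans
        (Finset.sum_le_sum fun w _ => ?_)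
      · intro w _ _
        split_ifs
        · exact mul_nonneg (mul_nonneg (by norm_num) kap_nonneg) (om_nonneg w)
        · exact le_rfl
      · split_ifs
        · exact mul_le_of_le_one_right (mul_nonneg (by norm_num) kap_nonneg) (om_le_one w)
        · exact le_rfl
    refine h2.trans ?_
    have h3 : ∑ w : V, (if G.Adj (x ((m + 1 : ℕ) : ZMod k)) w then 6 / 5 * kap V k else 0) =
        6 / 5 * dg G k (x ((m + 1 : ℕ) : ZMod k)) := by
      rw [← Finset.sum_filter, Finset.sum_const, nsmul_eq_mul]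
      unfold dg mu nb
      ring
    rw [h3]; linarith
  calc _ ≤ ∑ x ∈ Cyc G k, 48 / 5 * th G k m x (x ((m + 1 : ℕ) : ZMod k)) :=
        Finset.sum_le_sum fun x _ => h1 x
    _ = 48 / 5 * ∑ x ∈ Cyc G k, th G k m x (x ((m + 1 : ℕ) : ZMod k)) := by
        rw [Finset.mul_sum]
    _ ≤ 48 / 5 * (3 * cc G k m) := by
        have := sum_th (G := G) hk hm
        linarith
    _ = 144 / 5 * cc G k m := by ring

/-- part (b): the rest -/
theorem v3_partB (hk : 5 ≤ k) {s m : ℕ} (hs : s + 2 ≤ m) (hm : m + 3 ≤ k) :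
    ∑ x ∈ Cyc G k, ∑ w ∈ F G k s x,
      (1 - th G k m x (x ((m + 1 : ℕ) : ZMod k))) *
      (if G.Adj (x ((m + 1 : ℕ) : ZMod k)) w then 6 / 5 * kap V k * om G k w else 0) ≤
    ∑ x ∈ Cyc G k, ∑ w ∈ F G k s x, 36 / 25 * kap V k * om G k w *
      mu k ((F G k m x).filter (fun y => G.Adj y w)) := by
  rw [tower m (fun x y => ∑ w ∈ F G k s x, (1 - th G k m x y) *
      (if G.Adj y w then 6 / 5 * kap V k * om G k w else 0))
    (fun x _ x' hx' y => by
      simp only [th_congr hx', F_congr (show s ≤ m by omega) hx'])]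
  refine Finset.sum_le_sum fun x _ => ?_
  calc ∑ y : V, pr G k m x y * ∑ w ∈ F G k s x, (1 - th G k m x y) *
      (if G.Adj y w then 6 / 5 * kap V k * om G k w else 0)
      = ∑ y ∈ F G k m x, pr G k m x y * ∑ w ∈ F G k s x, (1 - th G k m x y) *
      (if G.Adj y w then 6 / 5 * kap V k * om G k w else 0) := by
        refine (Finset.sum_subset (Finset.subset_univ (F G k m x)) ?_).symm
        intro y _ hy
        rw [pr_eq_zero hk hm hy, zero_mul]
    _ ≤ ∑ y ∈ F G k m x, ∑ w ∈ F G k s x,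
        (if G.Adj y w then 36 / 25 * kap V k * om G k w * kap V k else 0) := by
        refine Finset.sum_le_sum fun y _ => ?_
        rw [Finset.mul_sum]
        refine Finset.sum_le_sum fun w _ => ?_
        split_ifs with h
        · have h1 := pr_mul_one_sub_th (G := G) m x y
          have h2 : 0 ≤ 6 / 5 * kap V k * om G k w :=
            mul_nonneg (mul_nonneg (by norm_num) kap_nonneg) (om_nonneg w)
          have h3 := mul_le_mul_of_nonneg_right h1 h2
          linarith
        · rw [mul_zero, mul_zero]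
    _ = ∑ w ∈ F G k s x, 36 / 25 * kap V k * om G k w *
      mu k ((F G k m x).filter (fun y => G.Adj y w)) := by
        rw [Finset.sum_comm]
        refine Finset.sum_congr rfl fun w _ => ?_
        rw [mu_eq_sum, Finset.sum_filter, Finset.mul_sum]
        refine Finset.sum_congr rfl fun y _ => ?_
        split_ifs <;> simp

/-- the candidate sets of later steps are disjoint subsets of `W (s+2)` -/
theorem v3_sum_F (s : ℕ) (S : Finset ℕ) (hS : ∀ m ∈ S, s + 2 ≤ m) (x : ZMod k → V) (w : V) :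
    ∑ m ∈ S, mu k ((F G k m x).filter (fun y => G.Adj y w)) ≤
      mu k ((W G k (s + 2) x).filter (fun y => G.Adj y w)) := by
  have hdisj : (S : Set ℕ).PairwiseDisjoint
      (fun m => (F G k m x).filter (fun y => G.Adj y w)) := by
    intro a _ b _ hab
    rcases lt_or_gt_of_ne hab with h | h
    · exact Finset.disjoint_filter_filter (F_disjoint h x)
    · exact (Finset.disjoint_filter_filter (F_disjoint h x)).symm
  have h1 : ∑ m ∈ S, mu k ((F G k m x).filter (fun y => G.Adj y w)) =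
      mu k (S.biUnion (fun m => (F G k m x).filter (fun y => G.Adj y w))) := by
    unfold mu
    rw [Finset.card_biUnion (fun a ha b hb hab => hdisj ha hb hab), Nat.cast_sum, Finset.mul_sum]
  rw [h1]
  refine mu_mono ?_
  intro y hy
  rw [Finset.mem_biUnion] at hy
  obtain ⟨m, hm, hy⟩ := hy
  rw [Finset.mem_filter] at hy ⊢
  exact ⟨W_anti (hS m hm) x (F_subset_W m x hy.1), hy.2⟩

/-- part (b), last step -/
theorem v3_partB' (s : ℕ) :
    ∑ x ∈ Cyc G k, ∑ w ∈ F G k s x, 36 / 25 * kap V k * om G k w *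
      mu k ((W G k (s + 2) x).filter (fun y => G.Adj y w)) ≤
    216 / 125 * Jl G k s + 936 / 25 * cc G k s := by
  have h1 : ∀ x ∈ Cyc G k, ∑ w ∈ F G k s x, 36 / 25 * kap V k * om G k w *
      mu k ((W G k (s + 2) x).filter (fun y => G.Adj y w)) ≤
      216 / 125 * (∑ z : V, pr G k s x z * mu k ((W G k (s + 1) x).filter
        (fun y => ¬ G.Adj (x ((s + 1 : ℕ) : ZMod k)) y ∧ G.Adj z y))) +
      936 / 25 * ∑ w ∈ F G k s x, kap V k * Phi (pr G k s x w / kap V k) := by
    intro x _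
    have h2 : ∑ z ∈ F G k s x, pr G k s x z * mu k ((W G k (s + 1) x).filter
        (fun y => ¬ G.Adj (x ((s + 1 : ℕ) : ZMod k)) y ∧ G.Adj z y)) ≤
        ∑ z : V, pr G k s x z * mu k ((W G k (s + 1) x).filter
        (fun y => ¬ G.Adj (x ((s + 1 : ℕ) : ZMod k)) y ∧ G.Adj z y)) :=
      Finset.sum_le_sum_of_subset_of_nonneg (Finset.subset_univ _) fun z _ _ =>
        mul_nonneg (pr_nonneg s x z) (mu_nonneg _)
    have h3 : ∑ w ∈ F G k s x, 36 / 25 * kap V k * om G k w *
      mu k ((W G k (s + 2) x).filter (fun y => G.Adj y w)) ≤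
      ∑ w ∈ F G k s x, (216 / 125 * (pr G k s x w * mu k ((W G k (s + 1) x).filter
        (fun y => ¬ G.Adj (x ((s + 1 : ℕ) : ZMod k)) y ∧ G.Adj w y))) +
        936 / 25 * (kap V k * Phi (pr G k s x w / kap V k))) := by
      refine Finset.sum_le_sum fun w _ => ?_
      have h4 : (W G k (s + 2) x).filter (fun y => G.Adj y w) =
          (W G k (s + 1) x).filter
            (fun y => ¬ G.Adj (x ((s + 1 : ℕ) : ZMod k)) y ∧ G.Adj w y) := by
        rw [show s + 2 = (s + 1) + 1 from rfl, W_succ, Finset.filter_filter]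
        refine Finset.filter_congr fun y _ => ?_
        rw [G.adj_comm y w]
      have hom0 := om_nonneg (G := G) (k := k) w
      have hom1 := om_le_one (G := G) (k := k) w
      have h5 : mu k ((W G k (s + 2) x).filter (fun y => G.Adj y w)) ≤ dg G k w := by
        refine mu_mono ?_
        intro y hy
        rw [Finset.mem_filter] at hy
        simp only [nb, Finset.mem_filter, Finset.mem_univ, true_and]
        exact hy.2.symm
      have h6 := om_dg (G := G) (k := k) w
      have h8 : om G k w * mu k ((W G k (s + 2) x).filter (fun y => G.Adj y w)) ≤ 8 :=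
        (mul_le_mul_of_nonneg_left h5 hom0).trans h6
      rw [h4] at h8 ⊢
      set M := mu k ((W G k (s + 1) x).filter
            (fun y => ¬ G.Adj (x ((s + 1 : ℕ) : ZMod k)) y ∧ G.Adj w y)) with hM
      have hM0 : 0 ≤ M := mu_nonneg _
      have hpr := pr_nonneg (G := G) s x w
      have hP := term_nonneg (G := G) s x w
      have hp := kap_le (G := G) s x w
      have h9 : 0 ≤ om G k w * M := mul_nonneg hom0 hM0
      have h10 : om G k w * M ≤ M := mul_le_of_le_one_left hM0 hom1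
      have a1 := mul_le_mul_of_nonneg_right hp h9
      have a2 := mul_le_mul_of_nonneg_left h8 hP
      have a3 := mul_le_mul_of_nonneg_left h10 hpr
      nlinarith
    refine h3.trans ?_
    rw [Finset.sum_add_distrib, ← Finset.mul_sum, ← Finset.mul_sum]
    linarith
  refine (Finset.sum_le_sum h1).trans ?_
  rw [Finset.sum_add_distrib, ← Finset.mul_sum, ← Finset.mul_sum, ← Jl_eq']
  exact le_rfl

/-- first hit at `s`, later positions -/
theorem Vis3 (hk : 20 ≤ k) :
    ∑ x ∈ Cyc G k, ∑ s ∈ Icc 3 (k - 7), ∑ j ∈ Icc (s + 3) (k - 4), ∑ w ∈ F G k s x,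
      dis G k x ((j : ℕ) : ZMod k) w ≤
      216 / 125 * ∑ s ∈ Icc 3 (k - 7), Jl G k s + 1656 / 25 * ∑ s ∈ Icc 3 (k - 3), cc G k s := by
  -- reindex `j = m + 1`
  have hre : ∀ (s : ℕ) (f : ℕ → ℝ), ∑ j ∈ Icc (s + 3) (k - 4), f j =
      ∑ m ∈ Icc (s + 2) (k - 5), f (m + 1) := by
    intro s f
    have : Icc (s + 3) (k - 4) = (Icc (s + 2) (k - 5)).image (fun m => m + 1) := by
      ext j
      simp only [Finset.mem_Icc, Finset.mem_image]
      constructor
      · intro h
        exact ⟨j - 1, by omega, by omega⟩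
      · rintro ⟨m, hm, rfl⟩
        omega
    rw [this, Finset.sum_image (fun a _ b _ h => by simpa using h)]
  have hb0 : ∀ (w : V), 0 ≤ 6 / 5 * kap V k * om G k w := fun w =>
    mul_nonneg (mul_nonneg (by norm_num) kap_nonneg) (om_nonneg w)
  have hnn : ∀ (x : ZMod k → V) (m : ℕ) (w : V), (0 : ℝ) ≤
      th G k m x (x ((m + 1 : ℕ) : ZMod k)) *
      (if dg G k (x ((m + 1 : ℕ) : ZMod k)) ≤ 8 ∧ G.Adj (x ((m + 1 : ℕ) : ZMod k)) w
        then 6 / 5 * kap V k * om G k w else 0) := by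
    intro x m w
    refine mul_nonneg (th_nonneg _ _ _) ?_
    split_ifs
    · exact hb0 w
    · exact le_rfl
  have hsplit : ∀ (x : ZMod k → V) (m : ℕ) (w : V),
      dis G k x ((m + 1 : ℕ) : ZMod k) w ≤
      th G k m x (x ((m + 1 : ℕ) : ZMod k)) *
      (if dg G k (x ((m + 1 : ℕ) : ZMod k)) ≤ 8 ∧ G.Adj (x ((m + 1 : ℕ) : ZMod k)) w
        then 6 / 5 * kap V k * om G k w else 0) +
      (1 - th G k m x (x ((m + 1 : ℕ) : ZMod k))) *
      (if G.Adj (x ((m + 1 : ℕ) : ZMod k)) w then 6 / 5 * kap V k * om G k w else 0) := by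
    intro x m w
    refine (v3_dis_le x _ w).trans ?_
    have h0 := hb0 w
    have h1 : 0 ≤ 1 - th G k m x (x ((m + 1 : ℕ) : ZMod k)) := by
      linarith [th_le_one (G := G) m x (x ((m + 1 : ℕ) : ZMod k))]
    by_cases hA : G.Adj (x ((m + 1 : ℕ) : ZMod k)) w
    · rw [if_pos hA]
      by_cases hD : dg G k (x ((m + 1 : ℕ) : ZMod k)) ≤ 8
      · rw [if_pos ⟨hD, hA⟩]
        linarith
      · rw [if_neg (fun h => hD h.1), mul_zero, zero_add]
        exact mul_nonneg h1 h0
    · rw [if_neg hA, if_neg (fun h => hA h.2)]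
      linarith
  -- part (a)
  have hA : ∑ x ∈ Cyc G k, ∑ s ∈ Icc 3 (k - 7), ∑ m ∈ Icc (s + 2) (k - 5), ∑ w ∈ F G k s x,
      th G k m x (x ((m + 1 : ℕ) : ZMod k)) *
      (if dg G k (x ((m + 1 : ℕ) : ZMod k)) ≤ 8 ∧ G.Adj (x ((m + 1 : ℕ) : ZMod k)) w
        then 6 / 5 * kap V k * om G k w else 0) ≤ 144 / 5 * ∑ s ∈ Icc 3 (k - 3), cc G k s := by
    calc _ ≤ ∑ x ∈ Cyc G k, ∑ s ∈ Icc 3 (k - 7), ∑ m ∈ Icc 3 (k - 5), ∑ w ∈ F G k s x,
          th G k m x (x ((m + 1 : ℕ) : ZMod k)) *
          (if dg G k (x ((m + 1 : ℕ) : ZMod k)) ≤ 8 ∧ G.Adj (x ((m + 1 : ℕ) : ZMod k)) w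
            then 6 / 5 * kap V k * om G k w else 0) := by
          refine Finset.sum_le_sum fun x _ => Finset.sum_le_sum fun s hs =>
            Finset.sum_le_sum_of_subset_of_nonneg ?_ fun m _ _ =>
              Finset.sum_nonneg fun w _ => hnn x m w
          rw [Finset.mem_Icc] at hs
          exact Finset.Icc_subset_Icc (by omega) le_rfl
      _ = ∑ m ∈ Icc 3 (k - 5), ∑ x ∈ Cyc G k, ∑ s ∈ Icc 3 (k - 7), ∑ w ∈ F G k s x,
          th G k m x (x ((m + 1 : ℕ) : ZMod k)) *
          (if dg G k (x ((m + 1 : ℕ) : ZMod k)) ≤ 8 ∧ G.Adj (x ((m + 1 : ℕ) : ZMod k)) w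
            then 6 / 5 * kap V k * om G k w else 0) := by
          symm
          rw [Finset.sum_comm]
          exact Finset.sum_congr rfl fun x _ => Finset.sum_comm
      _ ≤ ∑ m ∈ Icc 3 (k - 5), 144 / 5 * cc G k m := by
          refine Finset.sum_le_sum fun m hm => ?_
          rw [Finset.mem_Icc] at hm
          exact v3_partA (by omega) (by omega) _
      _ ≤ ∑ m ∈ Icc 3 (k - 3), 144 / 5 * cc G k m := by
          refine Finset.sum_le_sum_of_subset_of_nonneg
            (Finset.Icc_subset_Icc le_rfl (by omega)) fun m _ _ => ?_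
          have := cc_nonneg (G := G) (k := k) m
          positivity
      _ = _ := by rw [Finset.mul_sum]
  -- part (b)
  have hB : ∑ x ∈ Cyc G k, ∑ s ∈ Icc 3 (k - 7), ∑ m ∈ Icc (s + 2) (k - 5), ∑ w ∈ F G k s x,
      (1 - th G k m x (x ((m + 1 : ℕ) : ZMod k))) *
      (if G.Adj (x ((m + 1 : ℕ) : ZMod k)) w then 6 / 5 * kap V k * om G k w else 0) ≤
      216 / 125 * ∑ s ∈ Icc 3 (k - 7), Jl G k s + 936 / 25 * ∑ s ∈ Icc 3 (k - 3), cc G k s := by
    have hstep : ∀ s ∈ Icc 3 (k - 7), ∑ x ∈ Cyc G k, ∑ m ∈ Icc (s + 2) (k - 5),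
        ∑ w ∈ F G k s x,
        (1 - th G k m x (x ((m + 1 : ℕ) : ZMod k))) *
        (if G.Adj (x ((m + 1 : ℕ) : ZMod k)) w then 6 / 5 * kap V k * om G k w else 0) ≤
        216 / 125 * Jl G k s + 936 / 25 * cc G k s := by
      intro s hs
      rw [Finset.mem_Icc] at hs
      rw [Finset.sum_comm]
      calc _ ≤ ∑ m ∈ Icc (s + 2) (k - 5), ∑ x ∈ Cyc G k, ∑ w ∈ F G k s x,
            36 / 25 * kap V k * om G k w * mu k ((F G k m x).filter (fun y => G.Adj y w)) := by
            refine Finset.sum_le_sum fun m hm => ?_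
            rw [Finset.mem_Icc] at hm
            exact v3_partB (by omega) hm.1 (by omega)
        _ = ∑ x ∈ Cyc G k, ∑ w ∈ F G k s x, 36 / 25 * kap V k * om G k w *
            ∑ m ∈ Icc (s + 2) (k - 5), mu k ((F G k m x).filter (fun y => G.Adj y w)) := by
            rw [Finset.sum_comm]
            refine Finset.sum_congr rfl fun x _ => ?_
            rw [Finset.sum_comm]
            refine Finset.sum_congr rfl fun w _ => ?_
            rw [Finset.mul_sum]
        _ ≤ ∑ x ∈ Cyc G k, ∑ w ∈ F G k s x, 36 / 25 * kap V k * om G k w *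
            mu k ((W G k (s + 2) x).filter (fun y => G.Adj y w)) := by
            refine Finset.sum_le_sum fun x _ => Finset.sum_le_sum fun w _ => ?_
            refine mul_le_mul_of_nonneg_left ?_ (mul_nonneg (mul_nonneg (by norm_num)
              kap_nonneg) (om_nonneg w))
            exact v3_sum_F s _ (fun m hm => (Finset.mem_Icc.mp hm).1) x w
        _ ≤ _ := v3_partB' s
    rw [Finset.sum_comm]
    refine (Finset.sum_le_sum hstep).trans ?_
    rw [Finset.sum_add_distrib, ← Finset.mul_sum, ← Finset.mul_sum]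
    have : ∑ s ∈ Icc 3 (k - 7), cc G k s ≤ ∑ s ∈ Icc 3 (k - 3), cc G k s :=
      Finset.sum_le_sum_of_subset_of_nonneg
        (Finset.Icc_subset_Icc (by omega) (by omega)) fun m _ _ => cc_nonneg m
    linarith
  calc _ = ∑ x ∈ Cyc G k, ∑ s ∈ Icc 3 (k - 7), ∑ m ∈ Icc (s + 2) (k - 5), ∑ w ∈ F G k s x,
        dis G k x ((m + 1 : ℕ) : ZMod k) w := by
        refine Finset.sum_congr rfl fun x _ => Finset.sum_congr rfl fun s _ => ?_
        exact hre s (fun j => ∑ w ∈ F G k s x, dis G k x ((j : ℕ) : ZMod k) w)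
    _ ≤ ∑ x ∈ Cyc G k, ∑ s ∈ Icc 3 (k - 7), ∑ m ∈ Icc (s + 2) (k - 5), ∑ w ∈ F G k s x,
        (th G k m x (x ((m + 1 : ℕ) : ZMod k)) *
        (if dg G k (x ((m + 1 : ℕ) : ZMod k)) ≤ 8 ∧ G.Adj (x ((m + 1 : ℕ) : ZMod k)) w
          then 6 / 5 * kap V k * om G k w else 0) +
        (1 - th G k m x (x ((m + 1 : ℕ) : ZMod k))) *
        (if G.Adj (x ((m + 1 : ℕ) : ZMod k)) w then 6 / 5 * kap V k * om G k w else 0)) :=
        Finset.sum_le_sum fun x _ => Finset.sum_le_sum fun s _ => Finset.sum_le_sum fun m _ =>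
          Finset.sum_le_sum fun w _ => hsplit x m w
    _ ≤ _ := by
        simp only [Finset.sum_add_distrib]
        linarith

end Pool.Agent.ICycK
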