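import Pool.Agent.Lib.MP_131fce_co.K.Defs
import Pool.Agent.Lib.MP_131fce_co.K.Vis12
import Pool.Agent.Lib.MP_131fce_co.K.Vis3
import Pool.Agent.Lib.MP_131fce_co.K.Basic
import Pool.Agent.Lib.MP_131fce_co.K.Cond
import Pool.Agent.Lib.MP_131fce_co.K.Deficit

/-! # IC-11c: total visible disagreement -/

set_option autoImplicit false
set_option linter.unusedSectionVars false

namespace Pool.Agent.ICycK

open Finset
open scoped Classical

variable {V : Type} [Fintype V] {G : SimpleGraph V} {k : ℕ} [NeZero k]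

/-- one step of the decomposition by the first hit -/
theorem vl_sum_W_succ (l : ℕ) (x : ZMod k → V) (f : V → ℝ) :
    ∑ w ∈ W G k l x, f w = ∑ w ∈ W G k (l + 1) x, f w + ∑ w ∈ F G k l x, f w := by
  have h1 : W G k (l + 1) x = (W G k l x).filter (fun w => ¬ G.Adj (x (l : ZMod k)) w) := by
    ext w
    simp only [W, Finset.mem_filter, Finset.mem_univ, true_and]
    constructor
    · intro h
      exact ⟨fun i hi => h i (by omega), h l (by omega)⟩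
    · rintro ⟨h, h'⟩ i hi
      rcases Nat.lt_succ_iff_lt_or_eq.mp hi with h2 | h2
      · exact h i h2
      · subst h2; exact h'
  rw [h1, add_comm]
  unfold F
  rw [Finset.sum_filter_add_sum_filter_not]

/-- decomposition by the first hit -/
theorem vl_sum_W (l d : ℕ) (x : ZMod k → V) (f : V → ℝ) :
    ∑ w ∈ W G k l x, f w =
      ∑ w ∈ W G k (l + d) x, f w + ∑ s ∈ Ico l (l + d), ∑ w ∈ F G k s x, f w := by
  induction d with
  | zero => simp
  | succ d ih =>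
    rw [ih, ← Nat.add_assoc, Finset.sum_Ico_succ_top (by omega), vl_sum_W_succ (l + d)]
    ring

/-- a vertex adjacent to two consecutive vertices of the cycle does not exist -/
theorem vl_dis_zero (tf : ∀ a b c : V, G.Adj a b → G.Adj b c → ¬ G.Adj a c) {x : ZMod k → V}
    (hx : x ∈ Cyc G k) (s : ℕ) :
    ∑ w ∈ F G k s x, dis G k x ((s + 1 : ℕ) : ZMod k) w = 0 := by
  refine Finset.sum_eq_zero fun w hw => ?_
  unfold dis
  rw [if_neg]
  rintro ⟨_, h⟩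
  unfold F at hw
  rw [Finset.mem_filter] at hw
  have hx' : IsCyc G k x := by
    unfold Cyc at hx
    exact (Finset.mem_filter.mp hx).2
  have h1 : G.Adj (x (s : ZMod k)) (x ((s + 1 : ℕ) : ZMod k)) := by
    rw [hx']
    left
    push_cast
    ring
  exact tf _ _ _ h1 h hw.2

theorem vl_Ioc (a b : ℕ) : Ioc a b = Icc (a + 1) b := by
  ext j
  simp only [Finset.mem_Ioc, Finset.mem_Icc]
  omega

/-- real bookkeeping of the pairs `(s, j)` -/
theorem vl_pairs (hk : 20 ≤ k) (g : ℕ → ℕ → ℝ) (hg : ∀ s, g s (s + 1) = 0) :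
    ∑ j ∈ Icc 4 (k - 4), ∑ s ∈ Ico 3 j, g s j =
      ∑ s ∈ Icc 3 (k - 6), g s (s + 2) +
      ∑ s ∈ Icc 3 (k - 7), ∑ j ∈ Icc (s + 3) (k - 4), g s j := by
  rw [Finset.sum_comm' (t' := Icc 3 (k - 5)) (s' := fun s => Icc (s + 1) (k - 4)) (by
    intro j s
    simp only [Finset.mem_Icc, Finset.mem_Ico]
    omega)]
  have h1 : ∀ s ∈ Icc 3 (k - 5), ∑ j ∈ Icc (s + 1) (k - 4), g s j =
      ∑ j ∈ Icc (s + 2) (k - 4), g s j := by
    intro s hs
    rw [Finset.mem_Icc] at hs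
    rw [← Finset.sum_Ioc_add_eq_sum_Icc (show s + 1 ≤ k - 4 by omega), hg, add_zero, vl_Ioc]
  rw [Finset.sum_congr rfl h1]
  have h2 : ∑ s ∈ Icc 3 (k - 5), ∑ j ∈ Icc (s + 2) (k - 4), g s j =
      ∑ s ∈ Icc 3 (k - 6), ∑ j ∈ Icc (s + 2) (k - 4), g s j := by
    symm
    refine Finset.sum_subset (Finset.Icc_subset_Icc le_rfl (by omega)) ?_
    intro s hs hs'
    rw [Finset.mem_Icc] at hs hs'
    rw [Finset.Icc_eq_empty (by omega), Finset.sum_empty]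
  have h3 : ∀ s ∈ Icc 3 (k - 6), ∑ j ∈ Icc (s + 2) (k - 4), g s j =
      g s (s + 2) + ∑ j ∈ Icc (s + 3) (k - 4), g s j := by
    intro s hs
    rw [Finset.mem_Icc] at hs
    rw [← Finset.sum_Ioc_add_eq_sum_Icc (show s + 2 ≤ k - 4 by omega), add_comm, vl_Ioc]
  have h4 : ∑ s ∈ Icc 3 (k - 6), ∑ j ∈ Icc (s + 3) (k - 4), g s j =
      ∑ s ∈ Icc 3 (k - 7), ∑ j ∈ Icc (s + 3) (k - 4), g s j := by
    symm
    refine Finset.sum_subset (Finset.Icc_subset_Icc le_rfl (by omega)) ?_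
    intro s hs hs'
    rw [Finset.mem_Icc] at hs hs'
    rw [Finset.Icc_eq_empty (by omega), Finset.sum_empty]
  rw [h2, Finset.sum_congr rfl h3, Finset.sum_add_distrib, h4]

theorem Vis_le (hk : 20 ≤ k) (tf : ∀ a b c : V, G.Adj a b → G.Adj b c → ¬ G.Adj a c) :
    Vis G k ≤ 516 / 125 * ∑ l ∈ Icc 3 (k - 5), Jl G k l +
      4807 / 50 * ∑ l ∈ Icc 3 (k - 3), cc G k l := by
  have hdec : Vis G k = ∑ j ∈ Icc 4 (k - 4), ∑ x ∈ Cyc G k, ∑ w ∈ W G k j x,
      dis G k x ((j : ℕ) : ZMod k) w +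
      (∑ s ∈ Icc 3 (k - 6), ∑ x ∈ Cyc G k, ∑ w ∈ F G k s x,
        dis G k x ((s + 2 : ℕ) : ZMod k) w +
      ∑ x ∈ Cyc G k, ∑ s ∈ Icc 3 (k - 7), ∑ j ∈ Icc (s + 3) (k - 4), ∑ w ∈ F G k s x,
        dis G k x ((j : ℕ) : ZMod k) w) := by
    unfold Vis
    have h1 : ∀ x ∈ Cyc G k, ∑ j ∈ Icc 4 (k - 4), ∑ w ∈ W G k 3 x,
        dis G k x ((j : ℕ) : ZMod k) w =
        ∑ j ∈ Icc 4 (k - 4), ∑ w ∈ W G k j x, dis G k x ((j : ℕ) : ZMod k) w +
        (∑ s ∈ Icc 3 (k - 6), ∑ w ∈ F G k s x, dis G k x ((s + 2 : ℕ) : ZMod k) w +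
        ∑ s ∈ Icc 3 (k - 7), ∑ j ∈ Icc (s + 3) (k - 4), ∑ w ∈ F G k s x,
          dis G k x ((j : ℕ) : ZMod k) w) := by
      intro x hx
      rw [← vl_pairs hk (fun s j => ∑ w ∈ F G k s x, dis G k x ((j : ℕ) : ZMod k) w)
        (fun s => vl_dis_zero tf hx s), ← Finset.sum_add_distrib]
      refine Finset.sum_congr rfl fun j hj => ?_
      rw [Finset.mem_Icc] at hj
      obtain ⟨d, rfl⟩ : ∃ d, j = 3 + d := ⟨j - 3, by omega⟩
      exact vl_sum_W 3 d x _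
    rw [Finset.sum_congr rfl h1, Finset.sum_add_distrib, Finset.sum_add_distrib]
    rw [Finset.sum_comm (s := Cyc G k) (t := Icc 4 (k - 4))]
    rw [Finset.sum_comm (s := Cyc G k) (t := Icc 3 (k - 6))]
  rw [hdec]
  have hc0 : ∀ m : ℕ, 0 ≤ cc G k m := fun m => cc_nonneg m
  have hJ0 : ∀ m : ℕ, 0 ≤ Jl G k m := fun m => Jl_nonneg m
  have hA : ∑ j ∈ Icc 4 (k - 4), ∑ x ∈ Cyc G k, ∑ w ∈ W G k j x,
      dis G k x ((j : ℕ) : ZMod k) w ≤
      6 / 5 * ∑ l ∈ Icc 3 (k - 5), Jl G k l + 26 * ∑ l ∈ Icc 3 (k - 3), cc G k l := by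
    have h1 : ∑ j ∈ Icc 4 (k - 4), ∑ x ∈ Cyc G k, ∑ w ∈ W G k j x,
        dis G k x ((j : ℕ) : ZMod k) w ≤
        ∑ j ∈ Icc 4 (k - 4), (6 / 5 * Jl G k (j - 1) + 26 * cc G k (j - 1)) := by
      refine Finset.sum_le_sum fun j hj => ?_
      rw [Finset.mem_Icc] at hj
      exact Vis1 hk (by omega) (by omega)
    have h2 : ∑ j ∈ Icc 4 (k - 4), (6 / 5 * Jl G k (j - 1) + 26 * cc G k (j - 1)) =
        ∑ l ∈ Icc 3 (k - 5), (6 / 5 * Jl G k l + 26 * cc G k l) := by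
      have : Icc 4 (k - 4) = (Icc 3 (k - 5)).image (fun m => m + 1) := by
        ext j
        simp only [Finset.mem_Icc, Finset.mem_image]
        constructor
        · intro h
          exact ⟨j - 1, by omega, by omega⟩
        · rintro ⟨m, hm, rfl⟩
          omega
      rw [this, Finset.sum_image (fun a _ b _ h => by simpa using h)]
      rfl
    rw [h2, Finset.sum_add_distrib, ← Finset.mul_sum, ← Finset.mul_sum] at h1
    have h3 : ∑ l ∈ Icc 3 (k - 5), cc G k l ≤ ∑ l ∈ Icc 3 (k - 3), cc G k l :=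
      Finset.sum_le_sum_of_subset_of_nonneg
        (Finset.Icc_subset_Icc le_rfl (by omega)) fun m _ _ => hc0 m
    linarith
  have hB : ∑ s ∈ Icc 3 (k - 6), ∑ x ∈ Cyc G k, ∑ w ∈ F G k s x,
        dis G k x ((s + 2 : ℕ) : ZMod k) w ≤
      6 / 5 * ∑ l ∈ Icc 3 (k - 5), Jl G k l + 39 / 10 * ∑ l ∈ Icc 3 (k - 3), cc G k l := by
    have h1 : ∑ s ∈ Icc 3 (k - 6), ∑ x ∈ Cyc G k, ∑ w ∈ F G k s x,
        dis G k x ((s + 2 : ℕ) : ZMod k) w ≤
        ∑ s ∈ Icc 3 (k - 6), (6 / 5 * Jl G k s + 39 / 10 * cc G k s) := by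
      refine Finset.sum_le_sum fun s hs => ?_
      rw [Finset.mem_Icc] at hs
      exact Vis2 hk (by omega)
    rw [Finset.sum_add_distrib, ← Finset.mul_sum, ← Finset.mul_sum] at h1
    have h3 : ∑ l ∈ Icc 3 (k - 6), cc G k l ≤ ∑ l ∈ Icc 3 (k - 3), cc G k l :=
      Finset.sum_le_sum_of_subset_of_nonneg
        (Finset.Icc_subset_Icc (by omega) (by omega)) fun m _ _ => hc0 m
    have h4 : ∑ l ∈ Icc 3 (k - 6), Jl G k l ≤ ∑ l ∈ Icc 3 (k - 5), Jl G k l :=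
      Finset.sum_le_sum_of_subset_of_nonneg
        (Finset.Icc_subset_Icc (by omega) (by omega)) fun m _ _ => hJ0 m
    linarith
  have hC := Vis3 (G := G) hk
  have h4 : ∑ l ∈ Icc 3 (k - 7), Jl G k l ≤ ∑ l ∈ Icc 3 (k - 5), Jl G k l :=
    Finset.sum_le_sum_of_subset_of_nonneg
      (Finset.Icc_subset_Icc (by omega) (by omega)) fun m _ _ => hJ0 m
  linarith

end Pool.Agent.ICycK
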