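import Pool.Agent.Lib.MP_131fce_co.K.Defs
import Pool.Agent.Lib.MP_131fce_co.K.Basic
import Pool.Agent.Lib.MP_131fce_co.K.Cond
import Pool.Agent.Lib.MP_131fce_co.K.Deficit
import Pool.Agent.Lib.MP_131fce_co.K.PotIl
import Pool.Agent.Lib.MP_131fce_co.K.PotEl
import Pool.Agent.Lib.MP_131fce_co.K.Potential
import Pool.Agent.Lib.MP_131fce_co.K.Closing
import Pool.Agent.Lib.MP_131fce_co.K.Entropy
import Pool.Agent.Lib.MP_131fce_co.K.Gaps
import Pool.Agent.Lib.MP_131fce_co.K.MfarLe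
import Pool.Agent.Lib.MP_131fce_co.K.BadLe
import Pool.Agent.Lib.MP_131fce_co.K.VisLe
import Pool.Agent.Lib.MP_131fce_co.K.Dense
import Pool.Agent.Lib.MP_131fce_co.K.GainLe
import Pool.Agent.Lib.MP_131fce_co.K.Gibbs
import Pool.Agent.Lib.MP_131fce_co.K.CoefLe

/-!
# IC-16: final assembly
-/

set_option autoImplicit false

namespace Pool.Agent.ICycK

open Finset
open scoped Classical

variable {V : Type} [Fintype V] {G : SimpleGraph V} {k : ℕ} [NeZero k]

/-- real arithmetic of the assembly -/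
theorem assembly {K SJ C X g m v Il El d f : ℝ} (hK : 900 ≤ K) (hC : 0 ≤ C)
    (hX : 0 ≤ X) (hSJ : 0 ≤ SJ) (hIl : Il ≤ 11417 / 500 * C)
    (hEl : El ≤ 137 / 20 * C)
    (hd : d ≤ 768 / 125 * X + 5184 / 625 * g + 8832 / 625 * C)
    (hJ : SJ ≤ Il + d + 12 / 5 * El) (hg : g ≤ 2 / K * m + 6 * X)
    (hmm : (K - 7) * m ≤ K * (36 / 25 * SJ + 137 / 20 * C))
    (hv : v ≤ 516 / 125 * SJ + 4807 / 50 * C) (hf : f ≤ K / (K - 13) * (v + 48 * X)) :
    13 / 4 / (K - 5) * C + Real.exp 1 / K * f - X - C ≤ 0 := by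
  have hK0 : 0 < K := by linarith
  have hK7 : 0 < K - 7 := by linarith
  have hK13 : 0 < K - 13 := by linarith
  -- `m / K`
  have hmK : 2 / K * m ≤ 2 / 893 * (36 / 25 * SJ + 137 / 20 * C) := by
    have h1 : m ≤ K / (K - 7) * (36 / 25 * SJ + 137 / 20 * C) := by
      rw [div_mul_eq_mul_div, le_div_iff₀ hK7]
      linarith
    have h2 : 2 / K * m ≤ 2 / K * (K / (K - 7) * (36 / 25 * SJ + 137 / 20 * C)) :=
      mul_le_mul_of_nonneg_left h1 (by positivity)
    have h3 : 2 / K * (K / (K - 7) * (36 / 25 * SJ + 137 / 20 * C)) =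
        2 / (K - 7) * (36 / 25 * SJ + 137 / 20 * C) := by
      field_simp
    have h4 : 2 / (K - 7) ≤ 2 / 893 := by
      rw [div_le_div_iff₀ hK7 (by norm_num)]
      linarith
    have h5 : 0 ≤ 36 / 25 * SJ + 137 / 20 * C := by linarith
    calc 2 / K * m ≤ 2 / (K - 7) * (36 / 25 * SJ + 137 / 20 * C) := by rw [← h3]; exact h2
      _ ≤ 2 / 893 * (36 / 25 * SJ + 137 / 20 * C) := mul_le_mul_of_nonneg_right h4 h5
  have hSJ1 : SJ ≤ 5501 / 100 * C + 5745 / 100 * X := by linarith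
  have hv1 : v + 48 * X ≤ 32323 / 100 * C + 28516 / 100 * X := by linarith
  have hW : 0 ≤ 32323 / 100 * C + 28516 / 100 * X := by positivity
  have he1 : Real.exp 1 ≤ 2.7182818286 := le_of_lt Real.exp_one_lt_d9
  have he0 : 0 < Real.exp 1 := Real.exp_pos 1
  have hf1 : Real.exp 1 / K * f ≤ Real.exp 1 / (K - 13) *
      (32323 / 100 * C + 28516 / 100 * X) := by
    have h1 : f ≤ K / (K - 13) * (32323 / 100 * C + 28516 / 100 * X) :=
      hf.trans (mul_le_mul_of_nonneg_left hv1 (by positivity))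
    calc Real.exp 1 / K * f ≤ Real.exp 1 / K *
          (K / (K - 13) * (32323 / 100 * C + 28516 / 100 * X)) :=
          mul_le_mul_of_nonneg_left h1 (by positivity)
      _ = Real.exp 1 / (K - 13) * (32323 / 100 * C + 28516 / 100 * X) := by
          field_simp
  have hc1 : Real.exp 1 / (K - 13) ≤ 2.7182818286 / 887 := by
    rw [div_le_div_iff₀ hK13 (by norm_num)]
    nlinarith
  have hf2 : Real.exp 1 / K * f ≤ 2.7182818286 / 887 *
      (32323 / 100 * C + 28516 / 100 * X) :=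
    hf1.trans (mul_le_mul_of_nonneg_right hc1 hW)
  have hK5 : 13 / 4 / (K - 5) * C ≤ 13 / 3580 * C := by
    apply mul_le_mul_of_nonneg_right _ hC
    rw [div_le_div_iff₀ (by linarith) (by norm_num)]
    linarith
  norm_num at hf2
  linarith

/-- `XX` is nonnegative -/
theorem XX_nonneg (hk : 20 ≤ k) : 0 ≤ XX G k := by
  have hkR : (20 : ℝ) ≤ (k : ℝ) := by exact_mod_cast hk
  have hkap : 0 ≤ kap V k := by
    unfold kap
    positivity
  rw [XX]
  refine mul_nonneg (by positivity) (Finset.sum_nonneg (fun x _ => Finset.sum_nonneg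
    (fun w _ => mul_nonneg hkap ?_)))
  rw [rr]
  split_ifs with h0 h1
  · linarith
  · norm_num
  · have h2 : 2 ≤ (Ty G k x w).card := by omega
    have h2R : (2 : ℝ) ≤ ((Ty G k x w).card : ℝ) := by exact_mod_cast h2
    linarith

/-- a sum over a shifted interval of a nonnegative function -/
theorem sum_shift_le {f : ℕ → ℝ} (hf : ∀ l, 0 ≤ f l) {a b c d s : ℕ} (h1 : c ≤ a + s)
    (h2 : b + s ≤ d) : ∑ l ∈ Icc a b, f (l + s) ≤ ∑ l ∈ Icc c d, f l := by
  have : ∑ l ∈ Icc a b, f (l + s) = ∑ l ∈ (Icc a b).image (fun l => l + s), f l := by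
    rw [Finset.sum_image]
    intro x _ y _ hxy
    simpa using hxy
  rw [this]
  apply Finset.sum_le_sum_of_subset_of_nonneg
  · intro l hl
    rw [mem_image] at hl
    obtain ⟨i, hi, rfl⟩ := hl
    rw [mem_Icc] at hi ⊢
    omega
  · intro l _ _
    exact hf l

theorem single_le_sum_Icc {f : ℕ → ℝ} (hf : ∀ l, 0 ≤ f l) {a b c : ℕ} (h1 : a ≤ c)
    (h2 : c ≤ b) : f c ≤ ∑ l ∈ Icc a b, f l :=
  Finset.single_le_sum (f := f) (fun l _ => hf l) (mem_Icc.2 ⟨h1, h2⟩)

theorem NN_le (hk : 900 ≤ k) (tf : ∀ a b c : V, G.Adj a b → G.Adj b c → ¬ G.Adj a c)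
    (hne : (Cyc G k).Nonempty) :
    NN G k * kap V k ^ k ≤ 2 * (k : ℝ) := by
  have hk20 : 20 ≤ k := le_trans (by norm_num) hk
  have hkR : (900 : ℝ) ≤ (k : ℝ) := by exact_mod_cast hk
  have hk0 : (0 : ℝ) < (k : ℝ) := lt_of_lt_of_le (by norm_num) hkR
  have hcc : ∀ l, 0 ≤ cc G k l := fun l => cc_nonneg l
  have hJl : ∀ l, 0 ≤ Jl G k l := fun l => Jl_nonneg l
  set SJ := ∑ l ∈ Icc 3 (k - 5), Jl G k l with hSJd
  set C := ∑ l ∈ Icc 3 (k - 3), cc G k l with hCd
  set C' := ∑ l ∈ Icc 3 (k - 5), cc G k l with hCd'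
  have hC : 0 ≤ C := Finset.sum_nonneg (fun l _ => hcc l)
  have hC' : 0 ≤ C' := Finset.sum_nonneg (fun l _ => hcc l)
  have hSJ : 0 ≤ SJ := Finset.sum_nonneg (fun l _ => hJl l)
  have hX : 0 ≤ XX G k := XX_nonneg hk20
  have hIl : ∑ l ∈ Icc 3 (k - 5), Il G k l ≤ 11417 / 500 * C := by
    have h1 : ∑ l ∈ Icc 3 (k - 5), Il G k l ≤
        ∑ l ∈ Icc 3 (k - 5), (48 / 5 * cc G k (l + 2) + 6617 / 500 * cc G k (l + 1)) := by
      refine Finset.sum_le_sum (fun l hl => ?_)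
      rw [mem_Icc] at hl
      exact Il_le hk20 tf (by omega)
    rw [Finset.sum_add_distrib, ← Finset.mul_sum, ← Finset.mul_sum] at h1
    have h2 : ∑ l ∈ Icc 3 (k - 5), cc G k (l + 2) ≤ C :=
      sum_shift_le (f := cc G k) hcc (by omega) (by omega)
    have h3 : ∑ l ∈ Icc 3 (k - 5), cc G k (l + 1) ≤ C :=
      sum_shift_le (f := cc G k) hcc (by omega) (by omega)
    linarith
  have hEl : ∑ l ∈ Icc 3 (k - 5), El G k l ≤ 137 / 20 * C := by
    have h1 : ∑ l ∈ Icc 3 (k - 5), El G k l ≤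
        ∑ l ∈ Icc 3 (k - 5), (18 / 5 * cc G k l + 13 / 4 * cc G k (l + 1)) := by
      refine Finset.sum_le_sum (fun l hl => ?_)
      rw [mem_Icc] at hl
      exact El_le hk20 (by omega)
    rw [Finset.sum_add_distrib, ← Finset.mul_sum, ← Finset.mul_sum] at h1
    have h2 : ∑ l ∈ Icc 3 (k - 5), cc G k l ≤ C :=
      sum_shift_le (f := cc G k) (s := 0) hcc (by omega) (by omega)
    have h3 : ∑ l ∈ Icc 3 (k - 5), cc G k (l + 1) ≤ C :=
      sum_shift_le (f := cc G k) hcc (by omega) (by omega)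
    linarith
  have hCsplit : C = C' + cc G k (k - 4) + cc G k (k - 3) := by
    rw [hCd, hCd']
    have h1 : Icc 3 (k - 3) = insert (k - 3) (insert (k - 4) (Icc 3 (k - 5))) := by
      ext l
      rw [mem_insert, mem_insert, mem_Icc, mem_Icc]
      omega
    rw [h1, Finset.sum_insert, Finset.sum_insert]
    · ring
    · rw [mem_Icc]
      omega
    · rw [mem_insert, mem_Icc]
      omega
  have hd : PP G k (k - 4) - PP G k 3 ≤ 768 / 125 * XX G k + 5184 / 625 * Gam G k +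
      8832 / 625 * C := by
    have h1 := closing (G := G) hk20 tf
    have h2 := ze_sum (G := G) hk20
    have h3 := hcc (k - 3)
    have h4 := hcc (k - 4)
    rw [← hCd'] at h1
    linarith
  have hJ : SJ ≤ ∑ l ∈ Icc 3 (k - 5), Il G k l + (PP G k (k - 4) - PP G k 3) +
      12 / 5 * ∑ l ∈ Icc 3 (k - 5), El G k l := potential hk20
  have hg : Gam G k ≤ 2 / (k : ℝ) * Mfar G k + 6 * XX G k := Gam_le hk20 tf
  have hmm : ((k : ℝ) - 7) * Mfar G k ≤ (k : ℝ) * (36 / 25 * SJ + 137 / 20 * C) := by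
    refine le_trans (Mfar_le hk20 tf) (mul_le_mul_of_nonneg_left ?_ hk0.le)
    have h1 : ∑ s ∈ Icc 3 (k - 5), Bad G k s ≤
        ∑ s ∈ Icc 3 (k - 5), (36 / 25 * Jl G k s + 18 / 5 * cc G k (s + 1) +
          13 / 4 * cc G k s) := by
      refine Finset.sum_le_sum (fun s hs => ?_)
      rw [mem_Icc] at hs
      exact Bad_le hk20 (by omega)
    rw [Finset.sum_add_distrib, Finset.sum_add_distrib, ← Finset.mul_sum, ← Finset.mul_sum,
      ← Finset.mul_sum] at h1
    have h3 : ∑ s ∈ Icc 3 (k - 5), cc G k (s + 1) ≤ C :=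
      sum_shift_le (f := cc G k) hcc (by omega) (by omega)
    have h4 : ∑ s ∈ Icc 3 (k - 5), cc G k s ≤ C :=
      sum_shift_le (f := cc G k) (s := 0) hcc (by omega) (by omega)
    linarith
  have hv : Vis G k ≤ 516 / 125 * SJ + 4807 / 50 * C := Vis_le hk20 tf
  have hf : FL G k ≤ (k : ℝ) / ((k : ℝ) - 13) * (Vis G k + 48 * XX G k) := FL_le hk20 tf
  have hA := assembly hkR hC hX hSJ hIl hEl hd hJ hg hmm hv hf
  -- the main inequality
  have h1 := gibbs hk20 tf hne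
  have h2 := types (G := G) hk20 tf
  have h3 := Gain_le (G := G) hk20
  have h4 := Lam_le (G := G) (k := k)
  rw [← hCd] at h1 h3
  have h5 : 1 / (k : ℝ) * Gain G k ≤ 13 / 4 / ((k : ℝ) - 5) * C + 6 / 7 * calJ G k +
      Real.exp 1 / (k : ℝ) * FL G k := by
    have hk5 : (k : ℝ) - 5 ≠ 0 := by
      have : (0 : ℝ) < (k : ℝ) - 5 := by linarith
      exact this.ne'
    calc 1 / (k : ℝ) * Gain G k ≤ 1 / (k : ℝ) * (13 / 4 * (k : ℝ) / ((k : ℝ) - 5) * C +
          6 / 7 * (k : ℝ) * calJ G k + Real.exp 1 * FL G k) :=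
          mul_le_mul_of_nonneg_left h3 (by positivity)
      _ = 13 / 4 / ((k : ℝ) - 5) * C + 6 / 7 * calJ G k +
          Real.exp 1 / (k : ℝ) * FL G k := by
          field_simp
  have h6 : NN G k * Real.log (NN G k * kap V k ^ k / (2 * (k : ℝ))) ≤ 0 := by
    linarith
  have hNN : 0 < NN G k := by
    rw [NN]
    exact_mod_cast Finset.card_pos.2 hne
  obtain ⟨x0, _⟩ := hne
  have : Nonempty V := ⟨x0 0⟩
  have hkap : 0 < kap V k := kap_pos
  have h7 : Real.log (NN G k * kap V k ^ k / (2 * (k : ℝ))) ≤ 0 := by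
    by_contra hcon
    push Not at hcon
    have := mul_pos hNN hcon
    linarith
  have h8 : 0 < NN G k * kap V k ^ k / (2 * (k : ℝ)) := by positivity
  have h9 : NN G k * kap V k ^ k / (2 * (k : ℝ)) ≤ 1 :=
    (Real.log_nonpos_iff h8.le).1 h7
  rw [div_le_one (by positivity)] at h9
  exact h9

end Pool.Agent.ICycK
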