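import Mathlib

/-!
# Induced k-cycles in triangle-free graphs (MP_131fce_co): definitions

`x : ZMod k → V` is a labelled induced `k`-cycle; windows are `x 0, x 1, ..., x l` (natural numbers cast to `ZMod k`).
Every vertex has weight `kap = k / n`, so the total mass of `V` is `k`.
-/

set_option autoImplicit false

namespace Pool.Agent.ICycK

open Finset
open scoped Classical

noncomputable section

variable {V : Type} [Fintype V] (G : SimpleGraph V) (k : ℕ) [NeZero k]

/-- labelled induced `k`-cycles -/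
def IsCyc (x : ZMod k → V) : Prop :=
  ∀ i j : ZMod k, G.Adj (x i) (x j) ↔ (j = i + 1 ∨ i = j + 1)

def Cyc : Finset (ZMod k → V) := univ.filter (fun x => IsCyc G k x)

/-- number of labelled induced cycles, as a real number -/
def NN : ℝ := ((Cyc G k).card : ℝ)

/-- weight of one vertex -/
def kap (V : Type) [Fintype V] (k : ℕ) : ℝ := (k : ℝ) / (Fintype.card V : ℝ)

def mu (k : ℕ) (S : Finset V) : ℝ := kap V k * (S.card : ℝ)

/-- neighbourhood -/
def nb (u : V) : Finset V := univ.filter (fun w => G.Adj u w)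

/-- weighted degree -/
def dg (u : V) : ℝ := mu k (nb G u)

/-- type of `w` with respect to `x` -/
def Ty (x : ZMod k → V) (w : V) : Finset (ZMod k) := univ.filter (fun i => G.Adj (x i) w)

/-- twin class of position `j` -/
def T (j : ZMod k) (x : ZMod k → V) : Finset V :=
  univ.filter (fun w => Ty G k x w = {j - 1, j + 1})

/-- vertices adjacent to none of `x 0, ..., x (l-1)` -/
def W (l : ℕ) (x : ZMod k → V) : Finset V :=
  univ.filter (fun w => ∀ i : ℕ, i < l → ¬ G.Adj (x (i : ZMod k)) w)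

/-- vertices adjacent to `x l` and to none of `x 0, ..., x (l-1)`; contains `x (l+1)` -/
def F (l : ℕ) (x : ZMod k → V) : Finset V :=
  (W G k l x).filter (fun w => G.Adj (x (l : ZMod k)) w)

/-- mass of the neighbours of `y` that are adjacent to none of `x 0, ..., x (l-1)` -/
def rho (l : ℕ) (x : ZMod k → V) (y : V) : ℝ := mu k ((W G k l x).filter (fun z => G.Adj y z))

/-- cycles that agree with `x` on `0, ..., l` -/
def cyl (l : ℕ) (x : ZMod k → V) : Finset (ZMod k → V) :=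
  (Cyc G k).filter (fun x' => ∀ i : ℕ, i ≤ l → x' (i : ZMod k) = x (i : ZMod k))

/-- conditional probability that `x (l+1) = y` given `x 0, ..., x l` -/
def pr (l : ℕ) (x : ZMod k → V) (y : V) : ℝ :=
  (((cyl G k l x).filter (fun x' => x' ((l + 1 : ℕ) : ZMod k) = y)).card : ℝ) /
    ((cyl G k l x).card : ℝ)

/-- conditional probability that `x (l+1)` is adjacent to `y` given `x 0, ..., x l` -/
def ee (l : ℕ) (x : ZMod k → V) (y : V) : ℝ := ∑ z ∈ nb G y, pr G k l x z

def Phi (t : ℝ) : ℝ := t * Real.log t - t + 1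
def JJ (t : ℝ) : ℝ := t - 1 - Real.log t

/-- deficit of step `l` (sum over all cycles) -/
def cc (l : ℕ) : ℝ :=
  ∑ x ∈ Cyc G k, ∑ y ∈ F G k l x, kap V k * Phi (pr G k l x y / kap V k)

/-- disagreement at step `l` -/
def Jl (l : ℕ) : ℝ :=
  ∑ x ∈ Cyc G k, ∑ y ∈ W G k (l + 1) x, kap V k * (ee G k l x y * (1 - ee G k l x y))

/-- degree deficit -/
def calJ : ℝ := ∑ x ∈ Cyc G k, JJ (dg G k (x 1) / 2)

/-- direct cost of a type -/
def rr (k : ℕ) (S : Finset (ZMod k)) : ℝ :=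
  if S.card = 0 then (k : ℝ) - 1 else if S.card = 1 then 3 / 2 else (S.card : ℝ) / 2 - 1

def XX : ℝ := (1 / (k : ℝ)) * ∑ x ∈ Cyc G k, ∑ w : V, kap V k * rr k (Ty G k x w)

/-- weights that penalise vertices of large degree -/
def om (y : V) : ℝ := 1 / max 1 (dg G k y / 8)

/-- weighted mass of `N(u) \ N(z)` -/
def aw (u z : V) : ℝ := kap V k * ∑ y ∈ (nb G u).filter (fun y => ¬ G.Adj z y), om G k y

/-- the kernel -/
def eps (u z : V) : ℝ := min 1 (Real.exp 1 * aw G k u z)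

/-- gain from twins -/
def Gain : ℝ := ∑ x ∈ Cyc G k, ∑ j : ZMod k, ∑ v ∈ T G k j x, kap V k * eps G k (x j) v

/-- cost of the weights -/
def Lam : ℝ := ∑ x ∈ Cyc G k, Real.log (max 1 (dg G k (x 1) / 8))

/-- normaliser of the kernel -/
def Zk (x : ZMod k → V) : ℝ := kap V k * ∑ z ∈ nb G (x 1), eps G k (x 2) z

/-- potential function -/
def Vf (r : ℝ) : ℝ :=
  if r ≤ 5 / 6 then min (384 / 125) (96 / 25 - 72 / 25 * r) else (max (11 / 5 - 6 / 5 * r) 0) ^ 2

/-- cost of a hit at free degree `r` -/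
def kf (r : ℝ) : ℝ := min (509 / 125) (24 * (r - 1) ^ 2 / (2 + 4 * r))

def PP (l : ℕ) : ℝ :=
  ∑ x ∈ Cyc G k, ∑ y ∈ W G k (l + 1) x, kap V k * Vf (rho G k l x y)

/-- hits, weighted by the cost of the free degree -/
def Il (l : ℕ) : ℝ :=
  ∑ x ∈ Cyc G k, ∑ y ∈ W G k (l + 1) x, kap V k * (ee G k l x y * kf (rho G k (l + 1) x y))

/-- discrepancy between hazard and decrement -/
def El (l : ℕ) : ℝ :=
  ∑ x ∈ Cyc G k, ∑ y ∈ W G k (l + 1) x,
    kap V k * max 0 (ee G k l x y - 6 / 5 * (rho G k l x y - rho G k (l + 1) x y))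

/-- hazard of the closing vertex -/
def ze (l : ℕ) : ℝ := ∑ x ∈ Cyc G k, ee G k l x (x ((k - 2 : ℕ) : ZMod k))

/-- entropy of step `l` -/
def Hn (l : ℕ) : ℝ :=
  ∑ x ∈ Cyc G k, -Real.log (pr G k l x (x ((l + 1 : ℕ) : ZMod k)) / kap V k)

def Fm (l : ℕ) : ℝ := ∑ x ∈ Cyc G k, mu k (F G k l x)

def Gam : ℝ := Fm G k 2 - Fm G k (k - 3)

/-- far pairs -/
def IsFar (k : ℕ) (S : Finset (ZMod k)) : Prop := S.card = 2 ∧ ∀ j : ZMod k, S ≠ {j - 1, j + 1}

def Mfar : ℝ := ∑ x ∈ Cyc G k, mu k (univ.filter (fun w => IsFar k (Ty G k x w)))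

/-- candidates of step `s` that miss `x (s+2)` -/
def Bad (s : ℕ) : ℝ :=
  ∑ x ∈ Cyc G k, mu k ((F G k s x).filter (fun w => ¬ G.Adj (x ((s + 2 : ℕ) : ZMod k)) w))

/-- free positions of a type -/
def al (k : ℕ) [NeZero k] (S : Finset (ZMod k)) : ℕ :=
  (univ.filter (fun a : ZMod k => a ∉ S ∧ a + 1 ∉ S ∧ a + 2 ∉ S)).card

/-- truncation factor of a twin class -/
def tm (x : ZMod k → V) (j : ZMod k) : ℝ :=
  if mu k (T G k j x) ≤ 6 / 5 then 1 else (6 / 5) / mu k (T G k j x)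

/-- weighted disagreement at the vertex `w`, position `j` -/
def dis (x : ZMod k → V) (j : ZMod k) (w : V) : ℝ :=
  if dg G k (x j) ≤ 8 ∧ G.Adj (x j) w then
    kap V k * om G k w * (tm G k x j * mu k ((T G k j x).filter (fun v => ¬ G.Adj v w))) else 0

/-- total disagreement at the positions of small degree -/
def FL : ℝ := ∑ x ∈ Cyc G k, ∑ j : ZMod k, ∑ w : V, dis G k x j w

/-- disagreement seen in a frame -/
def Vis : ℝ :=
  ∑ x ∈ Cyc G k, ∑ j ∈ Finset.Icc 4 (k - 4), ∑ w ∈ W G k 3 x, dis G k x ((j : ℕ) : ZMod k) w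

/-- number of rotations and steps at which `w` is a candidate -/
def cnt (x : ZMod k → V) (w : V) : ℝ :=
  ∑ a : ZMod k, ∑ l ∈ Finset.Icc 2 (k - 3),
    if w ∈ F G k l (fun i => x (i + a)) then (1 : ℝ) else 0

/-- total coefficient of `w` in the linearised main inequality -/
def coef (x : ZMod k → V) (w : V) : ℝ :=
  ((Ty G k x w).card : ℝ) / 2 + cnt G k x w +
    (∑ j : ZMod k, if w ∈ T G k j x then (1 : ℝ) else 0) +
    (∑ i ∈ Ty G k x w, (eps G k (x (i + 1)) w + eps G k (x (i - 1)) w) / 2) - ((k : ℝ) - 1)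

/-- law of `(x 1, x 2, x 0, x 3)` used in the Gibbs inequality -/
def qq (x : ZMod k → V) : ℝ :=
  (1 / (Fintype.card V : ℝ)) * (1 / ((nb G (x 1)).card : ℝ)) *
    (eps G k (x 2) (x 0) / ∑ z ∈ nb G (x 1), eps G k (x 2) z) *
    (om G k (x 3) / ∑ y ∈ (nb G (x 2)).filter (fun y => ¬ G.Adj (x 0) y), om G k y)

end

end Pool.Agent.ICycK
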